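import Pool.Agent.Helper45.AB.Check2

/-!
# Assembly of certificates
-/

set_option autoImplicit false

namespace Pool.Agent.Helper45.AB

open Pool.Agent.W223.AK

variable {en ed cb : ℕ} {hs : List (List ℤ × Bool)}

theorem knM {k r m0 m1 m2 : ℕ} {t1 t2 : CT2}
    (h : (decide (1 ≤ k ∧ k ≤ 4 ∧ r < 3) && ((r == 0) || vmask k m0) && ((r == 1) || vmask k m1) &&
      ((r == 2) || vmask k m2)) = true)
    (h1 : chk2 en ed cb t1 ((fM1 en ed cb m0 m1 m2, true) :: hs) = true)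
    (h2 : chk2 en ed cb t2 ((fM2 en ed cb k r m0 m1 m2, true) :: hs) = true) :
    chk2 en ed cb (.nM k r m0 m1 m2 t1 t2) hs = true := by
  rw [chk2, h, h1, h2]; rfl

theorem knS {r F : ℕ} {t1 t2 t3 t4 : CT2} (h : decide (r < 3) = true)
    (h1 : chk2 en ed cb t1 ((fS en ed cb r F 0 0, true) :: hs) = true)
    (h2 : chk2 en ed cb t2 ((fS en ed cb r F 1 0, true) :: hs) = true)
    (h3 : chk2 en ed cb t3 ((fS en ed cb r F 0 1, true) :: hs) = true)
    (h4 : chk2 en ed cb t4 ((fS en ed cb r F 1 1, true) :: hs) = true) :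
    chk2 en ed cb (.nS r F t1 t2 t3 t4) hs = true := by
  rw [chk2, h, h1, h2, h3, h4]; rfl

theorem knD {p q r i : ℕ} {t1 t2 : CT2}
    (h : decide (p < 3 ∧ q < 3 ∧ r < 3 ∧ p ≠ q ∧ q ≠ r ∧ p ≠ r ∧ 1 ≤ i ∧ i < 4) = true)
    (h1 : chk2 en ed cb t1 ((fD1 en ed cb p q i, true) :: hs) = true)
    (h2 : chk2 en ed cb t2 ((fD2 en ed cb p q r i, true) :: hs) = true) :
    chk2 en ed cb (.nD p q r i t1 t2) hs = true := by
  rw [chk2, h, h1, h2]; rfl

theorem knN {var r p q F i j : ℕ} {t0 t1 t2 t3 t4 : CT2}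
    (h : decide (var < 3 ∧ r < 3 ∧ p < 3 ∧ q < 3 ∧ p ≠ q ∧ q ≠ r ∧ p ≠ r ∧ i < j ∧ j < 4) = true)
    (h0 : chk2 en ed cb t0 ((fN0 en ed cb r q F, true) :: hs) = true)
    (h1 : chk2 en ed cb t1 ((fN en ed cb var r p q F i j 0 0, true) :: hs) = true)
    (h2 : chk2 en ed cb t2 ((fN en ed cb var r p q F i j 1 0, true) :: hs) = true)
    (h3 : chk2 en ed cb t3 ((fN en ed cb var r p q F i j 0 1, true) :: hs) = true)
    (h4 : chk2 en ed cb t4 ((fN en ed cb var r p q F i j 1 1, true) :: hs) = true) :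
    chk2 en ed cb (.nN var r p q F i j t0 t1 t2 t3 t4) hs = true := by
  rw [chk2, h, h0, h1, h2, h3, h4]; rfl

end Pool.Agent.Helper45.AB
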