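import Pool.Graph.R_seed8.W108.AK.Cell
import Pool.Graph.R_seed8.W358.AK.EST

/-!
# Exceptional set in the abc conjecture over number fields: the off-diagonal bound (statements)

Continues the definitions of `Pool.Graph.R_seed8.W223.AK.Defs`.
-/

set_option autoImplicit false

namespace Pool.Agent.Helper45.AB

open NumberField IsDedekindDomain Finset Pool.Agent.H691R3 Pool.Agent.W223.AK

variable {K : Type} [Field K] [NumberField K]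

/-- admissible losses `θ` for pairs of sizes `a`, `b` and exponents `k`, `l` -/
def Th (k l : ℕ) (a b ζ θ : ℝ) : Prop :=
  0 ≤ θ ∨ (((k : ℝ) + l) * a + ζ ≤ l * θ ∧ ((k : ℝ) + l) * a + ζ ≤ k * θ) ∨
    (((k : ℝ) + l) * b + ζ ≤ l * θ ∧ ((k : ℝ) + l) * b + ζ ≤ k * θ)

/-- OFF: two-variable energy off the diagonal -/
def S_OFF (S : Finset (Pr K)) (ϖ : Pr K → K) : Prop :=
  ∀ k l : ℕ, 1 ≤ k → 1 ≤ l → SGood S k → SGood S l → ∀ ε A : ℝ, 0 < ε → 0 ≤ A →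
    ∃ D : ℝ, 0 < D ∧
    ∀ (X a b z θ : ℝ) (f : Idl K) (V : Finset (Pl K)) (σ : Pl K → ℝ) (y₀ : K)
      (Q : Finset ((Idl K × Idl K) × (Idl K × Idl K))),
    0 ≤ a → a ≤ X → 0 ≤ b → b ≤ X → OffS S f → len f ≤ X → V ⊆ Spl S → (∀ v ∈ V, 0 ≤ σ v) →
    y₀ ≠ 0 → Th k l a b (z - lenM f V σ) θ →
    (∀ t ∈ Q, (OffS S t.1.1 ∧ Cop t.1.1 f ∧ len t.1.1 ≤ a) ∧
      (OffS S t.1.2 ∧ Cop t.1.2 f ∧ len t.1.2 ≤ a) ∧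
      (OffS S t.2.1 ∧ Cop t.2.1 f ∧ len t.2.1 ≤ b) ∧
      (OffS S t.2.2 ∧ Cop t.2.2 f ∧ len t.2.2 ≤ b) ∧
      lenM f V σ ≤ k * (len t.1.2 - len (t.1.1 ⊓ t.1.2)) +
        l * (len t.2.2 - len (t.2.1 ⊓ t.2.2)) + z ∧
      Cl f V σ A (y₀ * (gen ϖ t.1.1 / gen ϖ t.1.2) ^ k * (gen ϖ t.2.1 / gen ϖ t.2.2) ^ l)) →
    (Q.card : ℝ) ≤ D * Real.exp (ε * X) * (Real.exp (a + b) *
      (Real.exp θ + Real.exp (a + b - lenM f V σ)))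

/-- CSO: combinatorial Cauchy-Schwarz inequality off the diagonal -/
def S_CSO : Prop :=
  ∀ (α β : Type) (R : Finset (α × β)) (SA : Finset (α × α)) (SB : Finset (β × β)) (N : Finset β),
    (∀ p ∈ R, p.2 ∈ N) →
    (∀ p ∈ R, ∀ p' ∈ R, p.2 = p'.2 → p.1 ≠ p'.1 → (p.1, p'.1) ∈ SA) →
    (∀ p ∈ R, ∀ p' ∈ R, p.1 = p'.1 → (p.2, p'.2) ∈ SB) →
    (R.card : ℝ) ≤ N.card + Real.sqrt (2 * SA.card * SB.card)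

/-- SIZE: an element close to `1` and different from `1` has a large denominator -/
def S_SIZE (K : Type) [Field K] [NumberField K] : Prop :=
  ∀ (S : Finset (Pr K)) (A B : ℝ), 0 ≤ A → 0 ≤ B → ∃ C : ℝ, 0 ≤ C ∧
    ∀ (y : K) (f b : Idl K) (V : Finset (Pl K)) (σ : Pl K → ℝ), y ≠ 0 → y ≠ 1 → V ⊆ Spl S →
    OffS S f → (∀ v, v ∉ S → fv v y ≤ (Nv v) ^ (b v)) →
    (∀ v ∈ Spl S, mt v * Real.log (av v y) ≤ B) → Cl f V σ A y →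
    lenM f V σ ≤ len b + C

/-- the conditions on one ideal -/
structure Gd2 (S : Finset (Pr K)) (f : Idl K) (k l : ℕ) (a b τ W X : ℝ) (P : Idl K) : Prop where
  off : OffS S P
  cop : Cop P f
  len : len P ≤ X
  ka : rl (ex P {k}) ≤ a
  lb : rl (ex P {l}) ≤ b
  tail : rl (ex P {m | m ≠ k ∧ m ≠ l}) ≤ τ
  tlen : Pool.Agent.W223.AK.len (ex P {m | m ≠ k ∧ m ≠ l}) ≤ W

/-- OFQ: different ideals with quotient close to `1` -/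
def S_OFQ (S : Finset (Pr K)) (ϖ : Pr K → K) : Prop :=
  ∀ k l : ℕ, 1 ≤ k → 1 ≤ l → k ≠ l → SGood S k → SGood S l → ∀ ε A B : ℝ, 0 < ε → 0 ≤ A →
    0 ≤ B → ∃ D : ℝ, 0 < D ∧
    ∀ (X a b τ W θ : ℝ) (f : Idl K) (V : Finset (Pl K)) (σ : Pl K → ℝ)
      (Q : Finset (Idl K × Idl K)),
    0 ≤ a → a ≤ X → 0 ≤ b → b ≤ X → OffS S f → len f ≤ X → V ⊆ Spl S → (∀ v ∈ V, 0 ≤ σ v) →
    Th k l a b (W - lenM f V σ) θ →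
    (∀ t ∈ Q, Gd2 S f k l a b τ W X t.1 ∧ Gd2 S f k l a b τ W X t.2 ∧ t.1 ≠ t.2 ∧
      (∀ v ∈ Spl S, |mt v * Real.log (av v (gen ϖ t.1 / gen ϖ t.2))| ≤ B) ∧
      Cl f V σ A (gen ϖ t.1 / gen ϖ t.2)) →
    (Q.card : ℝ) ≤ D * Real.exp (ε * X + 2 * τ + (a + b)) *
      (Real.exp θ + Real.exp (a + b - lenM f V σ))

/-- SAO: the parts at one form of points with the same part at another form -/
def S_SAO (S : Finset (Pr K)) (ϖ : Pr K → K) : Prop :=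
  ∀ k l : ℕ, 1 ≤ k → 1 ≤ l → k ≠ l → SGood S k → SGood S l → ∀ ε : ℝ, 0 < ε →
    ∃ D : ℝ, 0 < D ∧
    ∀ (X : ℝ) (E : Finset K) (P : K → Fin 3 → Idl K) (p q r : Fin 3) (F : Set ℕ)
      (a b τ W Λ θ : ℝ) (σ : Fin 3 → Pl K → ℝ) (s : K) (f : Idl K) (Q : Finset (Idl K × Idl K)),
    0 ≤ X → (∀ x ∈ E, Pt x ∧ IsP S x (P x) ∧ ht x ≤ X) → p ≠ q → q ≠ r → p ≠ r →
    0 ≤ a → a ≤ X → 0 ≤ b → b ≤ X →
    (∀ x ∈ E, rl (ex (P x p) {k}) ≤ a) → (∀ x ∈ E, rl (ex (P x p) {l}) ≤ b) →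
    (∀ x ∈ E, rl (ex (P x p) {m | m ≠ k ∧ m ≠ l}) ≤ τ) →
    (∀ x ∈ E, len (ex (P x p) {m | m ≠ k ∧ m ≠ l}) ≤ W) →
    (∀ x ∈ E, ∀ v ∈ Spl S, ∀ j, |lm v j x - σ j v| ≤ 1) →
    (∀ x ∈ E, Λ ≤ len (ex (P x r) F) + ∑ v ∈ Spl S, σ r v) →
    (∀ x ∈ E, ex (P x r) F = f) →
    (∀ x ∈ E, yy p q x * (gen ϖ (P x q) / gen ϖ (P x p)) = s) →
    Th k l a b (W - Λ) θ →
    (∀ t ∈ Q, ∃ x ∈ E, ∃ x' ∈ E, t.1 = P x p ∧ t.2 = P x' p ∧ P x q = P x' q ∧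
      P x p ≠ P x' p) →
    (Q.card : ℝ) ≤ D * Real.exp (ε * X) *
      Real.exp (2 * τ + (a + b) + max θ (a + b - Λ))

/-- EST2: the off-diagonal energy bound for a cell -/
def S_EST2 (S : Finset (Pr K)) : Prop :=
  ∀ n k l : ℕ, SGood S n → 1 ≤ k → 1 ≤ l → k ≠ l → SGood S k → SGood S l →
    ∀ ε : ℝ, 0 < ε → ∃ D : ℝ, 0 < D ∧
    ∀ (X : ℝ) (E : Finset K) (P : K → Fin 3 → Idl K) (p q r : Fin 3) (F : Set ℕ)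
      (ν : Fin n → ℝ) (τq Vq a b τ W c Λ θ : ℝ) (σ : Fin 3 → Pl K → ℝ),
    0 ≤ X → (∀ x ∈ E, Pt x ∧ IsP S x (P x) ∧ ht x ≤ X) → p ≠ q → q ≠ r → p ≠ r →
    0 ≤ a → a ≤ X → 0 ≤ b → b ≤ X → (∀ i, 0 ≤ ν i) → ∑ i, ν i ≤ X →
    (∀ x ∈ E, rl (ex (P x p) {k}) ≤ a) → (∀ x ∈ E, rl (ex (P x p) {l}) ≤ b) →
    (∀ x ∈ E, rl (ex (P x p) {m | m ≠ k ∧ m ≠ l}) ≤ τ) →
    (∀ x ∈ E, len (ex (P x p) {m | m ≠ k ∧ m ≠ l}) ≤ W) →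
    (∀ x ∈ E, ∀ i : Fin n, rl (ex (P x q) {(i : ℕ) + 1}) ≤ ν i) →
    (∀ x ∈ E, rl (ex (P x q) {m | n < m}) ≤ τq) →
    (∀ x ∈ E, rl (P x q) ≤ Vq) →
    (∀ x ∈ E, rl (ex (P x r) F) ≤ c) →
    (∀ x ∈ E, ∀ v ∈ Spl S, ∀ j, |lm v j x - σ j v| ≤ 1) →
    (∀ x ∈ E, Λ ≤ len (ex (P x r) F) + ∑ v ∈ Spl S, σ r v) →
    Th k l a b (W - Λ) θ →
    (E.card : ℝ) ≤ D * Real.exp (ε * X + c) * (Real.exp Vq +
      Real.exp (1 / 2 * (2 * τ + (a + b) + max θ (a + b - Λ)) +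
        1 / 2 * (2 * τq + ∑ i, ν i + max 0 (3 / 2 * ∑ i, ν i - Λ))))

/-- CERT2: one of the four bounds is always good -/
def S_CERT2 (e : ℝ) : Prop :=
  ∃ C : ℝ, 0 ≤ C ∧ ∀ (X η : ℝ) (v : Fin 3 → Fin 5 → ℝ) (w s : Fin 3 → ℝ),
    0 ≤ X → 0 ≤ η → (∀ l i, 0 ≤ v l i) → (∀ l, 5 * v l 4 ≤ w l) → (∀ l, -η ≤ s l) →
    (∀ l, |WW v w l univ + s l - X| ≤ η) →
    (VV v 0 univ + VV v 1 univ + VV v 2 univ ≤ X + η) →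
    (∃ (p q r : Fin 3) (k : ℕ) (I : Fin 3 → Finset (Fin 5)), p ≠ q ∧ q ≠ r ∧ p ≠ r ∧ 1 ≤ k ∧
      k ≤ 4 ∧ (∀ i, i ∉ I p → k = 1 ∨ ((i : ℕ) < 4 ∧ k ∣ (i : ℕ) + 1)) ∧
      (∀ i, i ∉ I q → k = 1 ∨ ((i : ℕ) < 4 ∧ k ∣ (i : ℕ) + 1)) ∧
      VV v p (I p) + VV v q (I q) + VV v r (I r) +
        max 0 (2 * X / k - ((WW v w p (I p) + s p) + (WW v w q (I q) + s q)) / k -
          (WW v w r (I r) + s r)) ≤ e * X + C * η) ∨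
    (∃ (p q r : Fin 3) (F : Finset (Fin 5)), p ≠ q ∧ q ≠ r ∧ p ≠ r ∧
      VV v r F + 1 / 2 * (VV v p univ + max 0 (3 / 2 * VV v p univ - (WW v w r F + s r))) +
        1 / 2 * (VV v q univ + max 0 (3 / 2 * VV v q univ - (WW v w r F + s r))) ≤
        e * X + C * η) ∨
    (∃ (p q r : Fin 3) (i : Fin 5), p ≠ q ∧ q ≠ r ∧ p ≠ r ∧ 1 ≤ (i : ℕ) ∧ (i : ℕ) < 4 ∧
      VV v p {i}ᶜ + VV v q univ ≤ e * X + C * η ∧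
      (VV v p {i}ᶜ + VV v q univ) / 2 + VV v r univ ≤ e * X + C * η) ∨
    (∃ (p q r : Fin 3) (F : Finset (Fin 5)) (i j : Fin 5) (θ : ℝ), p ≠ q ∧ q ≠ r ∧ p ≠ r ∧
      (i : ℕ) < 4 ∧ (j : ℕ) < 4 ∧ i ≠ j ∧
      Th ((i : ℕ) + 1) ((j : ℕ) + 1) (v p i) (v p j)
        (WW v w p {i, j}ᶜ - (WW v w r F + s r)) θ ∧
      VV v r F + VV v q univ ≤ e * X + C * η ∧
      VV v r F + 1 / 2 * (2 * VV v p {i, j}ᶜ + (v p i + v p j) +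
          max θ (v p i + v p j - (WW v w r F + s r))) +
        1 / 2 * (VV v q univ + max 0 (3 / 2 * VV v q univ - (WW v w r F + s r))) ≤
        e * X + C * η)

/-- FIN2: the final count -/
def S_FIN2 (K : Type) [Field K] [NumberField K] : Prop :=
  ∀ e : ℝ, 0 ≤ e → StmtUNI K →
    (∀ (S : Finset (Pr K)) (w : Pr K → K) (C : ℝ), Unif S w C → StmtEST S) →
    (∀ (S : Finset (Pr K)) (w : Pr K → K) (C : ℝ), Unif S w C → S_EST2 S) →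
    (∀ (S : Finset (Pr K)) (w : Pr K → K) (C : ℝ), Unif S w C → StmtDB S) →
    (∀ S : Finset (Pr K), StmtMB S) → S_CERT2 e → StmtFIN K e

end Pool.Agent.Helper45.AB
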