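import Pool.Graph.R_seed8.W223.AK.Check
import Pool.Agent.Helper45.AB.Defs

/-!
# A checker for the numerical certificate, with the off-diagonal bound
-/

set_option autoImplicit false
set_option linter.unusedVariables false

namespace Pool.Agent.Helper45.AB

open Finset Pool.Agent.W223.AK

/-- form of the first branch of the bound `N` (the sides are `r`, `q` and a third one `p`) -/
def cN0 (ed r q F l c : ℕ) : ℤ :=
  (if l = r then 12 * (ed : ℤ) * bt F c else 0) + (if l = q then 12 * (ed : ℤ) else 0)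

def fN0 (en ed cb r q F : ℕ) : List ℤ :=
  frm (-(12 * en)) (cN0 ed r q F 0) (cN0 ed r q F 1) (cN0 ed r q F 2) 0 0 0 0 0 0
    (-(12 * ed * cb))

/-- scale of the first gain; `L` is the larger exponent `j + 1`; `x = 1` for the branch
`v i + v j - Λ`, else the branch `θ`, for `var = 0` equal to `0`, for `var = 1` equal to
`((i + 1 + L) v i + W - Λ) / L`, for `var = 2` equal to `((i + 1 + L) v j + W - Λ) / L` -/
def gx (var x L : ℕ) : ℤ := if x = 1 then 12 else if var = 0 then 0 else ((12 / L : ℕ) : ℤ)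

/-- scale of the part `W` of `θ` -/
def gw (var x L : ℕ) : ℤ := if x = 1 then 0 else if var = 0 then 0 else ((12 / L : ℕ) : ℤ)

/-- coefficient of the class `c` of the side `l` -/
def cN (var r p q F i j x y l c : ℕ) : ℤ :=
  if l = r then (24 - (gx var x (j + 1) + 12 * y) * (if c < 4 then (c : ℤ) + 1 else 0)) * bt F c
  else if l = q then 12 + 18 * y
  else if c = i then 12 + (if x = 1 then 12 else 0) +
    (if x = 0 ∧ var = 1 then ((12 / (j + 1) : ℕ) : ℤ) * (i + 1 + (j + 1)) else 0)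
  else if c = j then 12 + (if x = 1 then 12 else 0) +
    (if x = 0 ∧ var = 2 then ((12 / (j + 1) : ℕ) : ℤ) * (i + 1 + (j + 1)) else 0)
  else 24 + gw var x (j + 1) * (if c < 4 then (c : ℤ) + 1 else 0)

/-- coefficient of the weight of the last class of the side `l` -/
def wN (var r p q F j x y l : ℕ) : ℤ :=
  if l = r then -((gx var x (j + 1) + 12 * y) * bt F 4)
  else if l = q then 0 else gw var x (j + 1)

/-- coefficient of `s` -/
def sN (var r j x y l : ℕ) : ℤ := if l = r then -(gx var x (j + 1) + 12 * y) else 0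

/-- form of the other branches of the bound `N` -/
def fN (en ed cb var r p q F i j x y : ℕ) : List ℤ :=
  frm (-(24 * en)) (fun c => ed * cN var r p q F i j x y 0 c)
    (fun c => ed * cN var r p q F i j x y 1 c) (fun c => ed * cN var r p q F i j x y 2 c)
    (ed * wN var r p q F j x y 0) (ed * wN var r p q F j x y 1) (ed * wN var r p q F j x y 2)
    (ed * sN var r j x y 0) (ed * sN var r j x y 1) (ed * sN var r j x y 2)
    (ed * (gx var x (j + 1) + 12 * y) - 24 * ed * cb)

/-- case trees -/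
inductive CT2
  | leaf (ms : List ℕ)
  | nM (k r m0 m1 m2 : ℕ) (t1 t2 : CT2)
  | nS (r F : ℕ) (t1 t2 t3 t4 : CT2)
  | nD (p q r i : ℕ) (t1 t2 : CT2)
  | nN (var r p q F i j : ℕ) (t0 t1 t2 t3 t4 : CT2)

/-- the checker -/
def chk2 (en ed cb : ℕ) : CT2 → List (List ℤ × Bool) → Bool
  | .leaf ms, hs => leafOK ms hs
  | .nM k r m0 m1 m2 t1 t2, hs =>
    (decide (1 ≤ k ∧ k ≤ 4 ∧ r < 3)) && ((r == 0) || vmask k m0) && ((r == 1) || vmask k m1) &&
      ((r == 2) || vmask k m2) &&
      chk2 en ed cb t1 ((fM1 en ed cb m0 m1 m2, true) :: hs) &&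
      chk2 en ed cb t2 ((fM2 en ed cb k r m0 m1 m2, true) :: hs)
  | .nS r F t1 t2 t3 t4, hs =>
    (decide (r < 3)) && chk2 en ed cb t1 ((fS en ed cb r F 0 0, true) :: hs) &&
      chk2 en ed cb t2 ((fS en ed cb r F 1 0, true) :: hs) &&
      chk2 en ed cb t3 ((fS en ed cb r F 0 1, true) :: hs) &&
      chk2 en ed cb t4 ((fS en ed cb r F 1 1, true) :: hs)
  | .nD p q r i t1 t2, hs =>
    (decide (p < 3 ∧ q < 3 ∧ r < 3 ∧ p ≠ q ∧ q ≠ r ∧ p ≠ r ∧ 1 ≤ i ∧ i < 4)) &&
      chk2 en ed cb t1 ((fD1 en ed cb p q i, true) :: hs) &&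
      chk2 en ed cb t2 ((fD2 en ed cb p q r i, true) :: hs)
  | .nN var r p q F i j t0 t1 t2 t3 t4, hs =>
    (decide (var < 3 ∧ r < 3 ∧ p < 3 ∧ q < 3 ∧ p ≠ q ∧ q ≠ r ∧ p ≠ r ∧ i < j ∧ j < 4)) &&
      chk2 en ed cb t0 ((fN0 en ed cb r q F, true) :: hs) &&
      chk2 en ed cb t1 ((fN en ed cb var r p q F i j 0 0, true) :: hs) &&
      chk2 en ed cb t2 ((fN en ed cb var r p q F i j 1 0, true) :: hs) &&
      chk2 en ed cb t3 ((fN en ed cb var r p q F i j 0 1, true) :: hs) &&
      chk2 en ed cb t4 ((fN en ed cb var r p q F i j 1 1, true) :: hs)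

/-- soundness of the checker -/
def S_CHK : Prop := ∀ (en ed cb : ℕ), 1 ≤ ed → ∀ t : CT2, chk2 en ed cb t bas = true →
  S_CERT2 ((en : ℝ) / ed)

end Pool.Agent.Helper45.AB
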