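import Pool.Graph.R_seed8.W223.AK.CertOf
import Pool.Agent.Helper45.AB.Check2

/-!
# Soundness of the checker with the off-diagonal bound
-/

set_option autoImplicit false
set_option linter.unusedVariables false
set_option linter.unusedSimpArgs false

namespace Pool.Agent.Helper45.AB

open Finset Pool.Agent.W223.AK

/-- all the bounds fail -/
structure Fails2 (t X : ℝ) (v : Fin 3 → Fin 5 → ℝ) (w s : Fin 3 → ℝ) : Prop where
  base : Fails t X v w s
  N : ∀ (p q r : Fin 3) (F : Finset (Fin 5)) (i j : Fin 5) (θ : ℝ), p ≠ q → q ≠ r → p ≠ r →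
      (i : ℕ) < 4 → (j : ℕ) < 4 → i ≠ j →
      Th ((i : ℕ) + 1) ((j : ℕ) + 1) (v p i) (v p j)
        (WW v w p {i, j}ᶜ - (WW v w r F + s r)) θ →
      t < VV v r F + VV v q univ ∨
      t < VV v r F + 1 / 2 * (2 * VV v p {i, j}ᶜ + (v p i + v p j) +
          max θ (v p i + v p j - (WW v w r F + s r))) +
        1 / 2 * (VV v q univ + max 0 (3 / 2 * VV v q univ - (WW v w r F + s r)))

theorem fails2_perm {t X : ℝ} {v : Fin 3 → Fin 5 → ℝ} {w s : Fin 3 → ℝ}
    (hF : Fails2 t X v w s) (π : Equiv.Perm (Fin 3)) :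
    Fails2 t X (fun l => v (π l)) (fun l => w (π l)) (fun l => s (π l)) := by
  have hinj : ∀ {a b : Fin 3}, a ≠ b → π a ≠ π b := fun h h' => h (π.injective h')
  refine ⟨fails_perm hF.base π, ?_⟩
  intro p q r F i j θ hpq hqr hpr hi4 hj4 hij hTh
  exact hF.N (π p) (π q) (π r) F i j θ (hinj hpq) (hinj hqr) (hinj hpr) hi4 hj4 hij hTh

/-- the loss `θ` -/
noncomputable def thN (var : ℕ) (k l a b ζ : ℝ) : ℝ :=
  if var = 0 then 0 else if var = 1 then ((k + l) * a + ζ) / l else ((k + l) * b + ζ) / l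

theorem Th_thN (var : ℕ) {i j : ℕ} (hi : 0 ≤ i) (hij : i + 1 ≤ j + 1) (a b ζ : ℝ) :
    Th (i + 1) (j + 1) a b ζ (thN var (i + 1) (j + 1) a b ζ) := by
  unfold Th thN
  have hj : (0 : ℝ) < (j : ℝ) + 1 := by positivity
  have hi' : (0 : ℝ) < (i : ℝ) + 1 := by positivity
  have hij' : (i : ℝ) + 1 ≤ (j : ℝ) + 1 := by exact_mod_cast hij
  push_cast
  by_cases h0 : var = 0
  · left; rw [if_pos h0]
  · rw [if_neg h0]
    by_cases h1 : var = 1
    · rw [if_pos h1]
      set θ : ℝ := (((i : ℝ) + 1 + (j + 1)) * a + ζ) / (j + 1) with hθ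
      have e : ((i : ℝ) + 1 + (j + 1)) * a + ζ = (j + 1) * θ := by rw [hθ]; field_simp
      rcases le_total 0 θ with h | h
      · left; exact h
      · right; left
        refine ⟨e.le, ?_⟩
        rw [e]
        exact mul_le_mul_of_nonpos_right hij' h
    · rw [if_neg h1]
      set θ : ℝ := (((i : ℝ) + 1 + (j + 1)) * b + ζ) / (j + 1) with hθ
      have e : ((i : ℝ) + 1 + (j + 1)) * b + ζ = (j + 1) * θ := by rw [hθ]; field_simp
      rcases le_total 0 θ with h | h
      · left; exact h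
      · right; right
        refine ⟨e.le, ?_⟩
        rw [e]
        exact mul_le_mul_of_nonpos_right hij' h

theorem sum3 (f : Fin 3 → ℝ) {p q r : Fin 3} (hpq : p ≠ q) (hqr : q ≠ r) (hpr : p ≠ r) :
    f 0 + f 1 + f 2 = f p + f q + f r := by
  fin_cases p <;> fin_cases q <;> fin_cases r <;> simp_all <;> ring

theorem sum_two (v B : Fin 5 → ℝ) (A1 A2 : ℝ) {i j : Fin 5} (hij : i ≠ j) :
    ∑ c : Fin 5, (if c = i then A1 else if c = j then A2 else B c) * v c =
      ∑ c ∈ ({i, j}ᶜ : Finset (Fin 5)), B c * v c + A1 * v i + A2 * v j := by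
  rw [← Finset.sum_add_sum_compl ({i, j} : Finset (Fin 5)), Finset.sum_pair hij]
  have h1 : ∑ c ∈ ({i, j}ᶜ : Finset (Fin 5)),
      (if c = i then A1 else if c = j then A2 else B c) * v c =
      ∑ c ∈ ({i, j}ᶜ : Finset (Fin 5)), B c * v c := by
    refine Finset.sum_congr rfl fun c hc => ?_
    rw [Finset.mem_compl, Finset.mem_insert, Finset.mem_singleton, not_or] at hc
    rw [if_neg hc.1, if_neg hc.2]
  rw [h1, if_pos rfl, if_neg hij.symm, if_pos rfl]
  ring

theorem WW_compl (v : Fin 3 → Fin 5 → ℝ) (w : Fin 3 → ℝ) (l : Fin 3) {i j : Fin 5}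
    (hi : (i : ℕ) < 4) (hj : (j : ℕ) < 4) :
    WW v w l {i, j}ᶜ = ∑ c ∈ ({i, j}ᶜ : Finset (Fin 5)),
      (if (c : ℕ) < 4 then ((c : ℕ) + 1 : ℝ) else 0) * v l c + w l := by
  unfold WW
  have h4 : (4 : Fin 5) ∈ ({i, j}ᶜ : Finset (Fin 5)) := by
    rw [Finset.mem_compl, Finset.mem_insert, Finset.mem_singleton, not_or]
    constructor
    · rintro rfl; simp at hi
    · rintro rfl; simp at hj
  have h1 : w l = ∑ c ∈ ({i, j}ᶜ : Finset (Fin 5)), if (c : ℕ) < 4 then 0 else w l := by
    rw [Finset.sum_eq_single_of_mem 4 h4]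
    · simp
    · intro c _ hc
      have : (c : ℕ) < 4 := by
        have h5 := c.2
        have h6 : (c : ℕ) ≠ 4 := fun h => hc (Fin.ext h)
        omega
      rw [if_pos this]
  conv_rhs => rw [h1]
  rw [← Finset.sum_add_distrib]
  refine Finset.sum_congr rfl fun c _ => ?_
  split_ifs <;> ring

section

variable {en ed cb : ℕ} (hed : 1 ≤ ed) (X η : ℝ) (v : Fin 3 → Fin 5 → ℝ) (w s : Fin 3 → ℝ)

include hed in
theorem ev_fN0 (q r : Fin 3) (F : ℕ) : ev (fN0 en ed cb r q F) (zL X η v w s) =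
    12 * ed * (VV v r (msk F) + VV v q univ - tg en ed cb X η) := by
  have ht := tg_eq (en := en) (cb := cb) hed X η
  have key : ∀ l : Fin 3, ∑ c : Fin 5, ((cN0 ed r q F l c : ℤ) : ℝ) * v l c =
      (if l = r then 12 * ed * VV v r (msk F) else 0) +
        (if l = q then 12 * ed * VV v q univ else 0) := by
    intro l
    unfold cN0
    push_cast
    have e : ∀ c : Fin 5, ((if (l : ℕ) = r then 12 * (ed : ℝ) * (bt F c : ℝ) else 0) +
        (if (l : ℕ) = q then 12 * (ed : ℝ) else 0)) * v l c =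
        (if l = r then 12 * ed * ((bt F c : ℝ) * v r c) else 0) +
        (if l = q then 12 * ed * v q c else 0) := by
      intro c
      by_cases h1 : l = r
      · subst h1
        by_cases h2 : l = q
        · subst h2
          simp; ring
        · have h2' : ¬ (l : ℕ) = q := fun h => h2 (Fin.ext h)
          simp [h2, h2']; ring
      · have h1' : ¬ (l : ℕ) = r := fun h => h1 (Fin.ext h)
        by_cases h2 : l = q
        · subst h2
          simp [h1, h1']
        · have h2' : ¬ (l : ℕ) = q := fun h => h2 (Fin.ext h)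
          simp [h1, h1', h2, h2']
    simp_rw [e]
    rw [Finset.sum_add_distrib]
    congr 1
    · split_ifs
      · rw [VV_msk, Finset.mul_sum]
      · simp
    · split_ifs
      · rw [VV, Finset.mul_sum]
      · simp
  have k0 := key 0
  have k1 := key 1
  have k2 := key 2
  have e0 : ((0 : Fin 3) : ℕ) = 0 := rfl
  have e1 : ((1 : Fin 3) : ℕ) = 1 := rfl
  have e2 : ((2 : Fin 3) : ℕ) = 2 := rfl
  rw [e0] at k0
  rw [e1] at k1
  rw [e2] at k2
  unfold fN0
  rw [ev_frm, k0, k1, k2]
  have er : (if (0 : Fin 3) = r then 12 * (ed : ℝ) * VV v r (msk F) else 0) +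
      (if (1 : Fin 3) = r then 12 * (ed : ℝ) * VV v r (msk F) else 0) +
      (if (2 : Fin 3) = r then 12 * (ed : ℝ) * VV v r (msk F) else 0) =
      12 * ed * VV v r (msk F) := by
    fin_cases r <;> simp
  have eq : (if (0 : Fin 3) = q then 12 * (ed : ℝ) * VV v q univ else 0) +
      (if (1 : Fin 3) = q then 12 * (ed : ℝ) * VV v q univ else 0) +
      (if (2 : Fin 3) = q then 12 * (ed : ℝ) * VV v q univ else 0) =
      12 * ed * VV v q univ := by
    fin_cases q <;> simp
  push_cast
  linear_combination ht + er + eq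

include hed in
theorem ev_fN {var : ℕ} (hvar : var < 3) (p q r : Fin 3) (hpq : p ≠ q) (hqr : q ≠ r) (hpr : p ≠ r)
    (F : ℕ) (i j : Fin 5) (hij : (i : ℕ) < j) (hj4 : (j : ℕ) < 4) (x y : ℕ) (hx : x = 0 ∨ x = 1)
    (hy : y = 0 ∨ y = 1) :
    ev (fN en ed cb var r p q F i j x y) (zL X η v w s) =
        12 * ed * ((VV v r (msk F) + 1 / 2 * (2 * VV v p {i, j}ᶜ + (v p i + v p j) +
          (if x = 1 then v p i + v p j - (WW v w r (msk F) + s r) else
            thN var ((i : ℕ) + 1) ((j : ℕ) + 1) (v p i) (v p j)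
              (WW v w p {i, j}ᶜ - (WW v w r (msk F) + s r)))) +
          1 / 2 * (VV v q univ + (if y = 1 then 3 / 2 * VV v q univ -
            (WW v w r (msk F) + s r) else 0)) - tg en ed cb X η) +
          (VV v r (msk F) + 1 / 2 * (2 * VV v p {i, j}ᶜ + (v p i + v p j) +
          (if x = 1 then v p i + v p j - (WW v w r (msk F) + s r) else
            thN var ((i : ℕ) + 1) ((j : ℕ) + 1) (v p i) (v p j)
              (WW v w p {i, j}ᶜ - (WW v w r (msk F) + s r)))) +
          1 / 2 * (VV v q univ + (if y = 1 then 3 / 2 * VV v q univ -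
            (WW v w r (msk F) + s r) else 0)) - tg en ed cb X η)) := by
  have ht := tg_eq (en := en) (cb := cb) hed X η
  have hij' : i ≠ j := fun h => (Nat.ne_of_lt hij) (congrArg Fin.val h)
  set g : ℤ := gx var x (j + 1) + 12 * y with hg
  set A1 : ℤ := 12 + (if x = 1 then 12 else 0) +
    (if x = 0 ∧ var = 1 then ((12 / (j + 1) : ℕ) : ℤ) * (i + 1 + (j + 1)) else 0) with hA1
  set A2 : ℤ := 12 + (if x = 1 then 12 else 0) +
    (if x = 0 ∧ var = 2 then ((12 / (j + 1) : ℕ) : ℤ) * (i + 1 + (j + 1)) else 0) with hA2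
  set f : Fin 3 → ℝ := fun l => (∑ c : Fin 5, ((ed * cN var r p q F i j x y l c : ℤ) : ℝ) * v l c) +
    ((ed * wN var r p q F j x y l : ℤ) : ℝ) * w l + ((ed * sN var r j x y l : ℤ) : ℝ) * (s l + η)
    with hf
  have hev : ev (fN en ed cb var r p q F i j x y) (zL X η v w s) =
      -(24 * en) * X + (f 0 + f 1 + f 2) + (ed * g - 24 * ed * cb) * η := by
    unfold fN
    rw [ev_frm]
    simp only [hf]
    have e0 : ((0 : Fin 3) : ℕ) = 0 := rfl
    have e1 : ((1 : Fin 3) : ℕ) = 1 := rfl
    have e2 : ((2 : Fin 3) : ℕ) = 2 := rfl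
    rw [e0, e1, e2, ← hg]
    push_cast
    ring
  have hr : f r = ed * (24 * VV v r (msk F) - g * (WW v w r (msk F) + s r) - g * η) := by
    have e1 : ∀ c : Fin 5, cN var r p q F i j x y r c = cf 24 g F c := by
      intro c
      unfold cN cf
      rw [if_pos rfl, ← hg]
      split_ifs
      · rfl
      · ring
    have e2 : wN var r p q F j x y r = -(g * bt F 4) := by
      unfold wN
      rw [if_pos rfl]
    have e3 : sN var r j x y r = -g := by
      unfold sN
      rw [if_pos rfl]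
    simp only [hf, e1, e2, e3]
    have e4 : ∑ c : Fin 5, ((ed * cf 24 g F c : ℤ) : ℝ) * v r c =
        ed * ∑ c : Fin 5, (cf 24 g F c : ℝ) * v r c := by
      rw [Finset.mul_sum]
      refine Finset.sum_congr rfl fun c _ => ?_
      push_cast
      ring
    rw [e4, sum_cf 24 g F v w r]
    push_cast
    ring
  have hqv : f q = ed * ((12 + 18 * y) * VV v q univ) := by
    have n1 : ¬ (q : ℕ) = r := fun h => hqr (Fin.ext h)
    have e1 : ∀ c : Fin 5, cN var r p q F i j x y q c = 12 + 18 * y := by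
      intro c
      unfold cN
      rw [if_neg n1, if_pos rfl]
    have e2 : wN var r p q F j x y q = 0 := by
      unfold wN
      rw [if_neg n1, if_pos rfl]
    have e3 : sN var r j x y q = 0 := by
      unfold sN
      rw [if_neg n1]
    simp only [hf, e1, e2, e3]
    rw [VV, ← Finset.mul_sum]
    push_cast
    ring
  have hp : f p = ed * (24 * VV v p {i, j}ᶜ + A1 * v p i + A2 * v p j +
      gw var x (j + 1) * WW v w p {i, j}ᶜ) := by
    have n1 : ¬ (p : ℕ) = r := fun h => hpr (Fin.ext h)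
    have n2 : ¬ (p : ℕ) = q := fun h => hpq (Fin.ext h)
    have e1 : ∀ c : Fin 5, ((ed * cN var r p q F i j x y p c : ℤ) : ℝ) * v p c = ed *
        ((if c = i then (A1 : ℝ) else if c = j then (A2 : ℝ) else
          (24 + gw var x (j + 1) * (if (c : ℕ) < 4 then ((c : ℕ) + 1 : ℝ) else 0))) * v p c) := by
      intro c
      unfold cN
      rw [if_neg n1, if_neg n2]
      by_cases h1 : c = i
      · subst h1
        rw [if_pos rfl, if_pos rfl, ← hA1]
        push_cast
        ring
      · have h1' : ¬ (c : ℕ) = i := fun h => h1 (Fin.ext h)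
        rw [if_neg h1, if_neg h1']
        by_cases h2 : c = j
        · subst h2
          rw [if_pos rfl, if_pos rfl, ← hA2]
          push_cast
          ring
        · have h2' : ¬ (c : ℕ) = j := fun h => h2 (Fin.ext h)
          rw [if_neg h2, if_neg h2']
          split_ifs <;> push_cast <;> ring
    have e2 : wN var r p q F j x y p = gw var x (j + 1) := by
      unfold wN
      rw [if_neg n1, if_neg n2]
    have e3 : sN var r j x y p = 0 := by
      unfold sN
      rw [if_neg n1]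
    simp only [hf, e2, e3]
    rw [Finset.sum_congr rfl fun c _ => e1 c, ← Finset.mul_sum, sum_two (v p) _ _ _ hij',
      WW_compl v w p (by omega) hj4]
    have e4 : ∑ c ∈ ({i, j}ᶜ : Finset (Fin 5)),
        (24 + (gw var x (j + 1) : ℝ) * (if (c : ℕ) < 4 then ((c : ℕ) + 1 : ℝ) else 0)) * v p c =
        24 * VV v p {i, j}ᶜ + gw var x (j + 1) * ∑ c ∈ ({i, j}ᶜ : Finset (Fin 5)),
          (if (c : ℕ) < 4 then ((c : ℕ) + 1 : ℝ) else 0) * v p c := by
      rw [VV, Finset.mul_sum, Finset.mul_sum, ← Finset.sum_add_distrib]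
      refine Finset.sum_congr rfl fun c _ => ?_
      ring
    rw [e4]
    push_cast
    ring
  rw [hev, sum3 f hpq hqr hpr, hp, hqv, hr]
  -- the coefficients
  have hh : (((12 / ((j : ℕ) + 1) : ℕ) : ℤ) : ℝ) = 12 / ((j : ℝ) + 1) := by
    have h1 : ((j : ℕ) : ℝ) = (j : ℝ) := rfl
    have hj1 : 1 ≤ (j : ℕ) := by omega
    generalize (j : ℕ) = J at *
    interval_cases J <;> norm_num
  have hJ : (((j : ℕ) : ℝ) + 1) ≠ 0 := by positivity
  set h : ℝ := 12 / (((j : ℕ) : ℝ) + 1) with hhdef
  have ht1 : thN 1 (((i : ℕ) : ℝ) + 1) (((j : ℕ) : ℝ) + 1) (v p i) (v p j)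
      (WW v w p {i, j}ᶜ - (WW v w r (msk F) + s r)) = h / 12 * ((((i : ℕ) : ℝ) + 1 +
        (((j : ℕ) : ℝ) + 1)) * v p i + (WW v w p {i, j}ᶜ - (WW v w r (msk F) + s r))) := by
    unfold thN
    rw [if_neg one_ne_zero, if_pos rfl, hhdef]
    field_simp
  have ht2 : thN 2 (((i : ℕ) : ℝ) + 1) (((j : ℕ) : ℝ) + 1) (v p i) (v p j)
      (WW v w p {i, j}ᶜ - (WW v w r (msk F) + s r)) = h / 12 * ((((i : ℕ) : ℝ) + 1 +
        (((j : ℕ) : ℝ) + 1)) * v p j + (WW v w p {i, j}ᶜ - (WW v w r (msk F) + s r))) := by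
    unfold thN
    rw [if_neg (by norm_num), if_neg (by norm_num), hhdef]
    field_simp
  rcases hx with rfl | rfl
  · -- `x = 0`
    interval_cases var
    · have g1 : (g : ℝ) = 12 * y := by rw [hg]; simp [gx]
      have g2 : (gw 0 0 ((j : ℕ) + 1) : ℝ) = 0 := by simp [gw]
      have a1 : (A1 : ℝ) = 12 := by rw [hA1]; simp
      have a2 : (A2 : ℝ) = 12 := by rw [hA2]; simp
      have t0 : thN 0 (((i : ℕ) : ℝ) + 1) (((j : ℕ) : ℝ) + 1) (v p i) (v p j)
        (WW v w p {i, j}ᶜ - (WW v w r (msk F) + s r)) = 0 := by unfold thN; rw [if_pos rfl]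
      rw [g1, g2, a1, a2, if_neg zero_ne_one, t0]
      rcases hy with rfl | rfl
      · rw [if_neg zero_ne_one]
        push_cast
        linear_combination 2 * ht
      · rw [if_pos rfl]
        push_cast
        linear_combination 2 * ht
    · have g1 : (g : ℝ) = h + 12 * y := by rw [hg, ← hh]; simp [gx]
      have g2 : (gw 1 0 ((j : ℕ) + 1) : ℝ) = h := by rw [← hh]; simp [gw]
      have a1 : (A1 : ℝ) = 12 + h * (((i : ℕ) : ℝ) + 1 + (((j : ℕ) : ℝ) + 1)) := by
        rw [hA1, ← hh]; simp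
      have a2 : (A2 : ℝ) = 12 := by rw [hA2]; simp
      rw [g1, g2, a1, a2, if_neg zero_ne_one, ht1]
      rcases hy with rfl | rfl
      · rw [if_neg zero_ne_one]
        push_cast
        linear_combination 2 * ht
      · rw [if_pos rfl]
        push_cast
        linear_combination 2 * ht
    · have g1 : (g : ℝ) = h + 12 * y := by rw [hg, ← hh]; simp [gx]
      have g2 : (gw 2 0 ((j : ℕ) + 1) : ℝ) = h := by rw [← hh]; simp [gw]
      have a1 : (A1 : ℝ) = 12 := by rw [hA1]; simp
      have a2 : (A2 : ℝ) = 12 + h * (((i : ℕ) : ℝ) + 1 + (((j : ℕ) : ℝ) + 1)) := by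
        rw [hA2, ← hh]; simp
      rw [g1, g2, a1, a2, if_neg zero_ne_one, ht2]
      rcases hy with rfl | rfl
      · rw [if_neg zero_ne_one]
        push_cast
        linear_combination 2 * ht
      · rw [if_pos rfl]
        push_cast
        linear_combination 2 * ht
  · -- `x = 1`
    have g1 : (g : ℝ) = 12 + 12 * y := by rw [hg]; simp [gx]
    have g2 : (gw var 1 ((j : ℕ) + 1) : ℝ) = 0 := by simp [gw]
    have a1 : (A1 : ℝ) = 24 := by rw [hA1]; norm_num
    have a2 : (A2 : ℝ) = 24 := by rw [hA2]; norm_num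
    rw [g1, g2, a1, a2, if_pos rfl]
    rcases hy with rfl | rfl
    · rw [if_neg zero_ne_one]
      push_cast
      linear_combination 2 * ht
    · rw [if_pos rfl]
      push_cast
      linear_combination 2 * ht

end

theorem chk2_sound {en ed cb : ℕ} (hed : 1 ≤ ed) (X η : ℝ) (v : Fin 3 → Fin 5 → ℝ)
    (w s : Fin 3 → ℝ) (hz : ∀ x ∈ zL X η v w s, 0 ≤ x)
    (hF : Fails2 (tg en ed cb X η) X v w s) : ∀ (t : CT2) (hs : List (List ℤ × Bool)),
    chk2 en ed cb t hs = true → (∀ h ∈ hs, Sat (zL X η v w s) h) → False := by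
  have hed0 : (0 : ℝ) < 12 * ed := by
    have : (0 : ℝ) < ed := by exact_mod_cast (by omega : 0 < ed)
    positivity
  have hpos : ∀ {f : List ℤ} {u : ℝ}, ev f (zL X η v w s) = 12 * ed * (u - tg en ed cb X η) →
      tg en ed cb X η < u → Sat (zL X η v w s) (f, true) := by
    intro f u h1 h2
    refine sat_of_pos ?_
    rw [h1]
    exact mul_pos hed0 (sub_pos.mpr h2)
  intro t
  induction t with
  | leaf ms =>
    intro hs h H
    exact leaf_false hz H h
  | nM k r m0 m1 m2 t1 t2 ih1 ih2 =>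
    intro hs h H
    unfold chk2 at h
    simp only [Bool.and_eq_true, decide_eq_true_eq, Bool.or_eq_true, beq_iff_eq] at h
    obtain ⟨⟨⟨⟨⟨⟨hk1, hk4, hr⟩, v0⟩, v1⟩, v2⟩, c1⟩, c2⟩ := h
    have key : tg en ed cb X η < VV v 0 (msk m0) + VV v 1 (msk m1) + VV v 2 (msk m2) ∨
        tg en ed cb X η < VV v 0 (msk m0) + VV v 1 (msk m1) + VV v 2 (msk m2) + (2 * X / k -
      (WW v w 0 (msk m0) + s 0) / (if 0 = r then 1 else (k : ℝ)) -
      (WW v w 1 (msk m1) + s 1) / (if 1 = r then 1 else (k : ℝ)) -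
      (WW v w 2 (msk m2) + s 2) / (if 2 = r then 1 else (k : ℝ))) := by
      apply lt_add_max
      interval_cases r
      · have h1 := hF.base.M 1 2 0 k ![msk m0, msk m1, msk m2] (by decide) (by decide) (by decide)
          hk1 hk4 (fun i hi => vmask_spec hk1 (v1.resolve_left (by norm_num)) i hi)
          (fun i hi => vmask_spec hk1 (v2.resolve_left (by norm_num)) i hi)
        refine h1.trans_le (le_of_eq ?_)
        simp only [Matrix.cons_val_zero, Matrix.cons_val_one, Matrix.cons_val, if_true,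
          zero_ne_one, one_ne_zero, if_false]
        norm_num
        ring_nf
      · have h1 := hF.base.M 0 2 1 k ![msk m0, msk m1, msk m2] (by decide) (by decide) (by decide)
          hk1 hk4 (fun i hi => vmask_spec hk1 (v0.resolve_left (by norm_num)) i hi)
          (fun i hi => vmask_spec hk1 (v2.resolve_left (by norm_num)) i hi)
        refine h1.trans_le (le_of_eq ?_)
        simp only [Matrix.cons_val_zero, Matrix.cons_val_one, Matrix.cons_val, if_true,
          zero_ne_one, one_ne_zero, if_false]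
        norm_num
        ring_nf
      · have h1 := hF.base.M 0 1 2 k ![msk m0, msk m1, msk m2] (by decide) (by decide) (by decide)
          hk1 hk4 (fun i hi => vmask_spec hk1 (v0.resolve_left (by norm_num)) i hi)
          (fun i hi => vmask_spec hk1 (v1.resolve_left (by norm_num)) i hi)
        refine h1.trans_le (le_of_eq ?_)
        simp only [Matrix.cons_val_zero, Matrix.cons_val_one, Matrix.cons_val, if_true,
          zero_ne_one, one_ne_zero, if_false]
        norm_num
        ring_nf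
    rcases key with h1 | h1
    · exact ih1 _ c1 (sat_cons (hpos (ev_fM1 hed X η v w s m0 m1 m2) h1) H)
    · exact ih2 _ c2 (sat_cons (hpos (ev_fM2 hed X η v w s hk1 hk4 r m0 m1 m2) h1) H)
  | nS r F t1 t2 t3 t4 ih1 ih2 ih3 ih4 =>
    intro hs h H
    unfold chk2 at h
    simp only [Bool.and_eq_true, decide_eq_true_eq] at h
    obtain ⟨⟨⟨⟨hr, c1⟩, c2⟩, c3⟩, c4⟩ := h
    have main : ∀ (a b : ℝ) (x y z : ℝ), tg en ed cb X η <
        z + 1 / 2 * (a + max 0 x) + 1 / 2 * (b + max 0 y) →
        (tg en ed cb X η < z + 1 / 2 * a + 1 / 2 * b + (0 : ℤ) * (1 / 2 * x) + (0 : ℤ) * (1 / 2 * y)) ∨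
        (tg en ed cb X η < z + 1 / 2 * a + 1 / 2 * b + (1 : ℤ) * (1 / 2 * x) + (0 : ℤ) * (1 / 2 * y)) ∨
        (tg en ed cb X η < z + 1 / 2 * a + 1 / 2 * b + (0 : ℤ) * (1 / 2 * x) + (1 : ℤ) * (1 / 2 * y)) ∨
        (tg en ed cb X η < z + 1 / 2 * a + 1 / 2 * b + (1 : ℤ) * (1 / 2 * x) +
          (1 : ℤ) * (1 / 2 * y)) := by
      intro a b x y z h
      push_cast
      rcases le_total x 0 with hx | hx <;> rcases le_total y 0 with hy | hy
      · rw [max_eq_left hx, max_eq_left hy] at h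
        left; linarith
      · rw [max_eq_left hx, max_eq_right hy] at h
        right; right; left; linarith
      · rw [max_eq_right hx, max_eq_left hy] at h
        right; left; linarith
      · rw [max_eq_right hx, max_eq_right hy] at h
        right; right; right; linarith
    interval_cases r
    · rcases main _ _ _ _ _ (hF.base.S 1 2 0 (msk F) (by decide) (by decide) (by decide)) with
        h1 | h1 | h1 | h1
      · exact ih1 _ c1 (sat_cons (hpos (ev_fS0 X η v w s hed F 0 0) h1) H)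
      · exact ih2 _ c2 (sat_cons (hpos (ev_fS0 X η v w s hed F 1 0) h1) H)
      · exact ih3 _ c3 (sat_cons (hpos (ev_fS0 X η v w s hed F 0 1) h1) H)
      · exact ih4 _ c4 (sat_cons (hpos (ev_fS0 X η v w s hed F 1 1) h1) H)
    · rcases main _ _ _ _ _ (hF.base.S 0 2 1 (msk F) (by decide) (by decide) (by decide)) with
        h1 | h1 | h1 | h1
      · exact ih1 _ c1 (sat_cons (hpos (ev_fS1 X η v w s hed F 0 0) h1) H)
      · exact ih2 _ c2 (sat_cons (hpos (ev_fS1 X η v w s hed F 1 0) h1) H)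
      · exact ih3 _ c3 (sat_cons (hpos (ev_fS1 X η v w s hed F 0 1) h1) H)
      · exact ih4 _ c4 (sat_cons (hpos (ev_fS1 X η v w s hed F 1 1) h1) H)
    · rcases main _ _ _ _ _ (hF.base.S 0 1 2 (msk F) (by decide) (by decide) (by decide)) with
        h1 | h1 | h1 | h1
      · exact ih1 _ c1 (sat_cons (hpos (ev_fS2 X η v w s hed F 0 0) h1) H)
      · exact ih2 _ c2 (sat_cons (hpos (ev_fS2 X η v w s hed F 1 0) h1) H)
      · exact ih3 _ c3 (sat_cons (hpos (ev_fS2 X η v w s hed F 0 1) h1) H)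
      · exact ih4 _ c4 (sat_cons (hpos (ev_fS2 X η v w s hed F 1 1) h1) H)
  | nD p q r i t1 t2 ih1 ih2 =>
    intro hs h H
    unfold chk2 at h
    simp only [Bool.and_eq_true, decide_eq_true_eq] at h
    obtain ⟨⟨⟨hp, hq, hr, hpq, hqr, hpr, hi1, hi4⟩, c1⟩, c2⟩ := h
    set i' : Fin 5 := ⟨i, by omega⟩ with hi'
    have h1 := hF.base.D ⟨p, hp⟩ ⟨q, hq⟩ ⟨r, hr⟩ i' (fun h => hpq (congrArg Fin.val h))
      (fun h => hqr (congrArg Fin.val h)) (fun h => hpr (congrArg Fin.val h)) hi1 hi4
    have e1 : VV v ⟨p, hp⟩ {i'}ᶜ + VV v ⟨q, hq⟩ univ =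
        dV v p q i' 0 + dV v p q i' 1 + dV v p q i' 2 := by
      unfold dV
      interval_cases p <;> interval_cases q <;> simp_all <;> ring
    have e2 : VV v ⟨r, hr⟩ univ =
        ((if 0 = r then VV v 0 univ else 0) + (if 1 = r then VV v 1 univ else 0) +
        (if 2 = r then VV v 2 univ else 0)) := by
      interval_cases r <;> simp
    rw [e1, e2] at h1
    rcases h1 with h1 | h1
    · exact ih1 _ c1 (sat_cons (hpos (ev_fD1 hed X η v w s p q i') h1) H)
    · exact ih2 _ c2 (sat_cons (hpos (ev_fD2 hed X η v w s p q r i') h1) H)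
  | nN var r p q F i j t0 t1 t2 t3 t4 ih0 ih1 ih2 ih3 ih4 =>
    intro hs h H
    unfold chk2 at h
    simp only [Bool.and_eq_true, decide_eq_true_eq] at h
    obtain ⟨⟨⟨⟨⟨⟨hvar, hr, hp, hq, hpq, hqr, hpr, hij, hj4⟩, c0⟩, c1⟩, c2⟩, c3⟩, c4⟩ := h
    set p' : Fin 3 := ⟨p, hp⟩ with hp'
    set q' : Fin 3 := ⟨q, hq⟩ with hq'
    set r' : Fin 3 := ⟨r, hr⟩ with hr'
    set i' : Fin 5 := ⟨i, by omega⟩ with hi'
    set j' : Fin 5 := ⟨j, by omega⟩ with hj'
    have hpq' : p' ≠ q' := fun h => hpq (congrArg Fin.val h)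
    have hqr' : q' ≠ r' := fun h => hqr (congrArg Fin.val h)
    have hpr' : p' ≠ r' := fun h => hpr (congrArg Fin.val h)
    have hij' : i' ≠ j' := fun h => (Nat.ne_of_lt hij) (congrArg Fin.val h)
    set ζ : ℝ := WW v w p' {i', j'}ᶜ - (WW v w r' (msk F) + s r') with hζ
    set θ : ℝ := thN var (i + 1) (j + 1) (v p' i') (v p' j') ζ with hθ
    have hTh : Th ((i' : ℕ) + 1) ((j' : ℕ) + 1) (v p' i') (v p' j') ζ θ :=
      Th_thN var (by omega) (by show i + 1 ≤ j + 1; omega) _ _ _
    have h1 := hF.N p' q' r' (msk F) i' j' θ hpq' hqr' hpr' (by show i < 4; omega) hj4 hij' hTh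
    have hval : ∀ x y : ℕ, (x = 0 ∨ x = 1) → (y = 0 ∨ y = 1) →
        ev (fN en ed cb var r p q F i j x y) (zL X η v w s) =
        12 * ed * ((VV v r' (msk F) + 1 / 2 * (2 * VV v p' {i', j'}ᶜ + (v p' i' + v p' j') +
          (if x = 1 then v p' i' + v p' j' - (WW v w r' (msk F) + s r') else θ)) +
          1 / 2 * (VV v q' univ + (if y = 1 then 3 / 2 * VV v q' univ -
            (WW v w r' (msk F) + s r') else 0)) - tg en ed cb X η) +
          (VV v r' (msk F) + 1 / 2 * (2 * VV v p' {i', j'}ᶜ + (v p' i' + v p' j') +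
          (if x = 1 then v p' i' + v p' j' - (WW v w r' (msk F) + s r') else θ)) +
          1 / 2 * (VV v q' univ + (if y = 1 then 3 / 2 * VV v q' univ -
            (WW v w r' (msk F) + s r') else 0)) - tg en ed cb X η)) := by
      intro x y hx hy
      exact ev_fN hed X η v w s hvar p' q' r' hpq' hqr' hpr' F i' j' (by show i < j; exact hij) hj4
        x y hx hy
    have hpos' : ∀ x y : ℕ, (x = 0 ∨ x = 1) → (y = 0 ∨ y = 1) → tg en ed cb X η <
        (VV v r' (msk F) + 1 / 2 * (2 * VV v p' {i', j'}ᶜ + (v p' i' + v p' j') +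
          (if x = 1 then v p' i' + v p' j' - (WW v w r' (msk F) + s r') else θ)) +
          1 / 2 * (VV v q' univ + (if y = 1 then 3 / 2 * VV v q' univ -
            (WW v w r' (msk F) + s r') else 0))) →
        Sat (zL X η v w s) (fN en ed cb var r p q F i j x y, true) := by
      intro x y hx hy h2
      refine sat_of_pos ?_
      rw [hval x y hx hy]
      exact mul_pos hed0 (by linarith)
    rcases h1 with h1 | h1
    · refine ih0 _ c0 (sat_cons (hpos (ev_fN0 hed X η v w s q' r' F) h1) H)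
    · rcases le_total (v p' i' + v p' j' - (WW v w r' (msk F) + s r')) θ with hx | hx <;>
        rcases le_total (3 / 2 * VV v q' univ - (WW v w r' (msk F) + s r')) 0 with hy | hy
      · rw [max_eq_left hx, max_eq_left hy] at h1
        exact ih1 _ c1 (sat_cons (hpos' 0 0 (Or.inl rfl) (Or.inl rfl)
          (by rw [if_neg zero_ne_one, if_neg zero_ne_one]; exact h1)) H)
      · rw [max_eq_left hx, max_eq_right hy] at h1
        exact ih3 _ c3 (sat_cons (hpos' 0 1 (Or.inl rfl) (Or.inr rfl)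
          (by rw [if_neg zero_ne_one, if_pos rfl]; exact h1)) H)
      · rw [max_eq_right hx, max_eq_left hy] at h1
        exact ih2 _ c2 (sat_cons (hpos' 1 0 (Or.inr rfl) (Or.inl rfl)
          (by rw [if_pos rfl, if_neg zero_ne_one]; exact h1)) H)
      · rw [max_eq_right hx, max_eq_right hy] at h1
        exact ih4 _ c4 (sat_cons (hpos' 1 1 (Or.inr rfl) (Or.inr rfl)
          (by rw [if_pos rfl, if_pos rfl]; exact h1)) H)

theorem chk : S_CHK := by
  intro en ed cb hed t ht
  refine ⟨cb, Nat.cast_nonneg _, ?_⟩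
  intro X η v w s hX hη hv h5 hs hW hV
  by_contra hcon
  push Not at hcon
  obtain ⟨hM, hS, hD, hN⟩ := hcon
  have hF : Fails2 (tg en ed cb X η) X v w s := by
    refine ⟨⟨?_, ?_, ?_⟩, ?_⟩
    · intro p q r k I hpq hqr hpr hk1 hk4 hp hq
      exact hM p q r k I hpq hqr hpr hk1 hk4 hp hq
    · intro p q r F hpq hqr hpr
      exact hS p q r F hpq hqr hpr
    · intro p q r i hpq hqr hpr hi1 hi4
      by_cases h : VV v p {i}ᶜ + VV v q univ ≤ (en : ℝ) / ed * X + cb * η
      · right
        exact hD p q r i hpq hqr hpr hi1 hi4 h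
      · left
        exact not_le.mp h
    · intro p q r F i j θ hpq hqr hpr hi4 hj4 hij hTh
      by_cases h : VV v r F + VV v q univ ≤ (en : ℝ) / ed * X + cb * η
      · right
        exact hN p q r F i j θ hpq hqr hpr hi4 hj4 hij hTh h
      · left
        exact not_le.mp h
  set π := Tuple.sort fun l => VV v l univ with hπ
  have hmono := Tuple.monotone_sort fun l => VV v l univ
  have h01 : VV v (π 0) univ ≤ VV v (π 1) univ := hmono (by decide : (0 : Fin 3) ≤ 1)
  have h12 : VV v (π 1) univ ≤ VV v (π 2) univ := hmono (by decide : (1 : Fin 3) ≤ 2)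
  have hsum : VV v (π 0) univ + VV v (π 1) univ + VV v (π 2) univ ≤ X + η := by
    have h1 : ∑ l : Fin 3, VV v (π l) univ = ∑ l : Fin 3, VV v l univ :=
      Equiv.sum_comp π fun l => VV v l univ
    rw [Fin.sum_univ_three, Fin.sum_univ_three] at h1
    rw [h1]
    exact hV
  refine chk2_sound hed X η (fun l => v (π l)) (fun l => w (π l)) (fun l => s (π l)) ?_
    (fails2_perm hF π) t bas ht (bas_sat (fun l => h5 (π l)) (fun l => hW (π l)) hsum h01 h12)
  have hw0 : ∀ l, 0 ≤ w l := fun l => by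
    have h1 := h5 l
    have h2 := hv l 4
    linarith
  have hs0 : ∀ l, 0 ≤ s l + η := fun l => by
    have := hs l
    linarith
  intro x hx
  unfold zL at hx
  simp only [List.mem_cons, List.not_mem_nil, or_false] at hx
  rcases hx with rfl | rfl | rfl | rfl | rfl | rfl | rfl | rfl | rfl | rfl | rfl | rfl | rfl |
    rfl | rfl | rfl | rfl | rfl | rfl | rfl | rfl | rfl | rfl <;>
    first
      | exact hX
      | exact hη
      | exact hv _ _
      | exact hw0 _
      | exact hs0 _

end Pool.Agent.Helper45.AB
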