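import Pool.Agent.Helper45.AB.Defs

/-!
# AB-CSO: combinatorial Cauchy-Schwarz inequality off the diagonal
-/

set_option autoImplicit false

namespace Pool.Agent.Helper45.AB

open Finset Pool.Agent.W223.AK

theorem cso (h : StmtCS) : S_CSO := by
  classical
  intro α β R SA SB N hN hA hB
  set R2 : Finset (α × β) := R.filter (fun p => ∃ p' ∈ R, p'.2 = p.2 ∧ p'.1 ≠ p.1) with hR2
  set R1 : Finset (α × β) := R.filter (fun p => ¬ ∃ p' ∈ R, p'.2 = p.2 ∧ p'.1 ≠ p.1) with hR1
  have hcard : R.card = R2.card + R1.card :=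
    (Finset.card_filter_add_card_filter_not (s := R) _).symm
  have h1 : R1.card ≤ N.card := by
    refine Finset.card_le_card_of_injOn Prod.snd ?_ ?_
    · intro p hp
      exact hN p (Finset.mem_filter.1 (Finset.mem_coe.1 hp)).1
    · intro p hp p' hp' hpp
      have e1 := (Finset.mem_filter.1 (Finset.mem_coe.1 hp)).2
      have e2 := (Finset.mem_filter.1 (Finset.mem_coe.1 hp')).1
      refine Prod.ext ?_ hpp
      by_contra hne
      exact e1 ⟨p', e2, hpp.symm, fun h => hne h.symm⟩
  set D : Finset (α × α) := (R2.image Prod.fst).image (fun a => (a, a)) with hD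
  have hDc : D.card ≤ SA.card := by
    refine (Finset.card_image_le).trans ?_
    have hch : ∀ a ∈ R2.image Prod.fst, ∃ a', (a, a') ∈ SA := by
      intro a ha
      obtain ⟨p, hp, rfl⟩ := Finset.mem_image.1 ha
      obtain ⟨hpR, p', hp', e1, e2⟩ := Finset.mem_filter.1 hp
      exact ⟨p'.1, hA p hpR p' hp' e1.symm (Ne.symm e2)⟩
    choose! g hg using hch
    refine Finset.card_le_card_of_injOn (fun a => (a, g a)) ?_ ?_
    · intro a ha
      exact hg a (Finset.mem_coe.1 ha)
    · intro a _ a' _ haa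
      exact congrArg Prod.fst haa
  have h2 := h α β R2 (SA ∪ D) SB (fun p hp p' hp' hpp => by
      by_cases hne : p.1 = p'.1
      · refine Finset.mem_union_right _ ?_
        rw [hD, Finset.mem_image]
        exact ⟨p.1, Finset.mem_image_of_mem _ hp, by rw [← hne]⟩
      · exact Finset.mem_union_left _
          (hA p (Finset.mem_filter.1 hp).1 p' (Finset.mem_filter.1 hp').1 hpp hne))
    (fun p hp p' hp' hpp => hB p (Finset.mem_filter.1 hp).1 p' (Finset.mem_filter.1 hp').1 hpp)
  have h3 : ((SA ∪ D).card : ℝ) ≤ 2 * SA.card := by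
    have : (SA ∪ D).card ≤ SA.card + D.card := Finset.card_union_le _ _
    have h4 : (SA ∪ D).card ≤ 2 * SA.card := by omega
    exact_mod_cast h4
  have h5 : (R2.card : ℝ) ^ 2 ≤ 2 * SA.card * SB.card :=
    h2.trans (mul_le_mul_of_nonneg_right h3 (Nat.cast_nonneg _))
  have h6 : (R2.card : ℝ) ≤ Real.sqrt (2 * SA.card * SB.card) := Real.le_sqrt_of_sq_le h5
  have h7 : (R.card : ℝ) = R2.card + R1.card := by exact_mod_cast hcard
  have h8 : (R1.card : ℝ) ≤ N.card := by exact_mod_cast h1
  linarith

end Pool.Agent.Helper45.AB
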