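import Pool.Agent.Helper45.AB.D0
import Pool.Agent.Helper45.AB.D1
import Pool.Agent.Helper45.AB.D2
import Pool.Agent.Helper45.AB.D3
import Pool.Agent.Helper45.AB.D4
import Pool.Agent.Helper45.AB.D5
import Pool.Agent.Helper45.AB.D6
import Pool.Agent.Helper45.AB.D7
import Pool.Agent.Helper45.AB.D8
import Pool.Agent.Helper45.AB.D9
import Pool.Agent.Helper45.AB.D10
import Pool.Agent.Helper45.AB.D11

/-!
# The numerical certificate (generated): exponent 8 / 15
-/

set_option autoImplicit false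

namespace Pool.Agent.Helper45.AB.Data

open Pool.Agent.Helper45.AB Pool.Agent.W223.AK

def tree : CT2 :=
  (.nM 1 0 0 8 8 t0 (.nM 3 2 31 27 5 (.nM 1 0 8 8 0 t1 (.nM 3 1 27 9 27 (.nM 1 0 16 8 0 t2 (.nM 1
  0 24 8 16 t3 (.nM 1 0 2 16 0 t4 (.nM 1 0 18 16 16 t5 (.nM 1 0 8 16 0 t6 (.nM 1 0 8 24 16 t7 (.nM
  1 0 26 24 0 t8 (.nM 1 0 16 24 24 t9 (.nM 2 2 29 23 28 (.nM 1 0 8 0 24 t10 (.nM 4 1 23 4 23 (.nM
  1 0 24 24 16 t11 (.nM 1 0 16 16 28 t12 (.nM 1 0 24 20 8 (.nM 1 0 24 16 8 t13 (.nS 2 28 (.nM 3 0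
  24 27 27 (.nM 3 0 16 27 27 (.nS 2 8 (.nM 1 0 24 8 8 t14 (.nM 4 0 20 23 23 (.nM 1 0 20 8 8 t15
  (.nM 4 0 24 23 23 (.nM 4 1 23 8 23 t16 (.nM 4 0 16 23 23 (.nM 4 1 23 26 23 (.nS 0 24 t17 t18 t19
  t20) t21) t22)) t23)) t24)) t25 t26 t27) (.nM 3 2 31 27 24 (.nM 4 1 23 16 23 t28 (.nM 4 1 23 24
  23 t29 (.nS 2 24 t30 t31 t32 t33))) t34)) t35) t36 t37 t38)) (.nM 1 0 0 28 24 t39 (.nM 1 0 24 24
  28 (.nD 2 1 0 2 (.nM 1 0 24 24 8 t40 (.nM 1 0 24 8 24 t41 (.nM 4 2 23 23 20 (.nM 1 0 24 24 24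
  t42 (.nM 1 0 24 8 4 t43 (.nM 1 0 24 16 12 t44 (.nM 4 2 23 23 24 (.nS 1 28 (.nM 1 0 16 12 8 t45
  (.nM 1 0 16 28 8 t46 (.nS 2 24 t47 t48 t49 (.nM 3 1 31 24 27 (.nS 2 4 t50 t51 t52 t53) t54))))
  t55 t56 t57) t58)))) t59))) (.nM 1 0 24 8 24 t60 (.nM 1 0 24 24 24 t61 (.nM 3 0 16 27 27 (.nM 1
  0 20 8 8 t62 (.nS 0 28 (.nM 4 0 24 23 23 (.nM 4 2 23 23 12 (.nM 4 2 23 23 26 (.nM 1 0 20 24 8
  t63 (.nM 1 0 28 24 16 t64 (.nM 1 0 20 24 24 t65 (.nM 1 0 28 24 24 t66 (.nM 4 2 23 23 4 (.nM 2 0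
  28 21 21 (.nM 2 0 20 21 21 (.nM 1 0 28 10 10 (.nM 3 1 27 8 27 (.nM 1 0 20 12 8 t67 (.nM 1 0 20
  12 24 t68 (.nM 1 0 20 28 8 t69 (.nM 4 2 23 23 24 (.nS 1 28 (.nM 1 0 20 28 24 t70 (.nS 0 24 (.nM
  2 2 23 21 8 t71 (.nS 1 8 t72 t73 t74 t75)) t76 t77 t78)) t79 t80 t81) (.nM 3 1 27 16 27 t82 (.nS
  2 4 (.nN 0 0 2 1 16 1 2 t83 t84 t85 t86 t87) t88 t89 t90)))))) t91) (.nN 0 1 2 0 24 0 2 (.nN 0 0
  1 2 16 0 3 t92 t93 t94 t95 t96) (.nM 2 1 23 24 21 (.nS 1 24 (.nM 1 0 24 24 4 (.nM 1 0 28 28 8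
  t97 (.nS 2 21 (.nM 1 0 28 28 24 t98 (.nS 2 20 (.nM 2 0 24 23 21 t99 t100) t101 t102 t103)) t104
  t105 t106)) t107) t108 t109 t110) t111) t112 t113 t114)) (.nM 1 0 24 20 24 t115 (.nM 1 0 24 28
  16 t116 (.nM 4 2 23 23 16 t117 (.nS 2 12 (.nM 2 2 21 23 8 t118 (.nM 4 2 23 23 8 t119 t120)) t121
  t122 t123))))) t124) t125))))) t126) t127) t128) t129 t130 t131)) (.nM 4 2 23 23 12 (.nM 4 2 23
  23 4 (.nM 4 2 23 23 24 (.nM 3 0 22 27 27 (.nS 1 28 (.nS 0 28 t132 t133 t134 t135) t136 t137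
  t138) t139) (.nM 2 1 23 28 29 (.nS 2 4 (.nM 2 0 8 23 21 (.nM 3 0 8 27 27 (.nS 0 12 (.nM 4 2 23
  23 2 t140 t141) t142 t143 t144) t145) t146) t147 t148 t149) t150)) t151) t152))))) (.nM 1 0 20 0
  16 t153 (.nM 1 0 20 16 16 t154 (.nM 1 0 28 0 24 t155 (.nM 1 0 21 16 24 (.nS 2 24 (.nS 0 20 (.nM
  2 0 20 23 23 (.nM 4 0 4 23 23 (.nM 4 0 16 23 23 t156 t157) t158) t159) t160 t161 t162) t163 t164
  t165) (.nM 1 0 28 16 16 t166 (.nM 1 0 30 16 4 (.nM 1 0 0 4 4 t167 (.nM 1 0 0 20 12 t168 (.nM 1 0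
  16 4 4 t169 (.nM 3 0 24 27 27 (.nM 2 1 21 16 29 (.nM 1 0 20 20 8 t170 (.nS 1 28 (.nM 3 2 27 27 8
  (.nS 0 28 t171 t172 t173 t174) (.nS 2 4 t175 t176 t177 t178)) t179 t180 t181)) (.nM 2 1 21 28 29
  (.nM 3 1 27 24 27 (.nS 2 4 t182 t183 t184 t185) t186) t187)) t188)))) (.nM 1 0 30 16 24 (.nS 0
  28 (.nS 2 24 (.nM 4 0 4 23 23 (.nM 3 1 27 4 31 (.nM 3 2 27 27 8 (.nN 0 1 2 0 24 0 3 t189 t190
  t191 t192 t193) t194) t195) t196) t197 t198 t199) t200 t201 t202) (.nM 1 0 20 8 4 (.nS 2 28 (.nM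
  3 1 27 12 27 (.nM 3 1 27 8 27 (.nN 0 2 1 0 8 0 3 t203 t204 t205 (.nM 2 2 29 21 28 (.nN 0 2 1 0
  24 0 3 t206 t207 t208 (.nM 2 0 16 23 21 t209 t210) t211) t212) (.nM 2 2 29 23 20 (.nS 2 20 (.nM
  2 2 29 23 4 (.nM 3 0 20 27 27 (.nM 2 2 29 21 20 (.nM 3 1 27 6 27 t213 t214) t215) t216) t217)
  t218 t219 t220) t221)) t222) t223) t224 t225 t226) (.nM 1 0 21 24 4 (.nS 2 28 (.nM 3 1 27 4 27
  (.nM 3 0 16 27 27 (.nM 2 0 20 21 21 (.nM 1 0 16 12 24 t227 (.nM 1 0 16 28 8 t228 (.nS 1 24 t229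
  t230 t231 t232))) t233) t234) (.nS 1 24 (.nM 3 1 27 8 27 (.nM 4 0 26 23 23 (.nM 2 2 21 23 28
  (.nM 2 2 29 23 10 t235 (.nS 2 21 (.nS 2 20 (.nN 0 2 1 0 16 0 3 t236 t237 t238 t239 t240) t241
  t242 t243) t244 t245 t246)) t247) t248) t249) t250 t251 t252)) t253 t254 t255) (.nM 1 0 20 8 20
  (.nM 3 1 27 4 27 (.nM 1 0 16 12 16 t256 (.nS 2 20 t257 t258 t259 t260)) (.nS 1 28 (.nM 3 2 27 27
  24 (.nM 1 0 16 12 24 t261 (.nM 2 2 29 23 18 (.nS 2 28 (.nM 4 0 16 23 23 (.nS 1 24 t262 t263 t264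
  t265) t266) t267 t268 t269) (.nS 1 8 (.nM 4 2 31 23 16 t270 t271) t272 t273 t274))) t275) t276
  t277 t278)) (.nM 1 0 21 24 20 (.nS 2 28 (.nM 3 1 27 4 27 (.nM 3 0 20 27 27 (.nM 3 2 27 27 4 (.nM
  3 0 16 27 27 (.nM 2 0 20 21 21 (.nM 2 0 18 21 21 (.nS 0 20 (.nS 0 18 (.nS 0 16 t279 t280 t281
  t282) t283 t284 t285) t286 t287 t288) t289) t290) t291) t292) t293) (.nM 3 1 27 24 27 (.nM 2 0
  20 23 21 (.nM 3 2 27 27 20 (.nM 2 0 20 21 21 (.nS 1 24 (.nS 2 24 t294 t295 t296 t297) t298 t299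
  t300) t301) t302) t303) t304)) t305 t306 t307) (.nM 1 0 28 12 0 (.nM 3 2 27 27 0 t308 (.nM 4 1
  23 8 23 t309 t310)) (.nM 3 2 27 27 20 (.nM 1 0 28 0 22 (.nM 2 0 28 29 29 (.nM 2 1 21 0 29 (.nM 3
  0 20 27 27 (.nD 2 0 1 2 t311 t312) t313) (.nS 1 28 (.nM 2 2 21 29 20 (.nM 4 2 23 23 20 (.nM 3 0
  16 27 27 (.nM 2 0 30 21 29 (.nM 2 1 21 22 29 (.nM 2 1 21 16 29 t314 (.nM 2 1 29 26 29 (.nM 2 1
  21 8 29 (.nM 1 0 28 8 4 t315 (.nM 3 2 27 27 16 t316 (.nS 2 12 t317 t318 t319 t320))) (.nM 2 1 21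
  24 29 t321 t322)) t323)) t324) t325) (.nM 3 0 8 27 27 (.nN 0 2 0 1 16 2 3 t326 t327 t328 (.nM 2
  1 21 28 21 (.nS 2 28 (.nM 4 2 23 23 26 (.nM 3 1 27 24 27 (.nM 2 2 21 23 28 (.nM 2 2 21 21 28
  (.nS 2 12 t329 t330 t331 t332) t333) t334) t335) t336) t337 t338 t339) t340) (.nS 2 28 (.nM 4 2
  23 23 26 (.nM 3 1 27 24 27 t341 t342) t343) t344 t345 t346)) (.nS 0 20 (.nM 2 0 28 21 21 (.nM 3
  1 27 12 27 t347 t348) t349) t350 t351 t352))) t353) t354) t355 t356 t357)) t358) (.nM 2 1 21 28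
  29 (.nM 3 0 16 27 27 (.nM 2 2 29 21 28 (.nS 1 28 (.nM 1 0 16 4 16 t359 (.nM 1 0 16 20 16 t360
  (.nM 1 0 16 12 16 t361 (.nM 1 0 16 28 16 t362 (.nM 2 1 29 12 29 (.nS 2 28 (.nM 2 2 29 21 10 (.nM
  2 0 20 23 21 (.nM 2 1 29 14 23 (.nM 1 0 16 28 8 t363 (.nM 2 1 29 26 21 (.nM 1 0 16 28 24 t364
  (.nM 2 0 20 21 21 (.nM 3 1 27 20 27 (.nM 2 1 29 22 21 (.nS 2 24 t365 t366 t367 (.nS 2 4 t368
  t369 t370 t371)) t372) t373) (.nM 2 2 21 21 8 t374 t375))) t376)) t377) (.nM 2 1 21 28 21 (.nM 4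
  0 24 23 23 (.nM 2 0 24 29 21 (.nM 2 0 28 21 21 t378 t379) t380) t381) t382)) (.nM 2 2 29 21 20
  (.nS 2 20 (.nM 2 2 29 29 18 (.nS 2 26 t383 t384 t385 t386) t387) t388 t389 t390) t391)) t392
  t393 t394) t395))))) t396 t397 t398) t399) (.nM 3 0 12 27 27 (.nS 0 28 (.nM 4 2 23 23 16 (.nS 1
  28 (.nM 1 0 24 28 16 t400 (.nM 3 2 27 27 24 (.nS 2 28 (.nM 3 2 27 27 4 (.nM 3 0 4 27 27 t401
  (.nS 2 24 t402 t403 t404 t405)) t406) t407 t408 t409) t410)) t411 t412 t413) (.nS 2 12 (.nM 4 0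
  10 23 23 (.nM 3 1 31 0 27 (.nS 2 8 t414 t415 t416 (.nM 4 2 23 23 20 (.nM 4 2 23 23 4 (.nM 3 2 27
  27 10 (.nM 3 2 27 27 4 (.nM 4 2 23 23 8 (.nS 2 24 t417 t418 t419 (.nM 1 0 12 8 8 t420 (.nN 0 2 0
  1 24 2 3 t421 t422 t423 (.nM 2 0 28 23 21 (.nM 1 0 14 8 8 t424 (.nM 2 0 13 23 21 (.nM 2 0 12 23
  21 (.nM 2 1 29 0 21 t425 t426) t427) t428)) t429) t430))) t431) t432) t433) t434) t435)) (.nM 3
  1 27 28 27 (.nM 3 0 8 27 27 (.nM 4 0 24 23 23 (.nM 4 2 23 23 4 (.nM 3 1 27 6 27 (.nM 2 2 21 21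
  12 (.nS 1 28 (.nM 3 2 27 27 10 (.nM 3 1 27 4 27 (.nS 0 24 (.nM 2 1 21 28 21 t436 t437) t438 t439
  t440) t441) t442) t443 t444 t445) t446) t447) t448) t449) t450) t451)) t452) t453 t454 t455))
  t456 t457 t458) t459)) t460)) (.nM 3 2 27 27 8 (.nM 4 0 16 23 23 (.nM 2 2 29 29 8 (.nM 1 0 20 8
  8 t461 (.nS 1 28 (.nM 2 0 16 21 21 t462 (.nM 2 1 21 28 21 t463 t464)) t465 t466 t467)) t468)
  (.nM 2 2 21 23 8 (.nM 2 2 21 29 24 (.nS 0 12 (.nM 4 0 20 23 23 t469 t470) t471 t472 t473) t474)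
  t475)) t476))))))))))))))))))) (.nM 1 0 28 16 0 t477 (.nM 1 0 8 16 8 t478 (.nM 1 0 24 16 8 t479
  (.nM 1 0 12 16 4 (.nS 1 24 (.nS 2 4 t480 t481 t482 t483) t484 t485 t486) (.nM 3 1 27 24 27 (.nM
  1 0 24 24 16 t487 (.nM 1 0 8 24 8 t488 (.nM 1 0 24 24 8 t489 (.nM 1 0 8 16 24 t490 (.nM 2 0 24
  29 29 (.nM 1 0 24 24 24 t491 (.nM 2 1 23 28 29 (.nM 1 0 16 24 4 (.nD 2 1 0 2 (.nN 0 2 1 0 4 0 3
  t492 t493 t494 t495 t496) (.nM 1 0 20 8 0 t497 (.nS 2 20 (.nM 1 0 20 8 24 t498 (.nS 2 4 (.nM 4 0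
  16 23 23 (.nM 1 0 28 12 0 t499 (.nM 1 0 24 12 8 t500 (.nM 1 0 28 28 0 t501 t502))) t503) t504
  t505 t506)) t507 t508 t509))) (.nS 0 29 (.nM 2 0 28 21 21 (.nM 1 0 24 28 20 (.nM 4 2 23 23 20
  (.nM 1 0 24 24 18 (.nS 1 24 t510 t511 t512 t513) (.nM 4 2 23 23 26 (.nM 1 0 8 24 28 (.nS 1 28
  (.nM 2 1 23 28 21 (.nM 1 0 24 28 8 t514 (.nS 1 24 (.nM 1 0 28 24 8 t515 t516) t517 t518 t519))
  t520) t521 t522 t523) (.nM 1 0 16 24 28 (.nM 1 0 16 12 24 t524 (.nM 1 0 16 28 24 t525 (.nS 0 28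
  (.nS 1 24 (.nS 2 4 t526 t527 t528 t529) t530 t531 t532) t533 t534 t535))) (.nM 1 0 28 16 4 t536
  (.nM 1 0 24 16 20 t537 (.nM 2 0 20 21 29 (.nM 3 1 27 16 27 t538 (.nS 1 24 (.nM 2 0 16 23 29 t539
  (.nS 2 21 (.nM 3 1 27 8 27 (.nM 1 0 24 24 4 t540 (.nS 2 20 (.nS 0 24 t541 t542 t543 t544) t545
  t546 t547)) t548) t549 t550 t551)) t552 t553 t554)) t555))))) t556)) t557) (.nS 2 28 (.nM 4 2 23
  23 8 (.nS 1 28 (.nM 4 0 4 23 23 (.nM 1 0 0 24 12 t558 (.nM 1 0 0 28 12 t559 (.nS 1 24 (.nM 3 2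
  27 31 4 (.nM 1 0 4 24 8 t560 (.nN 0 2 1 0 8 0 3 t561 t562 t563 (.nM 1 0 4 20 12 t564 (.nM 1 0 4
  20 20 t565 (.nM 3 1 27 8 27 t566 t567))) t568)) t569) t570 t571 t572))) t573) t574 t575 t576)
  (.nM 2 2 23 21 28 (.nM 2 2 29 21 20 (.nM 4 2 23 23 26 (.nM 2 2 21 21 20 (.nM 1 0 0 8 28 t577
  (.nM 1 0 4 8 24 t578 (.nM 1 0 0 24 28 t579 (.nM 1 0 4 24 24 t580 (.nM 2 2 29 23 26 (.nS 1 24
  (.nM 4 0 24 23 23 (.nS 2 20 t581 t582 t583 t584) t585) t586 t587 t588) t589))))) t590) t591)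
  t592) t593)) t594 t595 t596)) t597) t598 t599 t600)) t601)) (.nD 0 2 1 2 t602 (.nM 4 0 4 23 23
  (.nM 1 0 2 8 8 t603 (.nM 1 0 2 12 8 t604 (.nM 3 2 27 31 0 t605 (.nM 2 2 29 23 8 (.nM 1 0 2 8 12
  t606 (.nM 2 0 4 21 23 (.nS 1 24 (.nN 1 2 0 1 8 0 2 t607 t608 t609 t610 t611) t612 t613 t614)
  t615)) t616)))) t617))))))) t618))))))) t619))))))))) (.nM 1 0 24 24 0 t620 (.nM 3 2 27 31 4
  (.nM 4 2 23 31 4 (.nM 1 0 0 20 0 t621 (.nM 1 0 0 4 4 t622 (.nM 1 0 0 20 4 t623 (.nM 1 0 0 18 4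
  t624 (.nM 2 2 29 29 4 (.nM 1 0 20 16 4 t625 (.nM 3 0 28 27 27 (.nM 3 1 27 20 27 (.nM 1 0 16 16
  12 t626 (.nM 3 2 27 27 24 (.nM 1 0 16 16 20 t627 (.nM 1 0 24 16 4 (.nM 1 0 24 16 8 t628 (.nN 1 1
  2 0 20 0 2 t629 t630 t631 t632 t633)) (.nS 0 28 (.nM 1 0 24 16 24 t634 (.nM 4 1 23 16 23 (.nS 1
  28 (.nM 1 0 28 16 24 t635 (.nM 1 0 24 24 24 t636 (.nM 1 0 12 24 16 t637 (.nM 1 0 28 24 16 t638
  (.nM 1 0 8 28 24 t639 (.nM 1 0 28 24 24 t640 (.nS 2 28 (.nM 1 0 24 28 24 (.nM 1 0 16 16 28 t641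
  (.nS 2 24 t642 t643 t644 t645)) (.nS 1 20 (.nM 4 1 23 4 23 (.nM 1 0 8 16 28 t646 (.nS 2 24 t647
  t648 t649 (.nS 0 24 (.nS 2 4 t650 t651 t652 t653) t654 t655 t656))) t657) t658 t659 t660)) t661
  t662 t663))))))) t664 t665 t666) (.nM 4 1 23 26 23 (.nM 2 2 23 21 28 (.nS 1 28 (.nS 2 28 (.nS 0
  24 (.nM 1 0 24 24 28 t667 (.nM 3 0 12 27 27 (.nM 2 2 21 21 28 (.nM 2 2 21 29 20 (.nM 4 2 23 23
  24 (.nM 2 2 23 21 26 t668 t669) t670) t671) t672) (.nS 0 18 (.nS 0 17 (.nS 0 16 (.nD 1 2 0 2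
  t673 (.nS 1 12 t674 t675 t676 t677)) t678 t679 t680) t681 t682 t683) t684 t685 t686))) t687 t688
  t689) t690 t691 t692) t693 t694 t695) t696) t697))) t698 t699 t700))) (.nN 1 1 2 0 20 0 2 t701
  (.nS 2 4 (.nD 2 0 1 2 t702 (.nM 3 0 4 27 27 t703 (.nM 3 1 27 16 27 t704 (.nM 3 1 27 26 27 (.nM 4
  1 23 26 23 (.nM 2 1 23 20 29 (.nM 2 2 23 29 20 (.nN 0 1 2 0 26 1 2 t705 (.nN 1 1 2 0 26 0 2 t706
  (.nN 0 1 2 0 24 1 2 t707 t708 t709 t710 (.nM 3 1 27 10 27 t711 t712)) t713 t714 t715) t716 t717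
  t718) t719) t720) t721) t722)))) t723 t724 t725) t726 t727 t728))) t729) t730)) (.nM 1 0 0 20 8
  t731 (.nM 1 0 0 18 8 t732 (.nM 2 2 21 29 24 (.nM 1 0 0 22 16 t733 (.nM 1 0 8 16 28 t734 (.nM 1 0
  16 16 8 t735 (.nM 1 0 16 20 24 (.nS 2 24 (.nM 4 1 23 26 23 (.nM 1 0 20 24 8 t736 (.nS 0 24 t737
  t738 t739 t740)) t741) t742 t743 t744) (.nM 2 0 28 29 21 (.nS 0 28 (.nM 1 0 28 28 24 (.nS 2 24
  (.nM 4 1 23 26 23 (.nM 4 1 23 21 23 (.nM 2 1 29 20 23 (.nM 4 1 23 20 23 (.nM 2 1 21 28 23 t745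
  t746) t747) t748) t749) t750) t751 t752 t753) t754) t755 t756 t757) t758))))) t759)))))))) (.nM
  4 1 23 20 23 (.nM 1 0 0 16 8 t760 (.nM 1 0 0 16 24 t761 (.nM 1 0 8 16 24 t762 (.nM 1 0 0 20 24
  t763 (.nM 2 2 29 29 24 (.nM 1 0 16 16 8 t764 (.nM 2 1 29 20 21 (.nS 2 24 (.nM 4 1 23 26 23 (.nM
  1 0 8 12 8 t765 (.nM 1 0 0 28 8 t766 (.nM 4 0 0 31 23 t767 (.nM 2 0 26 29 23 (.nM 1 0 24 24 8
  t768 (.nM 4 0 24 23 23 (.nS 1 20 (.nS 0 28 (.nS 0 26 t769 t770 t771 t772) t773 t774 t775) t776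
  t777 t778) t779)) t780)))) t781) t782 t783 t784) t785)) t786))))) t787)) (.nM 1 0 8 16 8 t788
  (.nM 4 1 23 20 23 (.nD 0 1 2 2 (.nM 1 0 16 16 8 t789 (.nM 1 0 16 20 24 (.nS 2 24 (.nM 4 1 23 26
  23 (.nM 1 0 20 24 8 t790 (.nM 2 0 18 21 23 (.nS 0 20 t791 t792 t793 t794) t795)) t796) t797 t798
  t799) (.nM 2 0 24 31 29 (.nM 2 0 24 29 29 (.nM 1 0 28 24 24 t800 (.nM 2 2 29 21 24 (.nD 1 0 2 2
  t801 (.nM 2 1 21 20 29 (.nS 0 28 (.nM 2 2 23 29 28 (.nS 2 28 t802 t803 t804 t805) t806) t807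
  t808 t809) t810)) t811)) t812) t813))) (.nM 2 1 29 22 23 (.nM 1 0 0 20 24 t814 (.nM 2 2 29 29 24
  (.nM 1 0 0 16 26 t815 (.nM 1 0 8 16 24 t816 (.nM 2 1 29 20 21 (.nS 2 24 (.nM 4 1 23 26 23 (.nS 1
  20 (.nM 4 0 0 31 23 t817 (.nM 3 2 27 27 8 (.nM 1 0 8 20 8 t818 (.nM 2 1 21 20 23 (.nM 4 0 24 31
  23 (.nM 4 1 23 16 23 t819 t820) t821) t822)) t823)) t824 t825 t826) t827) t828 t829 t830)
  t831))) t832)) t833)) t834)))))) (.nM 2 0 8 23 23 (.nD 1 2 0 2 (.nM 1 0 8 16 8 t835 (.nM 1 0 8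
  20 24 t836 (.nM 4 2 23 23 24 (.nM 2 1 23 28 29 (.nM 2 2 23 21 26 (.nS 2 24 t837 t838 t839 t840)
  t841) t842) t843))) (.nM 4 1 23 28 23 (.nM 2 1 23 8 21 t844 (.nM 2 1 23 16 21 t845 (.nM 2 1 23
  28 29 (.nS 2 24 (.nM 4 1 23 8 23 t846 (.nM 4 1 23 20 23 (.nM 4 1 23 24 23 t847 (.nM 4 1 23 2 23
  t848 t849)) t850)) t851 t852 t853) t854))) t855)) (.nM 4 0 5 23 23 (.nM 3 2 27 27 8 (.nM 1 0 16
  8 8 t856 (.nM 1 0 24 8 8 t857 (.nM 4 1 31 24 23 (.nM 2 0 28 21 21 (.nM 1 0 24 24 8 t858 (.nM 1 0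
  16 24 24 t859 (.nM 2 1 21 24 23 (.nM 1 0 24 16 28 t860 (.nM 1 0 24 24 24 t861 (.nM 4 0 16 23 23
  (.nM 2 1 23 28 21 (.nS 2 28 (.nM 1 0 16 24 12 t862 (.nS 2 8 t863 t864 t865 t866)) t867 t868
  t869) t870) (.nM 2 1 31 24 21 (.nM 3 1 27 16 27 t871 (.nS 2 24 (.nD 0 1 2 2 t872 (.nM 4 0 24 23
  23 t873 t874)) t875 t876 t877)) t878)))) (.nM 1 0 24 24 24 t879 (.nM 1 0 16 20 24 (.nS 2 28 t880
  t881 t882 t883) (.nM 4 1 23 24 23 (.nM 1 0 24 24 28 t884 (.nM 2 2 21 21 24 (.nS 2 24 (.nM 4 0 16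
  23 23 t885 t886) t887 t888 t889) t890)) t891)))))) t892) (.nD 1 0 2 2 t893 (.nS 1 4 (.nS 2 8
  (.nN 1 0 2 1 24 0 3 t894 t895 t896 t897 t898) t899 t900 t901) t902 t903 t904))))) (.nM 4 2 23 23
  16 (.nM 3 2 27 31 16 (.nM 2 0 28 23 21 (.nS 0 28 (.nM 3 2 27 27 16 (.nM 1 0 20 0 16 t905 (.nM 1
  0 28 0 16 t906 (.nM 2 2 31 21 16 (.nM 1 0 24 24 16 t907 t908) t909))) t910) t911 t912 t913)
  t914) t915) t916)) (.nM 4 0 24 23 23 (.nM 3 0 24 27 31 (.nM 2 0 24 29 21 (.nS 0 24 (.nM 4 1 23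
  12 23 (.nM 2 0 24 23 29 (.nM 4 2 23 23 25 (.nM 2 2 23 23 26 (.nM 2 2 23 23 24 (.nM 4 2 23 23 16
  (.nM 3 2 31 27 24 (.nM 2 2 23 29 24 (.nS 2 24 (.nN 1 2 1 0 8 0 2 t917 t918 t919 t920 t921) t922
  t923 t924) t925) t926) (.nM 3 2 31 27 8 (.nM 1 0 24 8 8 t927 (.nM 2 1 23 30 21 (.nS 1 28 (.nM 1
  0 24 24 8 t928 (.nS 2 28 t929 t930 t931 t932)) t933 t934 t935) t936)) t937)) t938) t939) t940)
  t941) t942) t943 t944 t945) t946) t947) t948)))))

theorem chk_tree : chk2 8 15 1000 tree bas = true :=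
  (knM (by decide) c0 (knM (by decide) (knM (by decide) c1 (knM (by decide) (knM (by decide) c2
  (knM (by decide) c3 (knM (by decide) c4 (knM (by decide) c5 (knM (by decide) c6 (knM (by decide)
  c7 (knM (by decide) c8 (knM (by decide) c9 (knM (by decide) (knM (by decide) c10 (knM (by
  decide) (knM (by decide) c11 (knM (by decide) c12 (knM (by decide) (knM (by decide) c13 (knS (by
  decide) (knM (by decide) (knM (by decide) (knS (by decide) (knM (by decide) c14 (knM (by decide)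
  (knM (by decide) c15 (knM (by decide) (knM (by decide) c16 (knM (by decide) (knM (by decide)
  (knS (by decide) c17 c18 c19 c20) c21) c22)) c23)) c24)) c25 c26 c27) (knM (by decide) (knM (by
  decide) c28 (knM (by decide) c29 (knS (by decide) c30 c31 c32 c33))) c34)) c35) c36 c37 c38))
  (knM (by decide) c39 (knM (by decide) (knD (by decide) (knM (by decide) c40 (knM (by decide) c41
  (knM (by decide) (knM (by decide) c42 (knM (by decide) c43 (knM (by decide) c44 (knM (by decide)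
  (knS (by decide) (knM (by decide) c45 (knM (by decide) c46 (knS (by decide) c47 c48 c49 (knM (by
  decide) (knS (by decide) c50 c51 c52 c53) c54)))) c55 c56 c57) c58)))) c59))) (knM (by decide)
  c60 (knM (by decide) c61 (knM (by decide) (knM (by decide) c62 (knS (by decide) (knM (by decide)
  (knM (by decide) (knM (by decide) (knM (by decide) c63 (knM (by decide) c64 (knM (by decide) c65
  (knM (by decide) c66 (knM (by decide) (knM (by decide) (knM (by decide) (knM (by decide) (knM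
  (by decide) (knM (by decide) c67 (knM (by decide) c68 (knM (by decide) c69 (knM (by decide) (knS
  (by decide) (knM (by decide) c70 (knS (by decide) (knM (by decide) c71 (knS (by decide) c72 c73
  c74 c75)) c76 c77 c78)) c79 c80 c81) (knM (by decide) c82 (knS (by decide) (knN (by decide) c83
  c84 c85 c86 c87) c88 c89 c90)))))) c91) (knN (by decide) (knN (by decide) c92 c93 c94 c95 c96)
  (knM (by decide) (knS (by decide) (knM (by decide) (knM (by decide) c97 (knS (by decide) (knM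
  (by decide) c98 (knS (by decide) (knM (by decide) c99 c100) c101 c102 c103)) c104 c105 c106))
  c107) c108 c109 c110) c111) c112 c113 c114)) (knM (by decide) c115 (knM (by decide) c116 (knM
  (by decide) c117 (knS (by decide) (knM (by decide) c118 (knM (by decide) c119 c120)) c121 c122
  c123))))) c124) c125))))) c126) c127) c128) c129 c130 c131)) (knM (by decide) (knM (by decide)
  (knM (by decide) (knM (by decide) (knS (by decide) (knS (by decide) c132 c133 c134 c135) c136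
  c137 c138) c139) (knM (by decide) (knS (by decide) (knM (by decide) (knM (by decide) (knS (by
  decide) (knM (by decide) c140 c141) c142 c143 c144) c145) c146) c147 c148 c149) c150)) c151)
  c152))))) (knM (by decide) c153 (knM (by decide) c154 (knM (by decide) c155 (knM (by decide)
  (knS (by decide) (knS (by decide) (knM (by decide) (knM (by decide) (knM (by decide) c156 c157)
  c158) c159) c160 c161 c162) c163 c164 c165) (knM (by decide) c166 (knM (by decide) (knM (by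
  decide) c167 (knM (by decide) c168 (knM (by decide) c169 (knM (by decide) (knM (by decide) (knM
  (by decide) c170 (knS (by decide) (knM (by decide) (knS (by decide) c171 c172 c173 c174) (knS
  (by decide) c175 c176 c177 c178)) c179 c180 c181)) (knM (by decide) (knM (by decide) (knS (by
  decide) c182 c183 c184 c185) c186) c187)) c188)))) (knM (by decide) (knS (by decide) (knS (by
  decide) (knM (by decide) (knM (by decide) (knM (by decide) (knN (by decide) c189 c190 c191 c192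
  c193) c194) c195) c196) c197 c198 c199) c200 c201 c202) (knM (by decide) (knS (by decide) (knM
  (by decide) (knM (by decide) (knN (by decide) c203 c204 c205 (knM (by decide) (knN (by decide)
  c206 c207 c208 (knM (by decide) c209 c210) c211) c212) (knM (by decide) (knS (by decide) (knM
  (by decide) (knM (by decide) (knM (by decide) (knM (by decide) c213 c214) c215) c216) c217) c218
  c219 c220) c221)) c222) c223) c224 c225 c226) (knM (by decide) (knS (by decide) (knM (by decide)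
  (knM (by decide) (knM (by decide) (knM (by decide) c227 (knM (by decide) c228 (knS (by decide)
  c229 c230 c231 c232))) c233) c234) (knS (by decide) (knM (by decide) (knM (by decide) (knM (by
  decide) (knM (by decide) c235 (knS (by decide) (knS (by decide) (knN (by decide) c236 c237 c238
  c239 c240) c241 c242 c243) c244 c245 c246)) c247) c248) c249) c250 c251 c252)) c253 c254 c255)
  (knM (by decide) (knM (by decide) (knM (by decide) c256 (knS (by decide) c257 c258 c259 c260))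
  (knS (by decide) (knM (by decide) (knM (by decide) c261 (knM (by decide) (knS (by decide) (knM
  (by decide) (knS (by decide) c262 c263 c264 c265) c266) c267 c268 c269) (knS (by decide) (knM
  (by decide) c270 c271) c272 c273 c274))) c275) c276 c277 c278)) (knM (by decide) (knS (by
  decide) (knM (by decide) (knM (by decide) (knM (by decide) (knM (by decide) (knM (by decide)
  (knM (by decide) (knS (by decide) (knS (by decide) (knS (by decide) c279 c280 c281 c282) c283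
  c284 c285) c286 c287 c288) c289) c290) c291) c292) c293) (knM (by decide) (knM (by decide) (knM
  (by decide) (knM (by decide) (knS (by decide) (knS (by decide) c294 c295 c296 c297) c298 c299
  c300) c301) c302) c303) c304)) c305 c306 c307) (knM (by decide) (knM (by decide) c308 (knM (by
  decide) c309 c310)) (knM (by decide) (knM (by decide) (knM (by decide) (knM (by decide) (knM (by
  decide) (knD (by decide) c311 c312) c313) (knS (by decide) (knM (by decide) (knM (by decide)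
  (knM (by decide) (knM (by decide) (knM (by decide) (knM (by decide) c314 (knM (by decide) (knM
  (by decide) (knM (by decide) c315 (knM (by decide) c316 (knS (by decide) c317 c318 c319 c320)))
  (knM (by decide) c321 c322)) c323)) c324) c325) (knM (by decide) (knN (by decide) c326 c327 c328
  (knM (by decide) (knS (by decide) (knM (by decide) (knM (by decide) (knM (by decide) (knM (by
  decide) (knS (by decide) c329 c330 c331 c332) c333) c334) c335) c336) c337 c338 c339) c340) (knS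
  (by decide) (knM (by decide) (knM (by decide) c341 c342) c343) c344 c345 c346)) (knS (by decide)
  (knM (by decide) (knM (by decide) c347 c348) c349) c350 c351 c352))) c353) c354) c355 c356
  c357)) c358) (knM (by decide) (knM (by decide) (knM (by decide) (knS (by decide) (knM (by
  decide) c359 (knM (by decide) c360 (knM (by decide) c361 (knM (by decide) c362 (knM (by decide)
  (knS (by decide) (knM (by decide) (knM (by decide) (knM (by decide) (knM (by decide) c363 (knM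
  (by decide) (knM (by decide) c364 (knM (by decide) (knM (by decide) (knM (by decide) (knS (by
  decide) c365 c366 c367 (knS (by decide) c368 c369 c370 c371)) c372) c373) (knM (by decide) c374
  c375))) c376)) c377) (knM (by decide) (knM (by decide) (knM (by decide) (knM (by decide) c378
  c379) c380) c381) c382)) (knM (by decide) (knS (by decide) (knM (by decide) (knS (by decide)
  c383 c384 c385 c386) c387) c388 c389 c390) c391)) c392 c393 c394) c395))))) c396 c397 c398)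
  c399) (knM (by decide) (knS (by decide) (knM (by decide) (knS (by decide) (knM (by decide) c400
  (knM (by decide) (knS (by decide) (knM (by decide) (knM (by decide) c401 (knS (by decide) c402
  c403 c404 c405)) c406) c407 c408 c409) c410)) c411 c412 c413) (knS (by decide) (knM (by decide)
  (knM (by decide) (knS (by decide) c414 c415 c416 (knM (by decide) (knM (by decide) (knM (by
  decide) (knM (by decide) (knM (by decide) (knS (by decide) c417 c418 c419 (knM (by decide) c420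
  (knN (by decide) c421 c422 c423 (knM (by decide) (knM (by decide) c424 (knM (by decide) (knM (by
  decide) (knM (by decide) c425 c426) c427) c428)) c429) c430))) c431) c432) c433) c434) c435))
  (knM (by decide) (knM (by decide) (knM (by decide) (knM (by decide) (knM (by decide) (knM (by
  decide) (knS (by decide) (knM (by decide) (knM (by decide) (knS (by decide) (knM (by decide)
  c436 c437) c438 c439 c440) c441) c442) c443 c444 c445) c446) c447) c448) c449) c450) c451))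
  c452) c453 c454 c455)) c456 c457 c458) c459)) c460)) (knM (by decide) (knM (by decide) (knM (by
  decide) (knM (by decide) c461 (knS (by decide) (knM (by decide) c462 (knM (by decide) c463
  c464)) c465 c466 c467)) c468) (knM (by decide) (knM (by decide) (knS (by decide) (knM (by
  decide) c469 c470) c471 c472 c473) c474) c475)) c476))))))))))))))))))) (knM (by decide) c477
  (knM (by decide) c478 (knM (by decide) c479 (knM (by decide) (knS (by decide) (knS (by decide)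
  c480 c481 c482 c483) c484 c485 c486) (knM (by decide) (knM (by decide) c487 (knM (by decide)
  c488 (knM (by decide) c489 (knM (by decide) c490 (knM (by decide) (knM (by decide) c491 (knM (by
  decide) (knM (by decide) (knD (by decide) (knN (by decide) c492 c493 c494 c495 c496) (knM (by
  decide) c497 (knS (by decide) (knM (by decide) c498 (knS (by decide) (knM (by decide) (knM (by
  decide) c499 (knM (by decide) c500 (knM (by decide) c501 c502))) c503) c504 c505 c506)) c507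
  c508 c509))) (knS (by decide) (knM (by decide) (knM (by decide) (knM (by decide) (knM (by
  decide) (knS (by decide) c510 c511 c512 c513) (knM (by decide) (knM (by decide) (knS (by decide)
  (knM (by decide) (knM (by decide) c514 (knS (by decide) (knM (by decide) c515 c516) c517 c518
  c519)) c520) c521 c522 c523) (knM (by decide) (knM (by decide) c524 (knM (by decide) c525 (knS
  (by decide) (knS (by decide) (knS (by decide) c526 c527 c528 c529) c530 c531 c532) c533 c534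
  c535))) (knM (by decide) c536 (knM (by decide) c537 (knM (by decide) (knM (by decide) c538 (knS
  (by decide) (knM (by decide) c539 (knS (by decide) (knM (by decide) (knM (by decide) c540 (knS
  (by decide) (knS (by decide) c541 c542 c543 c544) c545 c546 c547)) c548) c549 c550 c551)) c552
  c553 c554)) c555))))) c556)) c557) (knS (by decide) (knM (by decide) (knS (by decide) (knM (by
  decide) (knM (by decide) c558 (knM (by decide) c559 (knS (by decide) (knM (by decide) (knM (by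
  decide) c560 (knN (by decide) c561 c562 c563 (knM (by decide) c564 (knM (by decide) c565 (knM
  (by decide) c566 c567))) c568)) c569) c570 c571 c572))) c573) c574 c575 c576) (knM (by decide)
  (knM (by decide) (knM (by decide) (knM (by decide) (knM (by decide) c577 (knM (by decide) c578
  (knM (by decide) c579 (knM (by decide) c580 (knM (by decide) (knS (by decide) (knM (by decide)
  (knS (by decide) c581 c582 c583 c584) c585) c586 c587 c588) c589))))) c590) c591) c592) c593))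
  c594 c595 c596)) c597) c598 c599 c600)) c601)) (knD (by decide) c602 (knM (by decide) (knM (by
  decide) c603 (knM (by decide) c604 (knM (by decide) c605 (knM (by decide) (knM (by decide) c606
  (knM (by decide) (knS (by decide) (knN (by decide) c607 c608 c609 c610 c611) c612 c613 c614)
  c615)) c616)))) c617))))))) c618))))))) c619))))))))) (knM (by decide) c620 (knM (by decide)
  (knM (by decide) (knM (by decide) c621 (knM (by decide) c622 (knM (by decide) c623 (knM (by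
  decide) c624 (knM (by decide) (knM (by decide) c625 (knM (by decide) (knM (by decide) (knM (by
  decide) c626 (knM (by decide) (knM (by decide) c627 (knM (by decide) (knM (by decide) c628 (knN
  (by decide) c629 c630 c631 c632 c633)) (knS (by decide) (knM (by decide) c634 (knM (by decide)
  (knS (by decide) (knM (by decide) c635 (knM (by decide) c636 (knM (by decide) c637 (knM (by
  decide) c638 (knM (by decide) c639 (knM (by decide) c640 (knS (by decide) (knM (by decide) (knM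
  (by decide) c641 (knS (by decide) c642 c643 c644 c645)) (knS (by decide) (knM (by decide) (knM
  (by decide) c646 (knS (by decide) c647 c648 c649 (knS (by decide) (knS (by decide) c650 c651
  c652 c653) c654 c655 c656))) c657) c658 c659 c660)) c661 c662 c663))))))) c664 c665 c666) (knM
  (by decide) (knM (by decide) (knS (by decide) (knS (by decide) (knS (by decide) (knM (by decide)
  c667 (knM (by decide) (knM (by decide) (knM (by decide) (knM (by decide) (knM (by decide) c668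
  c669) c670) c671) c672) (knS (by decide) (knS (by decide) (knS (by decide) (knD (by decide) c673
  (knS (by decide) c674 c675 c676 c677)) c678 c679 c680) c681 c682 c683) c684 c685 c686))) c687
  c688 c689) c690 c691 c692) c693 c694 c695) c696) c697))) c698 c699 c700))) (knN (by decide) c701
  (knS (by decide) (knD (by decide) c702 (knM (by decide) c703 (knM (by decide) c704 (knM (by
  decide) (knM (by decide) (knM (by decide) (knM (by decide) (knN (by decide) c705 (knN (by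
  decide) c706 (knN (by decide) c707 c708 c709 c710 (knM (by decide) c711 c712)) c713 c714 c715)
  c716 c717 c718) c719) c720) c721) c722)))) c723 c724 c725) c726 c727 c728))) c729) c730)) (knM
  (by decide) c731 (knM (by decide) c732 (knM (by decide) (knM (by decide) c733 (knM (by decide)
  c734 (knM (by decide) c735 (knM (by decide) (knS (by decide) (knM (by decide) (knM (by decide)
  c736 (knS (by decide) c737 c738 c739 c740)) c741) c742 c743 c744) (knM (by decide) (knS (by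
  decide) (knM (by decide) (knS (by decide) (knM (by decide) (knM (by decide) (knM (by decide)
  (knM (by decide) (knM (by decide) c745 c746) c747) c748) c749) c750) c751 c752 c753) c754) c755
  c756 c757) c758))))) c759)))))))) (knM (by decide) (knM (by decide) c760 (knM (by decide) c761
  (knM (by decide) c762 (knM (by decide) c763 (knM (by decide) (knM (by decide) c764 (knM (by
  decide) (knS (by decide) (knM (by decide) (knM (by decide) c765 (knM (by decide) c766 (knM (by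
  decide) c767 (knM (by decide) (knM (by decide) c768 (knM (by decide) (knS (by decide) (knS (by
  decide) (knS (by decide) c769 c770 c771 c772) c773 c774 c775) c776 c777 c778) c779)) c780))))
  c781) c782 c783 c784) c785)) c786))))) c787)) (knM (by decide) c788 (knM (by decide) (knD (by
  decide) (knM (by decide) c789 (knM (by decide) (knS (by decide) (knM (by decide) (knM (by
  decide) c790 (knM (by decide) (knS (by decide) c791 c792 c793 c794) c795)) c796) c797 c798 c799)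
  (knM (by decide) (knM (by decide) (knM (by decide) c800 (knM (by decide) (knD (by decide) c801
  (knM (by decide) (knS (by decide) (knM (by decide) (knS (by decide) c802 c803 c804 c805) c806)
  c807 c808 c809) c810)) c811)) c812) c813))) (knM (by decide) (knM (by decide) c814 (knM (by
  decide) (knM (by decide) c815 (knM (by decide) c816 (knM (by decide) (knS (by decide) (knM (by
  decide) (knS (by decide) (knM (by decide) c817 (knM (by decide) (knM (by decide) c818 (knM (by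
  decide) (knM (by decide) (knM (by decide) c819 c820) c821) c822)) c823)) c824 c825 c826) c827)
  c828 c829 c830) c831))) c832)) c833)) c834)))))) (knM (by decide) (knD (by decide) (knM (by
  decide) c835 (knM (by decide) c836 (knM (by decide) (knM (by decide) (knM (by decide) (knS (by
  decide) c837 c838 c839 c840) c841) c842) c843))) (knM (by decide) (knM (by decide) c844 (knM (by
  decide) c845 (knM (by decide) (knS (by decide) (knM (by decide) c846 (knM (by decide) (knM (by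
  decide) c847 (knM (by decide) c848 c849)) c850)) c851 c852 c853) c854))) c855)) (knM (by decide)
  (knM (by decide) (knM (by decide) c856 (knM (by decide) c857 (knM (by decide) (knM (by decide)
  (knM (by decide) c858 (knM (by decide) c859 (knM (by decide) (knM (by decide) c860 (knM (by
  decide) c861 (knM (by decide) (knM (by decide) (knS (by decide) (knM (by decide) c862 (knS (by
  decide) c863 c864 c865 c866)) c867 c868 c869) c870) (knM (by decide) (knM (by decide) c871 (knS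
  (by decide) (knD (by decide) c872 (knM (by decide) c873 c874)) c875 c876 c877)) c878)))) (knM
  (by decide) c879 (knM (by decide) (knS (by decide) c880 c881 c882 c883) (knM (by decide) (knM
  (by decide) c884 (knM (by decide) (knS (by decide) (knM (by decide) c885 c886) c887 c888 c889)
  c890)) c891)))))) c892) (knD (by decide) c893 (knS (by decide) (knS (by decide) (knN (by decide)
  c894 c895 c896 c897 c898) c899 c900 c901) c902 c903 c904))))) (knM (by decide) (knM (by decide)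
  (knM (by decide) (knS (by decide) (knM (by decide) (knM (by decide) c905 (knM (by decide) c906
  (knM (by decide) (knM (by decide) c907 c908) c909))) c910) c911 c912 c913) c914) c915) c916))
  (knM (by decide) (knM (by decide) (knM (by decide) (knS (by decide) (knM (by decide) (knM (by
  decide) (knM (by decide) (knM (by decide) (knM (by decide) (knM (by decide) (knM (by decide)
  (knM (by decide) (knS (by decide) (knN (by decide) c917 c918 c919 c920 c921) c922 c923 c924)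
  c925) c926) (knM (by decide) (knM (by decide) c927 (knM (by decide) (knS (by decide) (knM (by
  decide) c928 (knS (by decide) c929 c930 c931 c932)) c933 c934 c935) c936)) c937)) c938) c939)
  c940) c941) c942) c943 c944 c945) c946) c947) c948)))))

end Pool.Agent.Helper45.AB.Data
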