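import Pool.Agent.Helper45.AB.Defs

/-!
# Project AB, module EST2 (helper40)
-/

set_option autoImplicit false
set_option linter.unusedSectionVars false

namespace Pool.Agent.Helper45.AB

open NumberField IsDedekindDomain Finset Pool.Agent.H691R3 Pool.Agent.W223.AK Pool.Agent.W358.AK

variable {K : Type} [Field K] [NumberField K]

theorem est2 {S : Finset (Pr K)} {w : Pr K → K} {C : ℝ} (hU : Unif S w C) (hA : S_SAO S w)
    (hJ : StmtJK S w) (hC : StmtCNT K) (hS : StmtSU K) (hO : S_CSO) : S_EST2 S := by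
  classical
  intro n k l hn hk hl hkl hSk hSl ε hε
  have hC1 := hU.one_le
  obtain ⟨D1, hD1, h1⟩ := hC (ε / 4) (by positivity)
  obtain ⟨D2, hD2, h2⟩ := hS S (ε / 4 / (2 * C + 2)) (by positivity)
  obtain ⟨D3, hD3, h3⟩ := sa_class hU hJ hC n hn (ε / 4) (by positivity)
  obtain ⟨D4, hD4, h4⟩ := hA k l hk hl hkl hSk hSl (ε / 4) (by positivity)
  refine ⟨D1 * D2 * Real.exp (ε / 2 * cS S) *
    (D1 * Real.exp (ε / 4 * cS S) + Real.sqrt (2 * (D4 * D3))), by positivity, ?_⟩
  intro X E P p q r F ν τq Vq a b τ W c Λ θ σ hX hE hpq hqr hpr ha haX hb hbX hν hνX hka hlb htail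
    hWl hcl htop hVq hc hσ hΛ hTh
  have hcs := cS_nonneg S
  set sf : K → K := fun x => yy p q x * (gen w (P x q) / gen w (P x p)) with hsf
  set Φ : K → Idl K × K := fun x => (ex (P x r) F, sf x) with hΦ
  set T : ℝ := 1 / 2 * (2 * τ + (a + b) + max θ (a + b - Λ)) with hT
  set T' : ℝ := 1 / 2 * (2 * τq + ∑ i, ν i + max 0 (3 / 2 * ∑ i, ν i - Λ)) with hT'
  set B : ℝ := (D1 * Real.exp (ε / 4 * cS S) + Real.sqrt (2 * (D4 * D3))) *
    Real.exp (ε / 4 * X) * (Real.exp Vq + Real.exp (T + T')) with hB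
  have hB0 : 0 ≤ B := by positivity
  have hfib : ∀ b ∈ E.image Φ, ((E.filter (fun x => Φ x = b)).card : ℝ) ≤ B := by
    intro b' hb'
    set E' := E.filter (fun x => Φ x = b') with hE'
    have hsub : ∀ x ∈ E', x ∈ E := fun x hx => (Finset.mem_filter.mp hx).1
    have hΦb : ∀ x ∈ E', ex (P x r) F = b'.1 ∧ sf x = b'.2 := by
      intro x hx
      have := (Finset.mem_filter.mp hx).2
      rw [← this]
      exact ⟨rfl, rfl⟩
    set g : K → Idl K × Idl K := fun x => (P x p, P x q) with hg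
    have hinj : Set.InjOn g E' := by
      intro x hx x' hx' hxx
      rw [hg] at hxx
      simp only [Prod.mk.injEq] at hxx
      have s1 := (hΦb x hx).2
      have s2 := (hΦb x' hx').2
      rw [← s2, hsf] at s1
      simp only at s1
      rw [← hxx.1, ← hxx.2] at s1
      have g1 : gen w (P x q) / gen w (P x p) ≠ 0 := div_ne_zero (gen_ne hU _) (gen_ne hU _)
      have s3 := mul_right_cancel₀ g1 s1
      unfold yy at s3
      have s4 := mul_left_cancel₀ (neg_ne_zero.mpr (mul_ne_zero (sgn_ne p) (sgn_ne q))) s3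
      exact L_quot_inj (hE x (hsub x hx)).1 (hE x' (hsub x' hx')).1 hpq s4
    set SA : Finset (Idl K × Idl K) :=
      ((E' ×ˢ E').filter (fun t => P t.1 q = P t.2 q ∧ P t.1 p ≠ P t.2 p)).image
        (fun t => (P t.1 p, P t.2 p)) with hSA
    set SB : Finset (Idl K × Idl K) :=
      ((E' ×ˢ E').filter (fun t => P t.1 p = P t.2 p)).image (fun t => (P t.1 q, P t.2 q)) with hSB
    have hcs1 := hO (Idl K) (Idl K) (E'.image g) SA SB (E'.image fun x => P x q) ?_ ?_ ?_
    rotate_left
    · intro t ht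
      rw [Finset.mem_image] at ht
      obtain ⟨x, hx, rfl⟩ := ht
      exact Finset.mem_image.mpr ⟨x, hx, rfl⟩
    · intro t ht t' ht' htt hne
      rw [Finset.mem_image] at ht ht'
      obtain ⟨x, hx, rfl⟩ := ht
      obtain ⟨x', hx', rfl⟩ := ht'
      rw [hSA, Finset.mem_image]
      exact ⟨(x, x'), Finset.mem_filter.mpr ⟨Finset.mem_product.mpr ⟨hx, hx'⟩, htt, hne⟩, rfl⟩
    · intro t ht t' ht' htt
      rw [Finset.mem_image] at ht ht'
      obtain ⟨x, hx, rfl⟩ := ht
      obtain ⟨x', hx', rfl⟩ := ht'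
      rw [hSB, Finset.mem_image]
      exact ⟨(x, x'), Finset.mem_filter.mpr ⟨Finset.mem_product.mpr ⟨hx, hx'⟩, htt⟩, rfl⟩
    rw [Finset.card_image_of_injOn hinj] at hcs1
    have hNb := h1 (X + cS S) Vq (E'.image fun x => P x q) (by linarith) (by
      intro a' ha'
      rw [Finset.mem_image] at ha'
      obtain ⟨x, hx, rfl⟩ := ha'
      have h5 := len_le (hE x (hsub x hx)).1 (hE x (hsub x hx)).2.1 q
      have h6 := (hE x (hsub x hx)).2.2
      exact ⟨hVq x (hsub x hx), by linarith⟩)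
    have hAb := h4 X E' P p q r F a b τ W Λ θ σ b'.2 b'.1 SA hX (fun x hx => hE x (hsub x hx))
      hpq hqr hpr ha haX hb hbX (fun x hx => hka x (hsub x hx)) (fun x hx => hlb x (hsub x hx))
      (fun x hx => htail x (hsub x hx)) (fun x hx => hWl x (hsub x hx))
      (fun x hx => hσ x (hsub x hx))
      (fun x hx => hΛ x (hsub x hx)) (fun x hx => (hΦb x hx).1) (fun x hx => (hΦb x hx).2) hTh (by
        intro t ht
        rw [hSA, Finset.mem_image] at ht
        obtain ⟨y, hy, rfl⟩ := ht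
        rw [Finset.mem_filter, Finset.mem_product] at hy
        exact ⟨y.1, hy.1.1, y.2, hy.1.2, rfl, rfl, hy.2.1, hy.2.2⟩)
    have hBb := h3 X E' P q p r F ν τq Λ (σ r) (b'.2)⁻¹ b'.1 SB hX
      (fun x hx => hE x (hsub x hx))
      hpq.symm hpr hqr hν hνX (fun x hx i => hcl x (hsub x hx) i)
      (fun x hx => htop x (hsub x hx)) (fun x hx v hv => hσ x (hsub x hx) v hv r)
      (fun x hx => hΛ x (hsub x hx)) (fun x hx => (hΦb x hx).1) (fun x hx => by
        have s1 := (hΦb x hx).2
        rw [← s1, hsf]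
        simp only
        rw [yy_swap (hE x (hsub x hx)).1, mul_inv, inv_div]) (by
        intro t ht
        rw [hSB, Finset.mem_image] at ht
        obtain ⟨y, hy, rfl⟩ := ht
        rw [Finset.mem_filter, Finset.mem_product] at hy
        exact ⟨y.1, hy.1.1, y.2, hy.1.2, rfl, rfl, hy.2⟩)
    have hsq : Real.sqrt (2 * SA.card * SB.card) ≤
        Real.sqrt (2 * (D4 * D3)) * Real.exp (ε / 4 * X) * Real.exp (T + T') := by
      rw [Real.sqrt_le_left (by positivity)]
      have e1 : Real.exp (T + T') ^ 2 =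
          Real.exp (2 * τ + (a + b) + max θ (a + b - Λ)) *
          Real.exp (2 * τq + ∑ i, ν i + max 0 (3 / 2 * ∑ i, ν i - Λ)) := by
        rw [sq, ← Real.exp_add, ← Real.exp_add, hT, hT']
        congr 1
        ring
      rw [mul_pow, mul_pow, e1, Real.sq_sqrt (by positivity), mul_assoc (2 : ℝ)]
      refine (mul_le_mul_of_nonneg_left (mul_le_mul hAb hBb (Nat.cast_nonneg _) (by positivity))
        (by norm_num : (0 : ℝ) ≤ 2)).trans (le_of_eq ?_)
      ring
    have hN2 : D1 * Real.exp (Vq + ε / 4 * (X + cS S)) =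
        D1 * Real.exp (ε / 4 * cS S) * Real.exp (ε / 4 * X) * Real.exp Vq := by
      rw [mul_assoc, mul_assoc, ← Real.exp_add, ← Real.exp_add]
      congr 2
      ring
    rw [hN2] at hNb
    refine hcs1.trans ((add_le_add hNb hsq).trans ?_)
    rw [hB]
    have p1 : 0 ≤ D1 * Real.exp (ε / 4 * cS S) * Real.exp (ε / 4 * X) * Real.exp (T + T') := by
      positivity
    have p2 : 0 ≤ Real.sqrt (2 * (D4 * D3)) * Real.exp (ε / 4 * X) * Real.exp Vq := by
      positivity
    calc D1 * Real.exp (ε / 4 * cS S) * Real.exp (ε / 4 * X) * Real.exp Vq +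
          Real.sqrt (2 * (D4 * D3)) * Real.exp (ε / 4 * X) * Real.exp (T + T')
        ≤ D1 * Real.exp (ε / 4 * cS S) * Real.exp (ε / 4 * X) * Real.exp Vq +
          Real.sqrt (2 * (D4 * D3)) * Real.exp (ε / 4 * X) * Real.exp (T + T') +
          (D1 * Real.exp (ε / 4 * cS S) * Real.exp (ε / 4 * X) * Real.exp (T + T') +
          Real.sqrt (2 * (D4 * D3)) * Real.exp (ε / 4 * X) * Real.exp Vq) := by
          linarith
      _ = _ := by ring
  have himg : ((E.image Φ).card : ℝ) ≤ (D1 * Real.exp (c + ε / 4 * (X + cS S))) *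
      (D2 * Real.exp (ε / 4 * (X + cS S))) := by
    have hsub : E.image Φ ⊆ (E.image fun x => ex (P x r) F) ×ˢ (E.image sf) := by
      intro b hb
      rw [Finset.mem_image] at hb
      obtain ⟨x, hx, rfl⟩ := hb
      rw [Finset.mem_product]
      exact ⟨Finset.mem_image.mpr ⟨x, hx, rfl⟩, Finset.mem_image.mpr ⟨x, hx, rfl⟩⟩
    have h4 : ((E.image Φ).card : ℝ) ≤ ((E.image fun x => ex (P x r) F).card : ℝ) *
        ((E.image sf).card : ℝ) := by
      have := Finset.card_le_card hsub
      rw [Finset.card_product] at this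
      exact_mod_cast this
    refine h4.trans (mul_le_mul ?_ ?_ (Nat.cast_nonneg _) (by positivity))
    · refine h1 (X + cS S) c _ (by linarith) ?_
      intro a ha
      rw [Finset.mem_image] at ha
      obtain ⟨x, hx, rfl⟩ := ha
      have h5 := len_le (hE x hx).1 (hE x hx).2.1 r
      have h6 := (hE x hx).2.2
      exact ⟨hc x hx, (len_mono (ex_le _ _)).trans (by linarith)⟩
    · have h7 := h2 ((2 * C + 2) * (X + cS S)) (E.image sf)
        (mul_nonneg (by linarith) (by linarith)) ?_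
      · have e1 : ε / 4 / (2 * C + 2) * ((2 * C + 2) * (X + cS S)) = ε / 4 * (X + cS S) := by
          have : (2 * C + 2) ≠ 0 := by linarith
          field_simp
        rwa [e1] at h7
      · intro y hy
        rw [Finset.mem_image] at hy
        obtain ⟨x, hx, rfl⟩ := hy
        refine ⟨mul_ne_zero (yy_ne (hE x hx).1 p q) (div_ne_zero (gen_ne hU _) (gen_ne hU _)),
          fun v hv => unit_fv hU (hE x hx).2.1 p q hv, fun v hv => ?_⟩
        refine (unit_spec hU (hE x hx).1 (hE x hx).2.1 p q hv).trans ?_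
        refine mul_le_mul_of_nonneg_left ?_ (by linarith)
        have h6 := (hE x hx).2.2
        linarith
  refine (fib_bound E Φ B hfib).trans ((mul_le_mul_of_nonneg_right himg hB0).trans ?_)
  rw [hB]
  set D5 : ℝ := D1 * Real.exp (ε / 4 * cS S) + Real.sqrt (2 * (D4 * D3)) with hD5
  have hD50 : 0 ≤ D5 := by positivity
  have e2 : Real.exp (c + ε / 4 * (X + cS S)) * Real.exp (ε / 4 * (X + cS S)) *
      Real.exp (ε / 4 * X) = Real.exp (ε / 2 * cS S) * Real.exp (3 * ε / 4 * X + c) := by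
    rw [← Real.exp_add, ← Real.exp_add, ← Real.exp_add]
    congr 1
    ring
  have e1 : D1 * Real.exp (c + ε / 4 * (X + cS S)) * (D2 * Real.exp (ε / 4 * (X + cS S))) *
      (D5 * Real.exp (ε / 4 * X) * (Real.exp Vq + Real.exp (T + T'))) =
      D1 * D2 * Real.exp (ε / 2 * cS S) * D5 * (Real.exp (3 * ε / 4 * X + c) *
        (Real.exp Vq + Real.exp (T + T'))) := by
    linear_combination (D1 * D2 * D5 * (Real.exp Vq + Real.exp (T + T'))) * e2
  rw [e1, mul_assoc (D1 * D2 * Real.exp (ε / 2 * cS S) * D5)]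
  refine mul_le_mul_of_nonneg_left ?_ (by positivity)
  refine mul_le_mul_of_nonneg_right ?_ (by positivity)
  rw [Real.exp_le_exp]
  have : 0 ≤ ε * X := mul_nonneg hε.le hX
  linarith

end Pool.Agent.Helper45.AB
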