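import Pool.Agent.Helper45.AB.Defs
import Pool.Graph.R_seed8.W108.AK.FIN

set_option autoImplicit false
set_option linter.unusedSectionVars false

/-!
Exceptional set in the abc conjecture over number fields: the final count with the off-diagonal
energy bound (`S_FIN2`).
-/

namespace Pool.Agent.Helper45.AB

open NumberField IsDedekindDomain Finset Pool.Agent.H691R3 Pool.Agent.W223.AK Pool.Agent.W108.AK

variable {K : Type} [Field K] [NumberField K]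

lemma ex_compl2 (a : Idl K) (i j : Fin 5) (hi : (i : ℕ) < 4) (hj : (j : ℕ) < 4) :
    ex a {m | m ≠ (i : ℕ) + 1 ∧ m ≠ (j : ℕ) + 1} = ex a (Un {i, j}ᶜ) := by
  classical
  ext v
  rw [Pool.Agent.W223.AK.ex_apply, Pool.Agent.W223.AK.ex_apply]
  by_cases h0 : a v = 0
  · simp [h0]
  · have h1 : a v ∈ {m | m ≠ (i : ℕ) + 1 ∧ m ≠ (j : ℕ) + 1} ↔ a v ∈ Un {i, j}ᶜ := by
      unfold Un
      rw [Set.mem_ofPred_eq, Set.mem_ofPred_eq]
      constructor
      · intro h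
        refine ⟨⟨min (a v - 1) 4, by omega⟩, ?_, by omega, rfl⟩
        rw [Finset.mem_compl, Finset.mem_insert, Finset.mem_singleton]
        rintro (h2 | h2)
        · have h3 := congrArg Fin.val h2
          simp only at h3
          omega
        · have h3 := congrArg Fin.val h2
          simp only at h3
          omega
      · rintro ⟨u, hu, hu1, hu2⟩
        rw [Finset.mem_compl, Finset.mem_insert, Finset.mem_singleton, not_or] at hu
        constructor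
        · intro h
          apply hu.1
          ext
          omega
        · intro h
          apply hu.2
          ext
          omega
    simp only [h1]

lemma Th.shift {k l : ℕ} (hk : 1 ≤ k) (hl : 1 ≤ l) (hk4 : k ≤ 4) (hl4 : l ≤ 4)
    {a b ζ θ : ℝ} (h : Th k l a b ζ θ) : Th k l (a + 1) (b + 1) (ζ + 40) (θ + 48) := by
  have hk1 : (1 : ℝ) ≤ k := by exact_mod_cast hk
  have hl1 : (1 : ℝ) ≤ l := by exact_mod_cast hl
  have hk5 : (k : ℝ) ≤ 4 := by exact_mod_cast hk4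
  have hl5 : (l : ℝ) ≤ 4 := by exact_mod_cast hl4
  rcases h with h | ⟨h1, h2⟩ | ⟨h1, h2⟩
  · left
    linarith
  · right; left
    constructor <;> nlinarith
  · right; right
    constructor <;> nlinarith

section Cases

variable {S : Finset (Pr K)} {n : ℕ} {c₀ Y : ℝ} {E : Finset K} {P : K → Fin 3 → Idl K} {x₀ : K}

/-- the case of the off-diagonal energy bound -/
lemma case_N (hn : 5 ≤ n) (h : IsCell S n c₀ Y E P x₀) {ε D : ℝ} (hD : 0 ≤ D) {i j : Fin 5}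
    (hi : (i : ℕ) < 4) (hj : (j : ℕ) < 4)
    (hEST : ∀ (X : ℝ) (E : Finset K) (P : K → Fin 3 → Idl K) (p q r : Fin 3) (F : Set ℕ)
      (ν : Fin n → ℝ) (τq Vq a b τ W c Λ θ : ℝ) (σ : Fin 3 → Pl K → ℝ),
    0 ≤ X → (∀ x ∈ E, Pt x ∧ IsP S x (P x) ∧ ht x ≤ X) → p ≠ q → q ≠ r → p ≠ r →
    0 ≤ a → a ≤ X → 0 ≤ b → b ≤ X → (∀ i, 0 ≤ ν i) → ∑ i, ν i ≤ X →
    (∀ x ∈ E, rl (ex (P x p) {(i : ℕ) + 1}) ≤ a) → (∀ x ∈ E, rl (ex (P x p) {(j : ℕ) + 1}) ≤ b) →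
    (∀ x ∈ E, rl (ex (P x p) {m | m ≠ (i : ℕ) + 1 ∧ m ≠ (j : ℕ) + 1}) ≤ τ) →
    (∀ x ∈ E, len (ex (P x p) {m | m ≠ (i : ℕ) + 1 ∧ m ≠ (j : ℕ) + 1}) ≤ W) →
    (∀ x ∈ E, ∀ i : Fin n, rl (ex (P x q) {(i : ℕ) + 1}) ≤ ν i) →
    (∀ x ∈ E, rl (ex (P x q) {m | n < m}) ≤ τq) →
    (∀ x ∈ E, rl (P x q) ≤ Vq) →
    (∀ x ∈ E, rl (ex (P x r) F) ≤ c) →
    (∀ x ∈ E, ∀ v ∈ Spl S, ∀ j, |lm v j x - σ j v| ≤ 1) →
    (∀ x ∈ E, Λ ≤ len (ex (P x r) F) + ∑ v ∈ Spl S, σ r v) →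
    Th ((i : ℕ) + 1) ((j : ℕ) + 1) a b (W - Λ) θ →
    (E.card : ℝ) ≤ D * Real.exp (ε * X + c) * (Real.exp Vq +
      Real.exp (1 / 2 * (2 * τ + (a + b) + max θ (a + b - Λ)) +
        1 / 2 * (2 * τq + ∑ i, ν i + max 0 (3 / 2 * ∑ i, ν i - Λ)))))
    {p q r : Fin 3} {F : Finset (Fin 5)} (hpq : p ≠ q) (hqr : q ≠ r) (hpr : p ≠ r)
    {R δ θ : ℝ} (hδ : 1 / ((n : ℝ) + 1) ≤ δ)
    (hTh : Th ((i : ℕ) + 1) ((j : ℕ) + 1) (rl (ex (P x₀ p) (cls i))) (rl (ex (P x₀ p) (cls j)))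
      (len (ex (P x₀ p) (Un {i, j}ᶜ)) -
        (len (ex (P x₀ r) (Un F)) + ∑ v ∈ Spl S, lm v r x₀)) θ)
    (hR1 : rl (ex (P x₀ r) (Un F)) + rl (ex (P x₀ q) (Un univ)) ≤ R)
    (hR2 : rl (ex (P x₀ r) (Un F)) + 1 / 2 * (2 * rl (ex (P x₀ p) (Un {i, j}ᶜ)) +
        (rl (ex (P x₀ p) (cls i)) + rl (ex (P x₀ p) (cls j))) +
        max θ (rl (ex (P x₀ p) (cls i)) + rl (ex (P x₀ p) (cls j)) -
          (len (ex (P x₀ r) (Un F)) + ∑ v ∈ Spl S, lm v r x₀))) +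
      1 / 2 * (rl (ex (P x₀ q) (Un univ)) +
        max 0 (3 / 2 * rl (ex (P x₀ q) (Un univ)) -
          (len (ex (P x₀ r) (Un F)) + ∑ v ∈ Spl S, lm v r x₀))) ≤ R) :
    (E.card : ℝ) ≤ 2 * D * Real.exp (ε * (Y + cS S + n) + R + 10 * (n + 5) +
      δ * (Y + cS S) + (2 * n + 36)) := by
  obtain ⟨hpt0, hP0, _⟩ := h.pt x₀ h.mem
  have hn0 : (0 : ℝ) ≤ n := Nat.cast_nonneg n
  have hn5 : (5 : ℝ) ≤ n := by exact_mod_cast hn
  have hY := h.hY
  have hcS := cS_nonneg S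
  have hht := ht_nonneg x₀
  -- sums of the exact classes
  have hsum : ∑ i : Fin n, (rl (ex (P x₀ q) {(i : ℕ) + 1}) + 1) =
      rl (P x₀ q) - rl (ex (P x₀ q) {m | n < m}) + n := by
    rw [Finset.sum_add_distrib, Finset.sum_const, Finset.card_univ, Fintype.card_fin,
      nsmul_eq_mul, mul_one, rl_cn_sum n (P x₀ q)]
    ring
  have hlen : ∀ j, len (P x₀ j) ≤ Y + cS S := by
    intro j
    have := len_le hpt0 hP0 j
    linarith
  have htail : rl (ex (P x₀ q) {m | n < m}) ≤ δ * (Y + cS S) := by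
    have h1 := le_len_of (P x₀ q) {m | n < m} (n + 1) (fun m hm => hm)
    push_cast at h1
    have h2 := len_ex_le (P x₀ q) {m | n < m}
    have h3 : ((n : ℝ) + 1) * rl (ex (P x₀ q) {m | n < m}) ≤ Y + cS S := by
      have := hlen q
      linarith
    have h4 : rl (ex (P x₀ q) {m | n < m}) ≤ 1 / ((n : ℝ) + 1) * (Y + cS S) := by
      rw [one_div, inv_mul_eq_div, le_div_iff₀ (by positivity)]
      linarith
    refine h4.trans (mul_le_mul_of_nonneg_right hδ ?_)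
    linarith
  have hone : ∀ u : Fin 5, (u : ℕ) < 4 → ∀ x ∈ E,
      rl (ex (P x p) {(u : ℕ) + 1}) ≤ rl (ex (P x₀ p) (cls u)) + 1 := by
    intro u hu x hx
    have h1 := (abs_le.mp (close_one hn (h.close x hx) p u hu)).2
    rw [cls_lt hu] at h1 ⊢
    linarith
  have hle : ∀ u : Fin 5, rl (ex (P x₀ p) (cls u)) + 1 ≤ Y + cS S + n := by
    intro u
    have h1 := rl_ex_le (P x₀ p) (cls u)
    have h2 := hlen p
    linarith
  have hge : ∀ u : Fin 5, 0 ≤ rl (ex (P x₀ p) (cls u)) + 1 := by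
    intro u
    have h1 := rl_nonneg (ex (P x₀ p) (cls u))
    linarith
  have hmain := hEST (Y + cS S + n) E P p q r (Un F)
    (fun i => rl (ex (P x₀ q) {(i : ℕ) + 1}) + 1)
    (rl (ex (P x₀ q) {m | n < m}) + 1)
    (rl (ex (P x₀ q) (Un univ)) + 5 * (n + 5))
    (rl (ex (P x₀ p) (cls i)) + 1) (rl (ex (P x₀ p) (cls j)) + 1)
    (rl (ex (P x₀ p) (Un {i, j}ᶜ)) + 5 * (n + 5))
    (len (ex (P x₀ p) (Un {i, j}ᶜ)) + 20)
    (rl (ex (P x₀ r) (Un F)) + 5 * (n + 5))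
    (len (ex (P x₀ r) (Un F)) + ∑ v ∈ Spl S, lm v r x₀ - 20)
    (θ + 48)
    (fun j v => lm v j x₀)
    (by linarith)
    (fun x hx => by
      obtain ⟨h1, h2, h3⟩ := h.pt x hx
      exact ⟨h1, h2, by linarith⟩)
    hpq hqr hpr
    (hge i) (hle i) (hge j) (hle j)
    (fun i => by
      have := rl_nonneg (ex (P x₀ q) {(i : ℕ) + 1})
      linarith)
    (by
      rw [hsum]
      have h1 := rl_nonneg (ex (P x₀ q) {m | n < m})
      have h2 := rl_le_len (P x₀ q)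
      have h3 := hlen q
      linarith)
    (hone i hi) (hone j hj)
    (fun x hx => by
      rw [ex_compl2 _ i j hi hj]
      exact h.rl_le hn hx p _)
    (fun x hx => by
      rw [ex_compl2 _ i j hi hj]
      have := (abs_le.mp (close_len_Un hn (h.close x hx) p {i, j}ᶜ)).2
      linarith)
    (fun x hx i => by
      have h1 := (abs_le.mp ((h.close x hx).one q i)).2
      linarith)
    (fun x hx => by
      have h1 := (abs_le.mp ((h.close x hx).tail q)).2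
      linarith)
    (fun x hx => by
      have := h.rl_le hn hx q univ
      rwa [ex_univ (P x q)] at this)
    (fun x hx => h.rl_le hn hx r F)
    (fun x hx v hv j => (h.close x hx).hlm j v hv)
    (fun x hx => by
      have h1 := h.le_len hn hx r F
      linarith)
    (by
      have h1 := hTh.shift (by omega) (by omega) (by omega) (by omega)
      have h2 : len (ex (P x₀ p) (Un {i, j}ᶜ)) -
          (len (ex (P x₀ r) (Un F)) + ∑ v ∈ Spl S, lm v r x₀) + 40 =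
          len (ex (P x₀ p) (Un {i, j}ᶜ)) + 20 -
          (len (ex (P x₀ r) (Un F)) + ∑ v ∈ Spl S, lm v r x₀ - 20) := by ring
      rwa [h2] at h1)
  refine hmain.trans ?_
  rw [hsum]
  rw [ex_univ (P x₀ q)] at hR1 hR2 ⊢
  set Λ : ℝ := len (ex (P x₀ r) (Un F)) + ∑ v ∈ Spl S, lm v r x₀ with hΛ
  set ap : ℝ := rl (ex (P x₀ p) (cls i)) with hap
  set bp : ℝ := rl (ex (P x₀ p) (cls j)) with hbp
  set T : ℝ := rl (ex (P x₀ p) (Un {i, j}ᶜ)) with hT
  set c : ℝ := rl (ex (P x₀ r) (Un F)) with hc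
  have t1 := rl_nonneg (ex (P x₀ q) {m | n < m})
  set tq : ℝ := rl (ex (P x₀ q) {m | n < m}) with htq
  set V : ℝ := rl (P x₀ q) with hV
  have key1 : max 0 (3 / 2 * (V - tq + n) - (Λ - 20)) ≤
      max 0 (3 / 2 * V - Λ) + (3 / 2 * n + 20) := by
    have h4 := le_max_left 0 (3 / 2 * V - Λ)
    have h5 := le_max_right 0 (3 / 2 * V - Λ)
    refine max_le ?_ ?_ <;> linarith
  have key2 : max (θ + 48) (ap + 1 + (bp + 1) - (Λ - 20)) ≤ max θ (ap + bp - Λ) + 48 := by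
    have h4 := le_max_left θ (ap + bp - Λ)
    have h5 := le_max_right θ (ap + bp - Λ)
    refine max_le ?_ ?_ <;> linarith
  have htail0 : 0 ≤ δ * (Y + cS S) := t1.trans htail
  have e1 : D * Real.exp (ε * (Y + cS S + n) + (c + 5 * (n + 5))) * Real.exp (V + 5 * (n + 5)) ≤
      D * Real.exp (ε * (Y + cS S + n) + R + 10 * (n + 5) + δ * (Y + cS S) + (2 * n + 36)) := by
    rw [mul_assoc, ← Real.exp_add]
    refine mul_le_mul_of_nonneg_left (Real.exp_le_exp.mpr ?_) hD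
    linarith
  have e2 : D * Real.exp (ε * (Y + cS S + n) + (c + 5 * (n + 5))) *
      Real.exp (1 / 2 * (2 * (T + 5 * (n + 5)) + (ap + 1 + (bp + 1)) +
          max (θ + 48) (ap + 1 + (bp + 1) - (Λ - 20))) +
        1 / 2 * (2 * (tq + 1) + (V - tq + n) + max 0 (3 / 2 * (V - tq + n) - (Λ - 20)))) ≤
      D * Real.exp (ε * (Y + cS S + n) + R + 10 * (n + 5) + δ * (Y + cS S) + (2 * n + 36)) := by
    rw [mul_assoc, ← Real.exp_add]
    refine mul_le_mul_of_nonneg_left (Real.exp_le_exp.mpr ?_) hD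
    linarith
  calc _ = D * Real.exp (ε * (Y + cS S + n) + (c + 5 * (n + 5))) * Real.exp (V + 5 * (n + 5)) +
        D * Real.exp (ε * (Y + cS S + n) + (c + 5 * (n + 5))) *
      Real.exp (1 / 2 * (2 * (T + 5 * (n + 5)) + (ap + 1 + (bp + 1)) +
          max (θ + 48) (ap + 1 + (bp + 1) - (Λ - 20))) +
        1 / 2 * (2 * (tq + 1) + (V - tq + n) + max 0 (3 / 2 * (V - tq + n) - (Λ - 20)))) := by
        ring
    _ ≤ _ := add_le_add e1 e2
    _ = _ := by ring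

end Cases

/-- the bound for a cell -/
theorem cell2 (e : ℝ) (he : 0 ≤ e) (S : Finset (Pr K)) (n : ℕ) (hn : 5 ≤ n) (hSG : SGood S n)
    (hE : StmtEST S) (hE2 : S_EST2 S) (hDB : StmtDB S) (hM : StmtMB S) (hC : S_CERT2 e) (c₀ δ : ℝ) (hδ : 0 < δ)
    (hnδ : 1 / ((n : ℝ) + 1) ≤ δ / 8) :
    ∃ D : ℝ, 0 < D ∧ ∀ (P : K → Fin 3 → Idl K) (E : Finset K) (X : ℝ), 0 ≤ X →
      (∀ x ∈ E, Pt x ∧ IsP S x (P x) ∧ ht x ≤ X ∧
        rl (P x 0) + rl (P x 1) + rl (P x 2) ≤ ht x + c₀) →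
      (∀ x ∈ E, ∀ y ∈ E, Close S n P x y) →
      (E.card : ℝ) ≤ D * Real.exp ((e + δ / 2) * X) := by
  classical
  obtain ⟨Cc, hCc, hcert⟩ := hC
  have hε : 0 < δ / 8 := by positivity
  have hn0 : (0 : ℝ) ≤ n := Nat.cast_nonneg n
  have hSGk : ∀ k, k ≤ n → SGood S k := fun k hk i h1 h2 => hSG i h1 (h2.trans hk)
  obtain ⟨DE, hDE, hest⟩ := hE n hSG (δ / 8) hε
  have hdb : ∀ i : Fin 5, ∃ D : ℝ, 0 < D ∧ (1 ≤ (i : ℕ) →
      ∀ (X : ℝ) (E : Finset K) (P : K → Fin 3 → Idl K) (p q r : Fin 3) (c₁ c₂ c₃ : ℝ),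
      0 ≤ X → (∀ x ∈ E, Pt x ∧ IsP S x (P x) ∧ ht x ≤ X) → p ≠ q → q ≠ r → p ≠ r →
      (∀ x ∈ E, rl (ex (P x p) {m | m ≠ (i : ℕ) + 1}) ≤ c₁) →
      (∀ x ∈ E, rl (P x q) ≤ c₂) → (∀ x ∈ E, rl (P x r) ≤ c₃) →
      (E.card : ℝ) ≤ D * Real.exp (δ / 8 * X) *
        (Real.exp (c₁ + c₂) + Real.exp ((c₁ + c₂) / 2 + c₃))) := by
    intro i
    by_cases hi : 1 ≤ (i : ℕ)
    · obtain ⟨D, hD, h⟩ := hDB ((i : ℕ) + 1) (δ / 8) (by omega) hε
      exact ⟨D, hD, fun _ => h⟩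
    · exact ⟨1, one_pos, fun h => absurd h hi⟩
  choose Dd hDd hdb using hdb
  have hmb : ∀ k : Fin 5, ∃ D : ℝ, 0 < D ∧ (1 ≤ (k : ℕ) →
      ∀ (X : ℝ) (E : Finset K) (P : K → Fin 3 → Idl K) (p q r : Fin 3) (I : Fin 3 → Set ℕ)
      (c g : Fin 3 → ℝ),
      0 ≤ X → (∀ x ∈ E, Pt x ∧ IsP S x (P x) ∧ ht x ≤ X) → p ≠ q → q ≠ r → p ≠ r →
      (∀ m, 1 ≤ m → m ∉ I p → (k : ℕ) ∣ m) → (∀ m, 1 ≤ m → m ∉ I q → (k : ℕ) ∣ m) →
      (∀ x ∈ E, ∀ l, rl (ex (P x l) (I l)) ≤ c l) →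
      (∀ x ∈ E, ∀ l, g l ≤ len (ex (P x l) (I l)) + ∑ v ∈ Spl S, lm v l x) →
      (E.card : ℝ) ≤ D * Real.exp (δ / 8 * X + (c p + c q + c r) +
        max 0 (2 * X / (k : ℕ) - (g p + g q) / (k : ℕ) - g r))) := by
    intro k
    by_cases hk : 1 ≤ (k : ℕ)
    · obtain ⟨D, hD, h⟩ := hM (k : ℕ) (δ / 8) hk (hSGk k (by omega)) hε
      exact ⟨D, hD, fun _ => h⟩
    · exact ⟨1, one_pos, fun h => absurd h hk⟩
  choose Dm hDm hmb using hmb
  have hne : ∀ t : Fin 5 × Fin 5, ∃ D : ℝ, 0 < D ∧ ((t.1 : ℕ) < 4 → (t.2 : ℕ) < 4 → t.1 ≠ t.2 →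
      ∀ (X : ℝ) (E : Finset K) (P : K → Fin 3 → Idl K) (p q r : Fin 3) (F : Set ℕ)
      (ν : Fin n → ℝ) (τq Vq a b τ W c Λ θ : ℝ) (σ : Fin 3 → Pl K → ℝ),
      0 ≤ X → (∀ x ∈ E, Pt x ∧ IsP S x (P x) ∧ ht x ≤ X) → p ≠ q → q ≠ r → p ≠ r →
      0 ≤ a → a ≤ X → 0 ≤ b → b ≤ X → (∀ i, 0 ≤ ν i) → ∑ i, ν i ≤ X →
      (∀ x ∈ E, rl (ex (P x p) {(t.1 : ℕ) + 1}) ≤ a) →
      (∀ x ∈ E, rl (ex (P x p) {(t.2 : ℕ) + 1}) ≤ b) →
      (∀ x ∈ E, rl (ex (P x p) {m | m ≠ (t.1 : ℕ) + 1 ∧ m ≠ (t.2 : ℕ) + 1}) ≤ τ) →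
      (∀ x ∈ E, len (ex (P x p) {m | m ≠ (t.1 : ℕ) + 1 ∧ m ≠ (t.2 : ℕ) + 1}) ≤ W) →
      (∀ x ∈ E, ∀ i : Fin n, rl (ex (P x q) {(i : ℕ) + 1}) ≤ ν i) →
      (∀ x ∈ E, rl (ex (P x q) {m | n < m}) ≤ τq) →
      (∀ x ∈ E, rl (P x q) ≤ Vq) →
      (∀ x ∈ E, rl (ex (P x r) F) ≤ c) →
      (∀ x ∈ E, ∀ v ∈ Spl S, ∀ j, |lm v j x - σ j v| ≤ 1) →
      (∀ x ∈ E, Λ ≤ len (ex (P x r) F) + ∑ v ∈ Spl S, σ r v) →
      Th ((t.1 : ℕ) + 1) ((t.2 : ℕ) + 1) a b (W - Λ) θ →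
      (E.card : ℝ) ≤ D * Real.exp (δ / 8 * X + c) * (Real.exp Vq +
        Real.exp (1 / 2 * (2 * τ + (a + b) + max θ (a + b - Λ)) +
          1 / 2 * (2 * τq + ∑ i, ν i + max 0 (3 / 2 * ∑ i, ν i - Λ))))) := by
    rintro ⟨i, j⟩
    by_cases hij : (i : ℕ) < 4 ∧ (j : ℕ) < 4 ∧ i ≠ j
    · obtain ⟨hi, hj, hne⟩ := hij
      obtain ⟨D, hD, h⟩ := hE2 n ((i : ℕ) + 1) ((j : ℕ) + 1) hSG (by omega) (by omega)
        (fun h => hne (Fin.ext (by omega))) (hSGk _ (by omega)) (hSGk _ (by omega)) (δ / 8) hε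
      exact ⟨D, hD, fun _ _ _ => h⟩
    · exact ⟨1, one_pos, fun h1 h2 h3 => absurd ⟨h1, h2, h3⟩ hij⟩
  choose Dn hDn hne using hne
  set D0 : ℝ := DE + 2 * ∑ i, Dd i + ∑ k, Dm k + 2 * ∑ t, Dn t with hD0
  have hDnle : ∀ t, Dn t ≤ ∑ t, Dn t := fun t =>
    Finset.single_le_sum (f := Dn) (fun j _ => (hDn j).le) (Finset.mem_univ t)
  have hDs3 : 0 ≤ ∑ t, Dn t := Finset.sum_nonneg fun j _ => (hDn j).le
  have hDdle : ∀ i, Dd i ≤ ∑ i, Dd i := fun i =>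
    Finset.single_le_sum (f := Dd) (fun j _ => (hDd j).le) (Finset.mem_univ i)
  have hDmle : ∀ i, Dm i ≤ ∑ i, Dm i := fun i =>
    Finset.single_le_sum (f := Dm) (fun j _ => (hDm j).le) (Finset.mem_univ i)
  have hDs : 0 ≤ ∑ i, Dd i := Finset.sum_nonneg fun j _ => (hDd j).le
  have hDs' : 0 ≤ ∑ i, Dm i := Finset.sum_nonneg fun j _ => (hDm j).le
  have hD00 : 0 < D0 := by positivity
  have hcS := cS_nonneg S
  set η : ℝ := 1 + cS S + |c₀| with hη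
  have hη0 : 0 ≤ η := by positivity
  set G : ℝ := ((Spl S).card : ℝ) with hG
  have hG0 : 0 ≤ G := by positivity
  set K0 : ℝ := Cc * η + 3 * (5 * (n + 5)) + 3 * (20 + G) + δ * (cS S + n) + (3 * n + 25) with hK0
  have hK00 : 0 ≤ K0 := by positivity
  refine ⟨D0 * Real.exp (K0 + (e + δ / 2)), by positivity, ?_⟩
  intro P E X hX hEx hcl
  rcases E.eq_empty_or_nonempty with rfl | ⟨x₀, hx₀⟩
  · rw [Finset.card_empty, Nat.cast_zero]
    positivity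
  obtain ⟨hpt0, hP0, hht0, hrl0⟩ := hEx x₀ hx₀
  have hcell : IsCell S n c₀ (ht x₀ + 1) E P x₀ := by
    refine ⟨hx₀, rfl, fun x hx => ?_, hrl0, fun x hx => hcl x hx x₀ hx₀⟩
    obtain ⟨h1, h2, _⟩ := hEx x hx
    have h3 := (abs_le.mp (hcl x hx x₀ hx₀).hht).2
    exact ⟨h1, h2, by linarith⟩
  set Y : ℝ := ht x₀ + 1 with hY
  have hhtn := ht_nonneg x₀
  have hY0 : 0 ≤ Y := hcell.Y_nonneg
  suffices hmain : (E.card : ℝ) ≤ D0 * Real.exp (K0 + (e + δ / 2) * Y) by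
    refine hmain.trans ?_
    rw [mul_assoc, ← Real.exp_add]
    refine mul_le_mul_of_nonneg_left (Real.exp_le_exp.mpr ?_) hD00.le
    have h1 : (e + δ / 2) * Y ≤ (e + δ / 2) * (X + 1) :=
      mul_le_mul_of_nonneg_left (by linarith) (by positivity)
    linarith
  -- the certificate
  set s : Fin 3 → ℝ := fun l => ∑ v ∈ Spl S, lm v l x₀ with hs
  have hc := hcert Y η (fun l i => rl (ex (P x₀ l) (cls i))) (fun l => len (ex (P x₀ l) (cls 4))) s
    hY0 hη0 (fun l i => rl_nonneg _)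
    (fun l => by
      have h1 := le_len_of (P x₀ l) (cls 4) 5 (fun m hm => by
        rw [cls_four] at hm; exact hm)
      exact_mod_cast h1)
    (fun l => by
      have h1 := sum_lm_ge (S := S) hpt0 l
      have h2 := abs_nonneg c₀
      have h3 : s l = ∑ v ∈ Spl S, lm v l x₀ := rfl
      rw [h3]
      linarith)
    (fun l => by
      rw [WW_eq, ex_univ]
      have h1 := sum_lm hpt0 hP0 l
      have h3 : s l = ∑ v ∈ Spl S, lm v l x₀ := rfl
      rw [h3, h1, hY]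
      have h2 := abs_nonneg c₀
      have h4 : ht x₀ - (ht x₀ + 1) = -1 := by ring
      rw [h4, abs_neg, abs_one]
      linarith)
    (by
      rw [VV_eq, VV_eq, VV_eq, ex_univ, ex_univ, ex_univ]
      have h2 := le_abs_self c₀
      linarith)
  simp only [VV_eq, WW_eq] at hc
  rcases hc with ⟨p, q, r, k, I, hpq, hqr, hpr, hk1, hk4, hIp, hIq, hin⟩ |
    ⟨p, q, r, F, hpq, hqr, hpr, hin⟩ | ⟨p, q, r, i, hpq, hqr, hpr, hi1, hi4, hin1, hin2⟩ |
    ⟨p, q, r, F, i, j, θ, hpq, hqr, hpr, hi4, hj4, hij, hTh, hin1, hin2⟩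
  · have h1 := case_M hn hcell (k := k) (hDm ⟨k, by omega⟩).le
      (hmb ⟨k, by omega⟩ hk1) hpq hqr hpr hk1 hIp hIq hin
    refine h1.trans ?_
    have h2 : Dm ⟨k, by omega⟩ ≤ D0 := by
      have := hDmle ⟨k, by omega⟩
      linarith
    refine mul_le_mul h2 (Real.exp_le_exp.mpr ?_) (Real.exp_pos _).le hD00.le
    have h3 : 0 ≤ δ * (cS S + n) := by positivity
    have h4 : δ / 8 * Y ≤ δ / 2 * Y := mul_le_mul_of_nonneg_right (by linarith) hY0
    have h5 : (e + δ / 2) * Y = e * Y + δ / 2 * Y := by ring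
    rw [h5, hK0]
    linarith
  · have h1 := case_S hn hcell hDE.le hest hpq hqr hpr hnδ hin
    refine h1.trans ?_
    have h2 : DE ≤ D0 := by linarith
    refine mul_le_mul h2 (Real.exp_le_exp.mpr ?_) (Real.exp_pos _).le hD00.le
    have h3 : 0 ≤ δ * cS S := by positivity
    have h3' : 0 ≤ δ * (n : ℝ) := by positivity
    have h3'' : 0 ≤ δ * Y := by positivity
    have h6 : K0 = Cc * η + 3 * (5 * (n + 5)) + 3 * (20 + G) + (δ * cS S + δ * n) +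
      (3 * n + 25) := by rw [hK0]; ring
    have h7 : δ / 8 * (Y + cS S + n) = (δ * Y) / 8 + (δ * cS S) / 8 + (δ * n) / 8 := by ring
    have h8 : 2 * (δ / 8 * (Y + cS S)) = (δ * Y) / 4 + (δ * cS S) / 4 := by ring
    have h9 : (e + δ / 2) * Y = e * Y + (δ * Y) / 2 := by ring
    rw [h6, h7, h8, h9]
    linarith
  · have h1 := case_D hn hcell hi4 (hDd i).le (hdb i hi1) hpq hqr hpr hin1 hin2
    refine h1.trans ?_
    have h2 : 2 * Dd i ≤ D0 := by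
      have := hDdle i
      linarith
    refine mul_le_mul h2 (Real.exp_le_exp.mpr ?_) (Real.exp_pos _).le hD00.le
    have h3 : 0 ≤ δ * (cS S + n) := by positivity
    have h4 : δ / 8 * Y ≤ δ / 2 * Y := mul_le_mul_of_nonneg_right (by linarith) hY0
    have h5 : (e + δ / 2) * Y = e * Y + δ / 2 * Y := by ring
    rw [h5, hK0]
    linarith
  · have h1 := case_N hn hcell (hDn (i, j)).le hi4 hj4 (hne (i, j) hi4 hj4 hij) hpq hqr hpr hnδ
      hTh hin1 hin2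
    refine h1.trans ?_
    have h2 : 2 * Dn (i, j) ≤ D0 := by
      have := hDnle (i, j)
      linarith
    refine mul_le_mul h2 (Real.exp_le_exp.mpr ?_) (Real.exp_pos _).le hD00.le
    have h3 : 0 ≤ δ * cS S := by positivity
    have h3' : 0 ≤ δ * (n : ℝ) := by positivity
    have h3'' : 0 ≤ δ * Y := by positivity
    have h6 : K0 = Cc * η + 3 * (5 * (n + 5)) + 3 * (20 + G) + (δ * cS S + δ * n) +
      (3 * n + 25) := by rw [hK0]; ring
    have h7 : δ / 8 * (Y + cS S + n) = (δ * Y) / 8 + (δ * cS S) / 8 + (δ * n) / 8 := by ring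
    have h8 : δ / 8 * (Y + cS S) = (δ * Y) / 8 + (δ * cS S) / 8 := by ring
    have h9 : (e + δ / 2) * Y = e * Y + (δ * Y) / 2 := by ring
    rw [h6, h7, h8, h9]
    linarith

/-- FIN2: the final count -/
theorem fin2 {K : Type} [Field K] [NumberField K] : S_FIN2 K := by
  classical
  intro e he hU hE hE2 hD hM hC T c₀ δ hδ
  -- the number of exact classes
  obtain ⟨n, hn, hnδ⟩ : ∃ n : ℕ, 5 ≤ n ∧ 1 / ((n : ℝ) + 1) ≤ δ / 8 := by
    refine ⟨max 5 ⌈8 / δ⌉₊, le_max_left _ _, ?_⟩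
    have h1 : 8 / δ ≤ ((max 5 ⌈8 / δ⌉₊ : ℕ) : ℝ) + 1 := by
      have h2 := Nat.le_ceil (8 / δ)
      have h3 : ((⌈8 / δ⌉₊ : ℕ) : ℝ) ≤ ((max 5 ⌈8 / δ⌉₊ : ℕ) : ℝ) := by
        exact_mod_cast le_max_right _ _
      linarith
    have h2 : 0 < 8 / δ := by positivity
    have h3 : 1 / (((max 5 ⌈8 / δ⌉₊ : ℕ) : ℝ) + 1) ≤ 1 / (8 / δ) :=
      one_div_le_one_div_of_le h2 h1
    rwa [one_div_div] at h3
  -- the set of special primes
  have hfin : ∀ i : ℕ, {v : Pr K | 1 ≤ i ∧ fv v (i : K) ≠ 1}.Finite := by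
    intro i
    by_cases hi : 1 ≤ i
    · refine (fv_support_finite (K := K) (x := (i : K)) ?_).subset fun v hv => hv.2
      exact_mod_cast (by omega : i ≠ 0)
    · refine Set.Finite.subset Set.finite_empty fun v hv => absurd hv.1 hi
  obtain ⟨S, hS, w, C, hw⟩ := hU (T ∪ (Finset.range (n + 1)).biUnion fun i => (hfin i).toFinset)
  have hTS : T ⊆ S := Finset.subset_union_left.trans hS
  have hSG : SGood S n := by
    intro i h1 h2 v hv
    by_contra hcon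
    apply hv
    apply hS
    rw [Finset.mem_union, Finset.mem_biUnion]
    right
    exact ⟨i, Finset.mem_range.mpr (by omega), by
      rw [Set.Finite.mem_toFinset]; exact ⟨h1, hcon⟩⟩
  obtain ⟨D1, hD1, hcell⟩ := cell2 e he S n hn hSG (hE S w C hw) (hE2 S w C hw)
    (hD S w C hw) (hM S) hC c₀ δ hδ hnδ
  obtain ⟨D2, hD2, hcount⟩ := cells (Unit ⊕ (Fin 3 × (Fin n ⊕ (Bool ⊕ {v // v ∈ Spl S}))))
    (cS S) (δ / 2) (cS_nonneg S) (by positivity)
  refine ⟨D2 * D1, by positivity, ?_⟩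
  intro X E hX hEx
  have hex : ∀ x : K, ∃ P : Fin 3 → Idl K, x ∈ E →
      (IsP S x P ∧ rl (P 0) + rl (P 1) + rl (P 2) ≤ ht x + c₀) := by
    intro x
    by_cases hx : x ∈ E
    · obtain ⟨_, _, P, hP, hrl⟩ := hEx x hx
      refine ⟨fun l => (P l).filter (fun v => v ∉ S), fun _ => ⟨restrict_isP hTS hP, ?_⟩⟩
      have h0 := rl_filter_le S (P 0)
      have h1 := rl_filter_le S (P 1)
      have h2 := rl_filter_le S (P 2)
      linarith
    · exact ⟨fun _ => 0, fun h => absurd h hx⟩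
  choose P hP using hex
  have hmain := hcount K (cf S n P) X E hX ?_ (D1 * Real.exp ((e + δ / 2) * X)) (by positivity) ?_
  · refine hmain.trans (le_of_eq ?_)
    have h1 : (e + δ) * X = δ / 2 * X + (e + δ / 2) * X := by ring
    rw [h1, Real.exp_add]
    ring
  · intro x hx j
    obtain ⟨hpt, hht, _⟩ := hEx x hx
    obtain ⟨hPx, _⟩ := hP x hx
    have hcS := cS_nonneg S
    have hlen : ∀ l, len (P x l) ≤ X + cS S := fun l => by
      have := len_le hpt hPx l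
      linarith
    rcases j with _ | ⟨l, i | (b | v)⟩
    · show -cS S ≤ ht x ∧ ht x ≤ X + cS S
      have := ht_nonneg x
      constructor <;> linarith
    · show -cS S ≤ rl (ex (P x l) {(i : ℕ) + 1}) ∧ rl (ex (P x l) {(i : ℕ) + 1}) ≤ X + cS S
      have h1 := rl_nonneg (ex (P x l) {(i : ℕ) + 1})
      have h2 := rl_ex_le (P x l) {(i : ℕ) + 1}
      have h3 := hlen l
      constructor <;> linarith
    · rcases b with _ | _
      · show -cS S ≤ len (ex (P x l) {m | 5 ≤ m}) ∧ len (ex (P x l) {m | 5 ≤ m}) ≤ X + cS S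
        have h1 := len_nonneg (ex (P x l) {m | 5 ≤ m})
        have h2 := len_ex_le (P x l) {m | 5 ≤ m}
        have h3 := hlen l
        constructor <;> linarith
      · show -cS S ≤ rl (ex (P x l) {m | n < m}) ∧ rl (ex (P x l) {m | n < m}) ≤ X + cS S
        have h1 := rl_nonneg (ex (P x l) {m | n < m})
        have h2 := rl_ex_le (P x l) {m | n < m}
        have h3 := hlen l
        constructor <;> linarith
    · show -cS S ≤ lm v.1 l x ∧ lm v.1 l x ≤ X + cS S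
      have h1 := lm_ge hpt v.1 l
      have h2 := lm_le hpt v.2 l
      have h3 : mt v.1 * Real.log 2 ≤ cS S :=
        Finset.single_le_sum (f := fun u : Pl K => mt u * Real.log 2)
          (fun u _ => mul_nonneg (mt_pos u).le (Real.log_nonneg (by norm_num))) v.2
      constructor <;> linarith
  · intro G hGE hG
    refine hcell P G X hX ?_ ?_
    · intro x hx
      obtain ⟨hpt, hht, _⟩ := hEx x (hGE hx)
      obtain ⟨hPx, hrl⟩ := hP x (hGE hx)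
      exact ⟨hpt, hPx, hht, hrl⟩
    · intro x hx y hy
      exact ⟨hG (Sum.inl ()) x hx y hy,
        fun l i => hG (Sum.inr (l, Sum.inl i)) x hx y hy,
        fun l => hG (Sum.inr (l, Sum.inr (Sum.inl true))) x hx y hy,
        fun l => hG (Sum.inr (l, Sum.inr (Sum.inl false))) x hx y hy,
        fun l v hv => hG (Sum.inr (l, Sum.inr (Sum.inr ⟨v, hv⟩))) x hx y hy⟩

end Pool.Agent.Helper45.AB
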