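import Pool.Agent.Helper45.AB.Defs
import Pool.Graph.R_seed8.W16.TR.Emb

/-!
The exceptional set in the abc conjecture over the integers of `ℚ(√5)`: from `StmtFIN` to the
count of triples of integers.
-/

set_option autoImplicit false

namespace Pool.Agent.Helper45.AB

open NumberField IsDedekindDomain Pool.Agent.W223.AK

section

variable {K : Type} [Field K] [NumberField K]

/-- the triples in lowest terms with `a + b + c = 0` and `abc ≠ 0` -/
structure Triple (t : 𝓞 K × 𝓞 K × 𝓞 K) : Prop where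
  sum : t.1 + t.2.1 + t.2.2 = 0
  ne : t.1 * t.2.1 * t.2.2 ≠ 0
  cop : Ideal.span {t.1, t.2.1, t.2.2} = (⊤ : Ideal (𝓞 K))

/-- the height `H(a, b, c)`: the product over the field embeddings `φ : K → ℂ` (two real ones when
`K = ℚ(√5)`) of `max (|φ a|, |φ b|, |φ c|)` -/
noncomputable def height (t : 𝓞 K × 𝓞 K × 𝓞 K) : ℝ :=
  ∏ φ : K →+* ℂ, max ‖φ t.1‖ (max ‖φ t.2.1‖ ‖φ t.2.2‖)

/-- the radical: the product of the norms of the prime ideals dividing `abc` -/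
noncomputable def rad (t : 𝓞 K × 𝓞 K × 𝓞 K) : ℝ :=
  ∏ᶠ (P : HeightOneSpectrum (𝓞 K)) (_ : t.1 * t.2.1 * t.2.2 ∈ P.asIdeal),
    (Ideal.absNorm P.asIdeal : ℝ)

end

/-- `StmtFIN` for an exponent `e` gives the count of the triples of integers, up to units -/
theorem finq_gen {K : Type} [Field K] [NumberField K] {e : ℝ} (h : StmtFIN K e) :
    ∀ κ ε : ℝ, 0 < ε → ∃ C : ℝ, ∀ X : ℝ, 1 ≤ X →
      ∀ E : Finset (𝓞 K × 𝓞 K × 𝓞 K),
        (∀ t ∈ E, Triple t ∧ height t ≤ X ∧ rad t ≤ κ * height t) →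
        (∀ t ∈ E, ∀ s ∈ E, ∀ u : (𝓞 K)ˣ, s = (u * t.1, u * t.2.1, u * t.2.2) → s = t) →
        (E.card : ℝ) ≤ C * X ^ (e + ε : ℝ) := by
  intro κ ε hε
  obtain ⟨D, _, h⟩ := Pool.Agent.W16.TR.cop_count' h κ ε hε
  refine ⟨D, fun X hX E hE hun => h X E hX ?_ ?_⟩
  · intro t ht
    obtain ⟨h1, h2, h3⟩ := hE t ht
    exact ⟨h1.cop, h1.sum, h1.ne, h2, h3⟩
  · intro t ht s hs u h0 h1 h2
    exact (hun t ht s hs u (Prod.ext h0 (Prod.ext h1 h2))).symm

/-- Let `K = ℚ(√5)` and `𝓞 K = ℤ[(1 + √5) / 2]` its ring of integers. For all `κ` and `ε > 0` there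
is `C` such that, for `X ≥ 1`, any set of triples `a + b + c = 0` in lowest terms, no two of them
differing by a unit, with height `H ≤ X` and `rad ≤ κ H`, has at most `C X ^ (8 / 15 + ε)`
elements. -/
theorem finq (h : ∀ (K : Type) [Field K] [NumberField K], StmtFIN K (8 / 15)) :
    ∀ (K : Type) [Field K] [NumberField K], Module.finrank ℚ K = 2 →
    (∃ s : K, s ^ 2 = 5) → ∀ κ ε : ℝ, 0 < ε → ∃ C : ℝ, ∀ X : ℝ, 1 ≤ X →
      ∀ E : Finset (𝓞 K × 𝓞 K × 𝓞 K),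
        (∀ t ∈ E, Triple t ∧ height t ≤ X ∧ rad t ≤ κ * height t) →
        (∀ t ∈ E, ∀ s ∈ E, ∀ u : (𝓞 K)ˣ, s = (u * t.1, u * t.2.1, u * t.2.2) → s = t) →
        (E.card : ℝ) ≤ C * X ^ (8 / 15 + ε : ℝ) := by
  intro K _ _ _ _
  exact finq_gen (h K)

end Pool.Agent.Helper45.AB
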