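import Pool.Graph.R_seed8.W249.AK.TW
import Pool.Agent.Helper45.AB.Defs

/-!
# AB-OFF: two-variable energy off the diagonal
-/

set_option autoImplicit false
set_option linter.unusedSectionVars false

namespace Pool.Agent.Helper45.AB

open NumberField IsDedekindDomain Finset Pool.Agent.H691R3 Pool.Agent.W223.AK Pool.Agent.W249.AK

variable {K : Type} [Field K] [NumberField K]

theorem off_loss {k l : ℕ} (hk : 1 ≤ k) (hl : 1 ≤ l) {a b u v ζ θ : ℝ} (hua : u ≤ a) (hvb : v ≤ b)
    (hTh : Th k l a b ζ θ) (hlow : 0 ≤ k * u + l * v + ζ) :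
    (u ≤ v → u - v ≤ θ) ∧ (v ≤ u → v - u ≤ θ) := by
  have hk' : (1 : ℝ) ≤ k := by exact_mod_cast hk
  have hl' : (1 : ℝ) ≤ l := by exact_mod_cast hl
  constructor
  · intro huv
    rcases hTh with h | ⟨h, -⟩ | ⟨h, -⟩
    · linarith
    · have h1 : ((k : ℝ) + l) * u ≤ ((k : ℝ) + l) * a :=
        mul_le_mul_of_nonneg_left hua (by linarith)
      have h2 : (l : ℝ) * (u - v) ≤ l * θ := by nlinarith
      exact le_of_mul_le_mul_left h2 (by linarith)
    · have h1 : ((k : ℝ) + l) * u ≤ ((k : ℝ) + l) * b :=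
        mul_le_mul_of_nonneg_left (huv.trans hvb) (by linarith)
      have h2 : (l : ℝ) * (u - v) ≤ l * θ := by nlinarith
      exact le_of_mul_le_mul_left h2 (by linarith)
  · intro hvu
    rcases hTh with h | ⟨-, h⟩ | ⟨-, h⟩
    · linarith
    · have h1 : ((k : ℝ) + l) * v ≤ ((k : ℝ) + l) * a :=
        mul_le_mul_of_nonneg_left (hvu.trans hua) (by linarith)
      have h2 : (k : ℝ) * (v - u) ≤ k * θ := by nlinarith
      exact le_of_mul_le_mul_left h2 (by linarith)
    · have h1 : ((k : ℝ) + l) * v ≤ ((k : ℝ) + l) * b :=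
        mul_le_mul_of_nonneg_left hvb (by linarith)
      have h2 : (k : ℝ) * (v - u) ≤ k * θ := by nlinarith
      exact le_of_mul_le_mul_left h2 (by linarith)

theorem combine' {M u v Λ N : ℝ} (hM : 0 ≤ M) {k l : ℕ} (hk : 1 ≤ k) (hl : 1 ≤ l) {a b ζ θ : ℝ}
    (hua : u ≤ a) (hvb : v ≤ b) (hTh : Th k l a b ζ θ) (hlow : 0 ≤ k * u + l * v + ζ)
    (h1 : N ≤ Real.exp (2 * u) * (M * (1 + Real.exp (2 * v - Λ))))
    (h2 : N ≤ Real.exp (2 * v) * (M * (1 + Real.exp (2 * u - Λ)))) :
    N ≤ M * (Real.exp (u + v) * (Real.exp θ + Real.exp (u + v - Λ))) := by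
  obtain ⟨hA, hB⟩ := off_loss hk hl hua hvb hTh hlow
  have e1 : Real.exp (u + v) * Real.exp (u + v - Λ) = Real.exp (2 * u + 2 * v - Λ) := by
    rw [← Real.exp_add]; ring_nf
  rcases le_total u v with huv | huv
  · have e2 : Real.exp (2 * u) * Real.exp (2 * v - Λ) = Real.exp (2 * u + 2 * v - Λ) := by
      rw [← Real.exp_add]; ring_nf
    have e3 : Real.exp (2 * u) ≤ Real.exp (u + v) * Real.exp θ := by
      rw [← Real.exp_add]
      exact Real.exp_le_exp.mpr (by linarith [hA huv])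
    calc N ≤ M * (Real.exp (2 * u) + Real.exp (2 * u) * Real.exp (2 * v - Λ)) := by
          refine h1.trans (le_of_eq ?_); ring
      _ ≤ M * (Real.exp (u + v) * Real.exp θ + Real.exp (u + v) * Real.exp (u + v - Λ)) := by
          refine mul_le_mul_of_nonneg_left ?_ hM
          rw [e1, e2]; linarith
      _ = _ := by ring
  · have e2 : Real.exp (2 * v) * Real.exp (2 * u - Λ) = Real.exp (2 * u + 2 * v - Λ) := by
      rw [← Real.exp_add]; ring_nf
    have e3 : Real.exp (2 * v) ≤ Real.exp (u + v) * Real.exp θ := by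
      rw [← Real.exp_add]
      exact Real.exp_le_exp.mpr (by linarith [hB huv])
    calc N ≤ M * (Real.exp (2 * v) + Real.exp (2 * v) * Real.exp (2 * u - Λ)) := by
          refine h2.trans (le_of_eq ?_); ring
      _ ≤ M * (Real.exp (u + v) * Real.exp θ + Real.exp (u + v) * Real.exp (u + v - Λ)) := by
          refine mul_le_mul_of_nonneg_left ?_ hM
          rw [e1, e2]; linarith
      _ = _ := by ring

theorem off {S : Finset (Pr K)} {w : Pr K → K} (hP : StmtP1 S w) (hC : StmtCNT K) (hG : StmtGCD K)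
    (hne : ∀ v, w v ≠ 0) : S_OFF S w := by
  classical
  intro k l hk hl hSk hSl ε A hε hA
  have hε' : 0 < ε / 5 := by positivity
  obtain ⟨Dl, hDl, hPl⟩ := hP l hl hSl (ε / 5) A hε' hA
  obtain ⟨Dk, hDk, hPk⟩ := hP k hk hSk (ε / 5) A hε' hA
  obtain ⟨D₂, hD₂, hC₂⟩ := hC (ε / 5) hε'
  obtain ⟨D₃, hD₃, hG₃⟩ := hG (ε / 5) hε'
  set ε₁ := ε / 5 with hε₁
  refine ⟨D₃ ^ 2 * (D₂ ^ 2 * (Dk + Dl)), by positivity, ?_⟩
  intro X a b z θ f V σ y₀ Q ha haX hb hbX hf hfX hV hσ hy hTh hQ
  have hX : 0 ≤ X := ha.trans haX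
  -- the two infima
  set g : ((Idl K × Idl K) × (Idl K × Idl K)) → Idl K × Idl K :=
    fun t => (t.1.1 ⊓ t.1.2, t.2.1 ⊓ t.2.2) with hg
  set M : ℝ := D₂ ^ 2 * (Dk + Dl) * Real.exp (3 * ε₁ * X) with hM
  have hM0 : 0 ≤ M := by positivity
  set Λ := lenM f V σ with hΛ
  have hfib : ∀ p ∈ Q.image g, ((Q.filter (fun t => g t = p)).card : ℝ) ≤
      M * (Real.exp ((a - len p.1) + (b - len p.2)) *
        (Real.exp θ + Real.exp ((a - len p.1) + (b - len p.2) - Λ))) := by
    intro p hp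
    obtain ⟨t₀, ht₀, ht₀p⟩ := Finset.mem_image.mp hp
    have hda : len p.1 ≤ a := by
      rw [← ht₀p]
      exact (len_mono inf_le_left).trans (hQ t₀ ht₀).1.2.2
    have hdb : len p.2 ≤ b := by
      rw [← ht₀p]
      exact (len_mono inf_le_left).trans (hQ t₀ ht₀).2.2.1.2.2
    have hp1 := len_nonneg p.1
    have hp2 := len_nonneg p.2
    have hlow : Λ ≤ k * (a - len p.1) + l * (b - len p.2) + z := by
      have h1 := (hQ t₀ ht₀).2.2.2.2.1
      have e1 : t₀.1.1 ⊓ t₀.1.2 = p.1 := by rw [← ht₀p]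
      have e2 : t₀.2.1 ⊓ t₀.2.2 = p.2 := by rw [← ht₀p]
      rw [e1, e2] at h1
      have h2 : (k : ℝ) * (len t₀.1.2 - len p.1) ≤ k * (a - len p.1) :=
        mul_le_mul_of_nonneg_left (by linarith [(hQ t₀ ht₀).2.1.2.2]) (Nat.cast_nonneg k)
      have h3 : (l : ℝ) * (len t₀.2.2 - len p.2) ≤ l * (b - len p.2) :=
        mul_le_mul_of_nonneg_left (by linarith [(hQ t₀ ht₀).2.2.2.1.2.2]) (Nat.cast_nonneg l)
      linarith
    -- the reduced set
    have key : ∀ t ∈ Q.filter (fun t => g t = p),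
        (OffS S (redu t.1).1 ∧ OffS S (redu t.1).2 ∧ Cop (redu t.1).1 f ∧ Cop (redu t.1).2 f ∧
          Cop (redu t.1).1 (redu t.1).2 ∧ len (redu t.1).1 ≤ a - len p.1 ∧
          len (redu t.1).2 ≤ a - len p.1) ∧
        (OffS S (redu t.2).1 ∧ OffS S (redu t.2).2 ∧ Cop (redu t.2).1 f ∧ Cop (redu t.2).2 f ∧
          Cop (redu t.2).1 (redu t.2).2 ∧ len (redu t.2).1 ≤ b - len p.2 ∧
          len (redu t.2).2 ≤ b - len p.2) ∧
        Cl f V σ A (y₀ * (gen w (redu t.1).1 / gen w (redu t.1).2) ^ k *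
          (gen w (redu t.2).1 / gen w (redu t.2).2) ^ l) := by
      intro t ht
      obtain ⟨htQ, htp⟩ := Finset.mem_filter.mp ht
      obtain ⟨⟨a1, a2, a3⟩, ⟨b1, b2, b3⟩, ⟨c1, c2, c3⟩, ⟨d1, d2, d3⟩, -, hcl⟩ := hQ t htQ
      have e1 : t.1.1 ⊓ t.1.2 = p.1 := by rw [← htp]
      have e2 : t.2.1 ⊓ t.2.2 = p.2 := by rw [← htp]
      rw [redu_gen hne, redu_gen hne t.2] at hcl
      refine ⟨⟨a1.mono (redu_le_fst _), b1.mono (redu_le_snd _), a2.mono_left (redu_le_fst _),
        b2.mono_left (redu_le_snd _), redu_cop _, ?_, ?_⟩,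
        ⟨c1.mono (redu_le_fst _), d1.mono (redu_le_snd _), c2.mono_left (redu_le_fst _),
        d2.mono_left (redu_le_snd _), redu_cop _, ?_, ?_⟩, hcl⟩
      · rw [redu_len_fst, e1]; linarith
      · rw [redu_len_snd, e1]; linarith
      · rw [redu_len_fst, e2]; linarith
      · rw [redu_len_snd, e2]; linarith
    have inj : ∀ t ∈ Q.filter (fun t => g t = p), ∀ t' ∈ Q.filter (fun t => g t = p),
        redu t.1 = redu t'.1 → redu t.2 = redu t'.2 → t = t' := by
      intro t ht t' ht' h1 h2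
      have htp := (Finset.mem_filter.mp ht).2
      have htp' := (Finset.mem_filter.mp ht').2
      have e := htp.trans htp'.symm
      exact Prod.ext (redu_inj h1 (congrArg Prod.fst e)) (redu_inj h2 (congrArg Prod.snd e))
    -- first bound
    have B1 : ((Q.filter (fun t => g t = p)).card : ℝ) ≤
        (D₂ * Real.exp ((a - len p.1) + ε₁ * X)) ^ 2 *
          (Dl * Real.exp (ε₁ * X) * (1 + Real.exp (2 * (b - len p.2) - Λ))) := by
      have hinj : Set.InjOn
          (fun t : (Idl K × Idl K) × (Idl K × Idl K) => (redu t.1, redu t.2))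
          (Q.filter (fun t => g t = p) : Set _) := by
        intro t ht t' ht' h
        exact inj t (Finset.mem_coe.mp ht) t' (Finset.mem_coe.mp ht')
          (congrArg Prod.fst h) (congrArg Prod.snd h)
      rw [← Finset.card_image_of_injOn hinj]
      refine half (k := k) hne hDl.le hC₂ hPl hX (by linarith) (by linarith) (by linarith)
        f V σ y₀ hf hfX hV hσ hy _ ?_
      intro r hr
      obtain ⟨t, ht, rfl⟩ := Finset.mem_image.mp hr
      obtain ⟨h1, h2, h3⟩ := key t ht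
      exact ⟨⟨h1.2.2.2.2.2.1, h1.2.2.2.2.2.2⟩, h2, h3⟩
    have B2 : ((Q.filter (fun t => g t = p)).card : ℝ) ≤
        (D₂ * Real.exp ((b - len p.2) + ε₁ * X)) ^ 2 *
          (Dk * Real.exp (ε₁ * X) * (1 + Real.exp (2 * (a - len p.1) - Λ))) := by
      have hinj : Set.InjOn
          (fun t : (Idl K × Idl K) × (Idl K × Idl K) => (redu t.2, redu t.1))
          (Q.filter (fun t => g t = p) : Set _) := by
        intro t ht t' ht' h
        exact inj t (Finset.mem_coe.mp ht) t' (Finset.mem_coe.mp ht')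
          (congrArg Prod.snd h) (congrArg Prod.fst h)
      rw [← Finset.card_image_of_injOn hinj]
      refine half (k := l) hne hDk.le hC₂ hPk hX (by linarith) (by linarith) (by linarith)
        f V σ y₀ hf hfX hV hσ hy _ ?_
      intro r hr
      obtain ⟨t, ht, rfl⟩ := Finset.mem_image.mp hr
      obtain ⟨h1, h2, h3⟩ := key t ht
      refine ⟨⟨h2.2.2.2.2.2.1, h2.2.2.2.2.2.2⟩, h1, ?_⟩
      have e : y₀ * (gen w (redu t.2).1 / gen w (redu t.2).2) ^ l *
          (gen w (redu t.1).1 / gen w (redu t.1).2) ^ k =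
          y₀ * (gen w (redu t.1).1 / gen w (redu t.1).2) ^ k *
          (gen w (redu t.2).1 / gen w (redu t.2).2) ^ l := by ring
      show Cl f V σ A (y₀ * (gen w (redu t.2).1 / gen w (redu t.2).2) ^ l *
          (gen w (redu t.1).1 / gen w (redu t.1).2) ^ k)
      rw [e]; exact h3
    refine combine' hM0 hk hl (by linarith) (by linarith) (ζ := z - Λ) hTh (by linarith) ?_ ?_
    · refine B1.trans ?_
      have e1 : (D₂ * Real.exp ((a - len p.1) + ε₁ * X)) ^ 2 *
          (Dl * Real.exp (ε₁ * X) * (1 + Real.exp (2 * (b - len p.2) - Λ))) =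
          Real.exp (2 * (a - len p.1)) * ((D₂ ^ 2 * Dl * Real.exp (3 * ε₁ * X)) *
            (1 + Real.exp (2 * (b - len p.2) - Λ))) := by
        have e2 : Real.exp ((a - len p.1) + ε₁ * X) ^ 2 * Real.exp (ε₁ * X) =
            Real.exp (2 * (a - len p.1)) * Real.exp (3 * ε₁ * X) := by
          rw [← Real.exp_nat_mul, ← Real.exp_add, ← Real.exp_add]
          congr 1; push_cast; ring
        calc _ = (Real.exp ((a - len p.1) + ε₁ * X) ^ 2 * Real.exp (ε₁ * X)) *
            (D₂ ^ 2 * Dl * (1 + Real.exp (2 * (b - len p.2) - Λ))) := by ring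
          _ = _ := by rw [e2]; ring
      rw [e1]
      refine mul_le_mul_of_nonneg_left ?_ (Real.exp_pos _).le
      refine mul_le_mul_of_nonneg_right ?_ (by positivity)
      rw [hM]
      refine mul_le_mul_of_nonneg_right ?_ (Real.exp_pos _).le
      refine mul_le_mul_of_nonneg_left (by linarith) (by positivity)
    · refine B2.trans ?_
      have e1 : (D₂ * Real.exp ((b - len p.2) + ε₁ * X)) ^ 2 *
          (Dk * Real.exp (ε₁ * X) * (1 + Real.exp (2 * (a - len p.1) - Λ))) =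
          Real.exp (2 * (b - len p.2)) * ((D₂ ^ 2 * Dk * Real.exp (3 * ε₁ * X)) *
            (1 + Real.exp (2 * (a - len p.1) - Λ))) := by
        have e2 : Real.exp ((b - len p.2) + ε₁ * X) ^ 2 * Real.exp (ε₁ * X) =
            Real.exp (2 * (b - len p.2)) * Real.exp (3 * ε₁ * X) := by
          rw [← Real.exp_nat_mul, ← Real.exp_add, ← Real.exp_add]
          congr 1; push_cast; ring
        calc _ = (Real.exp ((b - len p.2) + ε₁ * X) ^ 2 * Real.exp (ε₁ * X)) *
            (D₂ ^ 2 * Dk * (1 + Real.exp (2 * (a - len p.1) - Λ))) := by ring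
          _ = _ := by rw [e2]; ring
      rw [e1]
      refine mul_le_mul_of_nonneg_left ?_ (Real.exp_pos _).le
      refine mul_le_mul_of_nonneg_right ?_ (by positivity)
      rw [hM]
      refine mul_le_mul_of_nonneg_right ?_ (Real.exp_pos _).le
      refine mul_le_mul_of_nonneg_left (by linarith) (by positivity)
  -- sum over the fibres
  have hfib2 : ∀ p ∈ Q.image g, ((Q.filter (fun t => g t = p)).card : ℝ) ≤
      (M * (Real.exp (a + b) * (Real.exp θ + Real.exp (a + b - Λ)))) *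
        (Real.exp (-len p.1) * Real.exp (-len p.2)) := by
    intro p hp
    refine (hfib p hp).trans ?_
    have hp1 := len_nonneg p.1
    have hp2 := len_nonneg p.2
    have e1 : Real.exp ((a - len p.1) + (b - len p.2)) =
        Real.exp (a + b) * (Real.exp (-len p.1) * Real.exp (-len p.2)) := by
      rw [← Real.exp_add, ← Real.exp_add]; congr 1; ring
    have e2 : Real.exp ((a - len p.1) + (b - len p.2) - Λ) ≤ Real.exp (a + b - Λ) :=
      Real.exp_le_exp.mpr (by linarith)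
    rw [e1]
    have h3 : 0 ≤ M * (Real.exp (a + b) * (Real.exp (-len p.1) * Real.exp (-len p.2))) := by
      positivity
    calc M * (Real.exp (a + b) * (Real.exp (-len p.1) * Real.exp (-len p.2)) *
          (Real.exp θ + Real.exp ((a - len p.1) + (b - len p.2) - Λ)))
        = M * (Real.exp (a + b) * (Real.exp (-len p.1) * Real.exp (-len p.2))) *
          (Real.exp θ + Real.exp ((a - len p.1) + (b - len p.2) - Λ)) := by ring
      _ ≤ M * (Real.exp (a + b) * (Real.exp (-len p.1) * Real.exp (-len p.2))) *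
          (Real.exp θ + Real.exp (a + b - Λ)) := mul_le_mul_of_nonneg_left (by linarith) h3
      _ = _ := by ring
  have hsum : ∑ p ∈ Q.image g, Real.exp (-len p.1) * Real.exp (-len p.2) ≤
      (D₃ * Real.exp (ε₁ * X)) ^ 2 := by
    have hsub : Q.image g ⊆ (Q.image fun t => t.1.1 ⊓ t.1.2) ×ˢ (Q.image fun t => t.2.1 ⊓ t.2.2) := by
      intro p hp
      obtain ⟨t, ht, rfl⟩ := Finset.mem_image.mp hp
      exact Finset.mem_product.mpr ⟨Finset.mem_image_of_mem _ ht, Finset.mem_image_of_mem _ ht⟩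
    have h1 : ∑ p ∈ Q.image g, Real.exp (-len p.1) * Real.exp (-len p.2) ≤
        ∑ p ∈ (Q.image fun t => t.1.1 ⊓ t.1.2) ×ˢ (Q.image fun t => t.2.1 ⊓ t.2.2),
          Real.exp (-len p.1) * Real.exp (-len p.2) :=
      Finset.sum_le_sum_of_subset_of_nonneg hsub fun _ _ _ => by positivity
    rw [Finset.sum_product] at h1
    have h2 : ∑ x ∈ Q.image (fun t => t.1.1 ⊓ t.1.2), ∑ y ∈ Q.image (fun t => t.2.1 ⊓ t.2.2),
        Real.exp (-len x) * Real.exp (-len y) =
        (∑ x ∈ Q.image (fun t => t.1.1 ⊓ t.1.2), Real.exp (-len x)) *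
        (∑ y ∈ Q.image (fun t => t.2.1 ⊓ t.2.2), Real.exp (-len y)) :=
      (Finset.sum_mul_sum _ _ _ _).symm
    have h3 : ∑ x ∈ Q.image (fun t => t.1.1 ⊓ t.1.2), Real.exp (-len x) ≤
        D₃ * Real.exp (ε₁ * X) := by
      refine hG₃ X _ hX fun x hx => ?_
      obtain ⟨t, ht, rfl⟩ := Finset.mem_image.mp hx
      exact ((len_mono inf_le_left).trans (hQ t ht).1.2.2).trans haX
    have h4 : ∑ y ∈ Q.image (fun t => t.2.1 ⊓ t.2.2), Real.exp (-len y) ≤
        D₃ * Real.exp (ε₁ * X) := by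
      refine hG₃ X _ hX fun x hx => ?_
      obtain ⟨t, ht, rfl⟩ := Finset.mem_image.mp hx
      exact ((len_mono inf_le_left).trans (hQ t ht).2.2.1.2.2).trans hbX
    refine h1.trans ?_
    show ∑ x ∈ Q.image (fun t => t.1.1 ⊓ t.1.2), ∑ y ∈ Q.image (fun t => t.2.1 ⊓ t.2.2),
        Real.exp (-len x) * Real.exp (-len y) ≤ _
    rw [h2, sq]
    exact mul_le_mul h3 h4 (Finset.sum_nonneg fun _ _ => (Real.exp_pos _).le) (by positivity)
  have h1 : Q.card = ∑ p ∈ Q.image g, (Q.filter (fun t => g t = p)).card :=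
    Finset.card_eq_sum_card_image g Q
  calc (Q.card : ℝ) = ∑ p ∈ Q.image g, ((Q.filter (fun t => g t = p)).card : ℝ) := by
        rw [h1]; push_cast; rfl
    _ ≤ ∑ p ∈ Q.image g, (M * (Real.exp (a + b) * (Real.exp θ + Real.exp (a + b - Λ)))) *
        (Real.exp (-len p.1) * Real.exp (-len p.2)) := Finset.sum_le_sum hfib2
    _ = (M * (Real.exp (a + b) * (Real.exp θ + Real.exp (a + b - Λ)))) *
        ∑ p ∈ Q.image g, (Real.exp (-len p.1) * Real.exp (-len p.2)) := by
        rw [Finset.mul_sum]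
    _ ≤ (M * (Real.exp (a + b) * (Real.exp θ + Real.exp (a + b - Λ)))) * (D₃ * Real.exp (ε₁ * X)) ^ 2 :=
        mul_le_mul_of_nonneg_left hsum (by positivity)
    _ = D₃ ^ 2 * (D₂ ^ 2 * (Dk + Dl)) * (Real.exp (3 * ε₁ * X) * Real.exp (ε₁ * X) ^ 2) *
        (Real.exp (a + b) * (Real.exp θ + Real.exp (a + b - Λ))) := by rw [hM]; ring
    _ = D₃ ^ 2 * (D₂ ^ 2 * (Dk + Dl)) * Real.exp (ε * X) *
        (Real.exp (a + b) * (Real.exp θ + Real.exp (a + b - Λ))) := by
        have e : Real.exp (3 * ε₁ * X) * Real.exp (ε₁ * X) ^ 2 = Real.exp (ε * X) := by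
          rw [← Real.exp_nat_mul, ← Real.exp_add]
          congr 1; push_cast; rw [hε₁]; ring
        rw [e]

end Pool.Agent.Helper45.AB
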