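import Pool.Agent.Helper45.AB.Defs
import Pool.Graph.R_seed8.W358.AK.EST1

/-!
# Project AB, module OFQ (helper66): different ideals with quotient close to `1`
-/

set_option autoImplicit false

namespace Pool.Agent.Helper45.AB

open NumberField IsDedekindDomain Finset Pool.Agent.H691R3 Pool.Agent.W223.AK Pool.Agent.W358.AK

namespace Ofq

variable {K : Type} [Field K] [NumberField K]

/-- the tail of an ideal -/
noncomputable def tl (k l : ℕ) (P : Idl K) : Idl K := ex P {m | m ≠ k ∧ m ≠ l}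

theorem decomp2 {k l : ℕ} (hk : 1 ≤ k) (hl : 1 ≤ l) (hkl : k ≠ l) (P : Idl K) :
    k • ind (k - 1) P + l • ind (l - 1) P + tl k l P = P := by
  classical
  ext v
  unfold tl
  rw [Finsupp.add_apply, Finsupp.add_apply, Finsupp.smul_apply, Finsupp.smul_apply, ind_apply,
    ind_apply, ex_apply, Nat.sub_add_cancel hk, Nat.sub_add_cancel hl]
  by_cases h1 : P v = k
  · have h2 : P v ≠ l := fun h => hkl (h1.symm.trans h)
    have h3 : ¬ (P v ∈ ({m | m ≠ k ∧ m ≠ l} : Set ℕ)) := fun h => h.1 h1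
    rw [if_pos h1, if_neg h2, if_neg h3]
    simp [h1]
  · by_cases h2 : P v = l
    · have h3 : ¬ (P v ∈ ({m | m ≠ k ∧ m ≠ l} : Set ℕ)) := fun h => h.2 h2
      rw [if_neg h1, if_pos h2, if_neg h3]
      simp [h2]
    · have h3 : P v ∈ ({m | m ≠ k ∧ m ≠ l} : Set ℕ) := ⟨h1, h2⟩
      rw [if_neg h1, if_neg h2, if_pos h3]
      simp

theorem gen_decomp2 (ϖ : Pr K → K) {k l : ℕ} (hk : 1 ≤ k) (hl : 1 ≤ l) (hkl : k ≠ l)
    (P : Idl K) :
    gen ϖ P = gen ϖ (ind (k - 1) P) ^ k * gen ϖ (ind (l - 1) P) ^ l * gen ϖ (tl k l P) := by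
  conv_lhs => rw [← decomp2 hk hl hkl P]
  rw [gen_add, gen_add, gen_nsmul, gen_nsmul]

theorem len_sub (I J : Idl K) : len (J - I) = len J - len (I ⊓ J) := by
  have h : (J - I) + (I ⊓ J) = J := by
    ext v
    rw [Finsupp.add_apply, Finsupp.tsub_apply, Finsupp.inf_apply]
    omega
  have h2 := len_add (J - I) (I ⊓ J)
  rw [h] at h2
  linarith

theorem len_diff {k l : ℕ} (hk : 1 ≤ k) (hl : 1 ≤ l) (hkl : k ≠ l) (P P' : Idl K) :
    len (P' - P) ≤ k * (len (ind (k - 1) P') - len (ind (k - 1) P ⊓ ind (k - 1) P')) +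
      l * (len (ind (l - 1) P') - len (ind (l - 1) P ⊓ ind (l - 1) P')) + len (tl k l P') := by
  rw [← len_sub, ← len_sub, ← len_nsmul, ← len_nsmul, ← len_add, ← len_add]
  refine len_mono ?_
  intro v
  have e1 := DFunLike.congr_fun (decomp2 hk hl hkl P) v
  have e2 := DFunLike.congr_fun (decomp2 hk hl hkl P') v
  rw [Finsupp.add_apply, Finsupp.add_apply, Finsupp.smul_apply, Finsupp.smul_apply,
    smul_eq_mul, smul_eq_mul] at e1 e2
  rw [Finsupp.tsub_apply, Finsupp.add_apply, Finsupp.add_apply, Finsupp.smul_apply,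
    Finsupp.smul_apply, smul_eq_mul, smul_eq_mul, Finsupp.tsub_apply, Finsupp.tsub_apply,
    Nat.mul_sub, Nat.mul_sub, ← e1, ← e2]
  omega

theorem gen_inj {S : Finset (Pr K)} {ϖ : Pr K → K} {C : ℝ} (hU : Unif S ϖ C) {P P' : Idl K}
    (hP : OffS S P) (hP' : OffS S P') (h : gen ϖ P = gen ϖ P') : P = P' := by
  ext v
  by_cases hv : v ∈ S
  · rw [hP v hv, hP' v hv]
  · have h1 := fv_gen hU hP hv
    rw [h, fv_gen hU hP' hv] at h1
    have h2 := zpow_right_injective₀ (Nv_pos v) (Nv_one_lt v).ne' h1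
    omega

end Ofq

open Ofq

theorem ofq {K : Type} [Field K] [NumberField K] {S : Finset (Pr K)} {ϖ : Pr K → K} {C : ℝ}
    (hU : Unif S ϖ C) (ho : S_OFF S ϖ) (hs : S_SIZE K) (hC : StmtCNT K) : S_OFQ S ϖ := by
  classical
  intro k l hk hl hkl hgk hgl ε A B hε hA hB
  obtain ⟨D1, hD1, h1⟩ := hC (ε / 4) (by positivity)
  obtain ⟨D2, hD2, h2⟩ := ho k l hk hl hgk hgl (ε / 2) A (by positivity) hA
  obtain ⟨C0, hC0, h0⟩ := hs S A B hA hB
  refine ⟨D1 ^ 2 * D2 * Real.exp C0, by positivity, ?_⟩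
  intro X a b τ W θ f V σ Q ha haX hb hbX hf hlf hV hσ hTh hQ
  have hX : 0 ≤ X := ha.trans haX
  set T : Finset (Idl K) := (Q.image fun t => tl k l t.1) ∪ (Q.image fun t => tl k l t.2) with hT
  have hTc : (T.card : ℝ) ≤ D1 * Real.exp (τ + ε / 4 * X) := by
    refine h1 X τ T hX ?_
    intro u hu
    rw [hT, Finset.mem_union, Finset.mem_image, Finset.mem_image] at hu
    rcases hu with ⟨t, ht, rfl⟩ | ⟨t, ht, rfl⟩
    · have g1 := (hQ t ht).1
      exact ⟨g1.tail, (len_mono (ex_le _ _)).trans g1.len⟩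
    · have g1 := (hQ t ht).2.1
      exact ⟨g1.tail, (len_mono (ex_le _ _)).trans g1.len⟩
  set φ : Idl K × Idl K → Idl K × Idl K := fun t => (tl k l t.1, tl k l t.2) with hφ
  have himg : ((Q.image φ).card : ℝ) ≤ (D1 * Real.exp (τ + ε / 4 * X)) ^ 2 := by
    have h3 : Q.image φ ⊆ T ×ˢ T := by
      intro c hc
      rw [Finset.mem_image] at hc
      obtain ⟨t, ht, rfl⟩ := hc
      rw [Finset.mem_product]
      exact ⟨Finset.mem_union_left _ (Finset.mem_image.mpr ⟨t, ht, rfl⟩),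
        Finset.mem_union_right _ (Finset.mem_image.mpr ⟨t, ht, rfl⟩)⟩
    have h4 : ((Q.image φ).card : ℝ) ≤ (T.card : ℝ) * T.card := by
      have := Finset.card_le_card h3
      rw [Finset.card_product] at this
      exact_mod_cast this
    refine h4.trans ?_
    rw [sq]
    exact mul_le_mul hTc hTc (Nat.cast_nonneg _) (by positivity)
  have hk1 : (1 : ℝ) ≤ k := by exact_mod_cast hk
  have hl1 : (1 : ℝ) ≤ l := by exact_mod_cast hl
  have hTh' : Th k l a b (W + C0 - lenM f V σ) (θ + C0) := by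
    have hkC : C0 ≤ k * C0 := by nlinarith
    have hlC : C0 ≤ l * C0 := by nlinarith
    rcases hTh with h | ⟨h, h'⟩ | ⟨h, h'⟩
    · left
      linarith
    · right; left
      constructor
      · rw [mul_add]; linarith
      · rw [mul_add]; linarith
    · right; right
      constructor
      · rw [mul_add]; linarith
      · rw [mul_add]; linarith
  have hfib : ∀ c ∈ Q.image φ, ((Q.filter (fun t => φ t = c)).card : ℝ) ≤
      D2 * Real.exp (ε / 2 * X) * (Real.exp (a + b) *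
      (Real.exp (θ + C0) + Real.exp (a + b - lenM f V σ))) := by
    intro c hc
    set ψ : Idl K × Idl K → (Idl K × Idl K) × (Idl K × Idl K) :=
      fun t => ((ind (k - 1) t.1, ind (k - 1) t.2), (ind (l - 1) t.1, ind (l - 1) t.2)) with hψ
    have hinj : Set.InjOn ψ (Q.filter (fun t => φ t = c)) := by
      intro t ht t' ht' htt
      rw [Finset.mem_coe, Finset.mem_filter] at ht ht'
      have e1 : φ t = φ t' := ht.2.trans ht'.2.symm
      rw [hφ] at e1
      rw [hψ] at htt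
      simp only [Prod.mk.injEq] at e1 htt
      refine Prod.ext ?_ ?_
      · rw [← decomp2 hk hl hkl t.1, ← decomp2 hk hl hkl t'.1, e1.1, htt.1.1, htt.2.1]
      · rw [← decomp2 hk hl hkl t.2, ← decomp2 hk hl hkl t'.2, e1.2, htt.1.2, htt.2.2]
    rw [← Finset.card_image_of_injOn hinj]
    refine h2 X a b (W + C0) (θ + C0) f V σ (gen ϖ c.1 / gen ϖ c.2) _ ha haX hb hbX hf hlf hV hσ
      (div_ne_zero (gen_ne hU _) (gen_ne hU _)) hTh' ?_
    intro u hu
    rw [Finset.mem_image] at hu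
    obtain ⟨t, ht, rfl⟩ := hu
    rw [Finset.mem_filter] at ht
    obtain ⟨g1, g2, g3, g4, g5⟩ := hQ t ht.1
    have hka : ∀ P : Idl K, rl (ex P {k}) ≤ a → len (ind (k - 1) P) ≤ a := by
      intro P hP
      rw [len_ind, Nat.sub_add_cancel hk]
      exact hP
    have hlb : ∀ P : Idl K, rl (ex P {l}) ≤ b → len (ind (l - 1) P) ≤ b := by
      intro P hP
      rw [len_ind, Nat.sub_add_cancel hl]
      exact hP
    have e2 : gen ϖ c.1 / gen ϖ c.2 * (gen ϖ (ψ t).1.1 / gen ϖ (ψ t).1.2) ^ k *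
        (gen ϖ (ψ t).2.1 / gen ϖ (ψ t).2.2) ^ l = gen ϖ t.1 / gen ϖ t.2 := by
      rw [gen_decomp2 ϖ hk hl hkl t.1, gen_decomp2 ϖ hk hl hkl t.2, ← ht.2]
      simp only [hφ, hψ, div_pow]
      rw [div_mul_div_comm, div_mul_div_comm]
      congr 1
      · ring
      · ring
    refine ⟨⟨g1.off.mono (ind_le _ _), g1.cop.mono_left (ind_le _ _), hka _ g1.ka⟩,
      ⟨g2.off.mono (ind_le _ _), g2.cop.mono_left (ind_le _ _), hka _ g2.ka⟩,
      ⟨g1.off.mono (ind_le _ _), g1.cop.mono_left (ind_le _ _), hlb _ g1.lb⟩,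
      ⟨g2.off.mono (ind_le _ _), g2.cop.mono_left (ind_le _ _), hlb _ g2.lb⟩, ?_, ?_⟩
    · -- the size
      have hy0 : gen ϖ t.1 / gen ϖ t.2 ≠ 0 := div_ne_zero (gen_ne hU _) (gen_ne hU _)
      have hy1 : gen ϖ t.1 / gen ϖ t.2 ≠ 1 := by
        intro h
        rw [div_eq_one_iff_eq (gen_ne hU _)] at h
        exact g3 (gen_inj hU g1.off g2.off h)
      have hsz := h0 (gen ϖ t.1 / gen ϖ t.2) f (t.2 - t.1) V σ hy0 hy1 hV hf ?_
        (fun v hv => (le_abs_self _).trans (g4 v hv)) g5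
      · have h5 := len_diff hk hl hkl t.1 t.2
        have h6 : len (tl k l t.2) ≤ W := g2.tlen
        simp only [hψ]
        linarith
      · intro v hv
        rw [map_div₀, fv_gen hU g1.off hv, fv_gen hU g2.off hv, ← zpow_sub₀ (Nv_pos v).ne',
          ← zpow_natCast]
        refine zpow_le_zpow_right₀ (Nv_one_lt v).le ?_
        rw [Finsupp.tsub_apply]
        omega
    · rw [e2]
      exact g5
  refine (fib_bound Q φ _ hfib).trans ?_
  have h5 : (0 : ℝ) ≤ D2 * Real.exp (ε / 2 * X) * (Real.exp (a + b) *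
      (Real.exp (θ + C0) + Real.exp (a + b - lenM f V σ))) := by positivity
  refine (mul_le_mul_of_nonneg_right himg h5).trans ?_
  have e3 : Real.exp (ε * X + 2 * τ + (a + b)) =
      Real.exp (τ + ε / 4 * X) ^ 2 * Real.exp (ε / 2 * X) * Real.exp (a + b) := by
    rw [sq, ← Real.exp_add, ← Real.exp_add, ← Real.exp_add]
    congr 1
    ring
  have e4 : Real.exp (θ + C0) + Real.exp (a + b - lenM f V σ) ≤
      Real.exp C0 * (Real.exp θ + Real.exp (a + b - lenM f V σ)) := by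
    rw [mul_add, ← Real.exp_add, add_comm C0 θ]
    have h6 : 1 ≤ Real.exp C0 := Real.one_le_exp hC0
    have h7 : 0 < Real.exp (a + b - lenM f V σ) := Real.exp_pos _
    nlinarith
  rw [e3]
  calc (D1 * Real.exp (τ + ε / 4 * X)) ^ 2 * (D2 * Real.exp (ε / 2 * X) * (Real.exp (a + b) *
      (Real.exp (θ + C0) + Real.exp (a + b - lenM f V σ))))
      = (D1 ^ 2 * D2 * (Real.exp (τ + ε / 4 * X) ^ 2 * Real.exp (ε / 2 * X) *
        Real.exp (a + b))) * (Real.exp (θ + C0) + Real.exp (a + b - lenM f V σ)) := by ring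
    _ ≤ (D1 ^ 2 * D2 * (Real.exp (τ + ε / 4 * X) ^ 2 * Real.exp (ε / 2 * X) *
        Real.exp (a + b))) * (Real.exp C0 * (Real.exp θ + Real.exp (a + b - lenM f V σ))) :=
        mul_le_mul_of_nonneg_left e4 (by positivity)
    _ = _ := by ring

end Pool.Agent.Helper45.AB
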