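import Pool.Agent.Helper45.AB.Defs

/-!
# Project AB, module SAO (helper40)
-/

set_option autoImplicit false
set_option linter.unusedSectionVars false

namespace Pool.Agent.Helper45.AB

open NumberField IsDedekindDomain Finset Pool.Agent.H691R3 Pool.Agent.W223.AK Pool.Agent.W358.AK

variable {K : Type} [Field K] [NumberField K]

theorem sao_Th {k l : ℕ} (hk : 1 ≤ k) (hl : 1 ≤ l) {a b ζ ζ' θ c : ℝ} (hc : 0 ≤ c)
    (hζ : ζ' ≤ ζ + c) (h : Th k l a b ζ θ) : Th k l a b ζ' (θ + c) := by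
  have hk' : (1 : ℝ) ≤ k := by exact_mod_cast hk
  have hl' : (1 : ℝ) ≤ l := by exact_mod_cast hl
  have h1 : c ≤ k * c := le_mul_of_one_le_left hc hk'
  have h2 : c ≤ l * c := le_mul_of_one_le_left hc hl'
  rcases h with h | h | h
  · exact Or.inl (by linarith)
  · refine Or.inr (Or.inl ⟨?_, ?_⟩)
    · rw [mul_add]
      linarith [h.1]
    · rw [mul_add]
      linarith [h.2]
  · refine Or.inr (Or.inr ⟨?_, ?_⟩)
    · rw [mul_add]
      linarith [h.1]
    · rw [mul_add]
      linarith [h.2]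

theorem sao_log {x : K} (hx : Pt x) (p q : Fin 3) (v : Pl K) :
    mt v * Real.log (av v (yy p q x)) = lm v q x - lm v p x := by
  have hLp := (av v).pos (L_ne hx p)
  have hLq := (av v).pos (L_ne hx q)
  have e1 : av v (yy p q x) = av v (L p x) / av v (L q x) := by
    unfold yy
    rw [map_mul, map_neg_eq_map, map_mul, abv_sgn, abv_sgn, map_div₀]
    ring
  rw [e1, Real.log_div hLp.ne' hLq.ne', lm_eq hx v p, lm_eq hx v q]
  ring

theorem sao {S : Finset (Pr K)} {ϖ : Pr K → K} {C : ℝ} (hU : Unif S ϖ C) (h : S_OFQ S ϖ) :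
    S_SAO S ϖ := by
  classical
  intro k l hk hl hkl hSk hSl ε hε
  obtain ⟨D3, hD3, h3⟩ := h k l hk hl hkl hSk hSl ε 6 4 hε (by norm_num) (by norm_num)
  set N : ℝ := ((Spl S).card : ℝ) with hN
  have hN0 : 0 ≤ N := Nat.cast_nonneg _
  refine ⟨D3 * Real.exp (ε * cS S) * (2 * Real.exp (5 * N)), by positivity, ?_⟩
  intro X E P p q r F a b τ W Λ θ σ s f Q hX hE hpq hqr hpr ha haX hb hbX hka hlb htail hWl hσ hΛ hf
    hs hTh hQ
  rcases Q.eq_empty_or_nonempty with hQ0 | ⟨t0, ht0⟩
  · rw [hQ0]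
    simp only [Finset.card_empty, Nat.cast_zero]
    positivity
  obtain ⟨x0, hx0, _⟩ := hQ t0 ht0
  have hcs := cS_nonneg S
  have hfo : OffS S f := by
    rw [← hf x0 hx0]
    exact ((hE x0 hx0).2.1.off r).ex F
  have hlen : ∀ x ∈ E, ∀ l, len (P x l) ≤ X + cS S := by
    intro x hx l
    have h1 := len_le (hE x hx).1 (hE x hx).2.1 l
    have h2 := (hE x hx).2.2
    linarith
  have hlf : len f ≤ X + cS S := by
    rw [← hf x0 hx0]
    exact (len_mono (ex_le _ _)).trans (hlen x0 hx0 r)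
  have hlow : Λ - 5 * N ≤ lenM f (VV' S (σ r)) (σ r) := by
    have h1 := lenM_ge S f (σ r)
    have h2 := hΛ x0 hx0
    rw [hf x0 hx0] at h2
    linarith
  have hgd : ∀ x ∈ E, Gd2 S f k l a b τ W (X + cS S) (P x p) := by
    intro x hx
    refine ⟨(hE x hx).2.1.off p, ?_, hlen x hx p, hka x hx, hlb x hx, htail x hx, hWl x hx⟩
    rw [← hf x hx]
    exact (((hE x hx).2.1.cop hpr).symm.mono_left (ex_le _ _)).symm
  have hV : ∀ v ∈ VV' S (σ r), v ∈ Spl S ∧ 5 ≤ σ r v := by
    intro v hv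
    unfold VV' at hv
    rwa [Finset.mem_filter] at hv
  have hTh' : Th k l a b (W - lenM f (VV' S (σ r)) (σ r)) (θ + 5 * N) :=
    sao_Th hk hl (by positivity) (by linarith) hTh
  have h4 := h3 (X + cS S) a b τ W (θ + 5 * N) f (VV' S (σ r)) (σ r) Q ha (by linarith) hb
    (by linarith) hfo hlf (fun v hv => (hV v hv).1) (fun v hv => by linarith [(hV v hv).2]) hTh' ?_
  swap
  · intro t ht
    obtain ⟨x, hx, x', hx', e1, e2, e3, e0⟩ := hQ t ht
    have e4 : gen ϖ (P x p) / gen ϖ (P x' p) = yy p q x / yy p q x' := by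
      have g1 := gen_ne hU (P x p)
      have g2 := gen_ne hU (P x' p)
      have g3 := gen_ne hU (P x q)
      have g4 := yy_ne (hE x hx).1 p q
      have g5 := yy_ne (hE x' hx').1 p q
      have s1 := hs x hx
      have s2 := hs x' hx'
      rw [← e3, ← s1] at s2
      field_simp at s2
      rw [div_eq_div_iff g2 g5]
      linear_combination s2
    rw [e1, e2]
    refine ⟨hgd x hx, hgd x' hx', e0, ?_, ?_⟩
    · intro v hv
      rw [e4, map_div₀, Real.log_div ((av v).pos (yy_ne (hE x hx).1 p q)).ne'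
        ((av v).pos (yy_ne (hE x' hx').1 p q)).ne', mul_sub, sao_log (hE x hx).1,
        sao_log (hE x' hx').1]
      have b1 := abs_le.1 (hσ x hx v hv p)
      have b2 := abs_le.1 (hσ x hx v hv q)
      have b3 := abs_le.1 (hσ x' hx' v hv p)
      have b4 := abs_le.1 (hσ x' hx' v hv q)
      rw [abs_le]
      constructor
      · linarith [b1.1, b1.2, b2.1, b2.2, b3.1, b3.2, b4.1, b4.2]
      · linarith [b1.1, b1.2, b2.1, b2.2, b3.1, b3.2, b4.1, b4.2]
    · have c1 := yy_Cl (hE x hx).1 (hE x hx).2.1 hpq hqr hpr F (σ := σ r)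
        (fun v hv => hσ x hx v hv r)
      have c2 := yy_Cl (hE x' hx').1 (hE x' hx').2.1 hpq hqr hpr F (σ := σ r)
        (fun v hv => hσ x' hx' v hv r)
      rw [hf x hx] at c1
      rw [hf x' hx'] at c2
      have c3 := Cl_div c1 c2 (fun v hv => by
        have h2 := mt_le_two v
        have h5 := log_two_le
        have h7 : 0 ≤ Real.log 2 := Real.log_nonneg (by norm_num)
        have h9 : mt v * Real.log 2 ≤ 2 * (7 / 10) := mul_le_mul h2 h5 h7 (by norm_num)
        linarith [(hV v hv).2])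
      rw [e4]
      have e5 : (3 : ℝ) + 3 = 6 := by norm_num
      rwa [e5] at c3
  refine h4.trans ?_
  have h5 : Real.exp (θ + 5 * N) + Real.exp (a + b - lenM f (VV' S (σ r)) (σ r)) ≤
      2 * Real.exp (5 * N) * Real.exp (max θ (a + b - Λ)) := by
    have a1 : Real.exp (θ + 5 * N) ≤ Real.exp (5 * N) * Real.exp (max θ (a + b - Λ)) := by
      rw [← Real.exp_add, Real.exp_le_exp]
      have := le_max_left θ (a + b - Λ)
      linarith
    have a2 : Real.exp (a + b - lenM f (VV' S (σ r)) (σ r)) ≤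
        Real.exp (5 * N) * Real.exp (max θ (a + b - Λ)) := by
      rw [← Real.exp_add, Real.exp_le_exp]
      have := le_max_right θ (a + b - Λ)
      linarith
    linarith
  refine (mul_le_mul_of_nonneg_left h5 (by positivity)).trans (le_of_eq ?_)
  have e6 : Real.exp (ε * (X + cS S) + 2 * τ + (a + b)) =
      Real.exp (ε * cS S) * Real.exp (ε * X) * Real.exp (2 * τ + (a + b)) := by
    rw [← Real.exp_add, ← Real.exp_add]
    congr 1
    ring
  have e7 : Real.exp (2 * τ + (a + b) + max θ (a + b - Λ)) =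
      Real.exp (2 * τ + (a + b)) * Real.exp (max θ (a + b - Λ)) := by
    rw [← Real.exp_add]
  rw [e6, e7]
  ring

end Pool.Agent.Helper45.AB
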