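import Pool.Agent.Helper45.AB.Defs

/-!
# Project AB, module SIZE (helper66): an element close to `1` has a large denominator
-/

set_option autoImplicit false

namespace Pool.Agent.Helper45.AB

open NumberField IsDedekindDomain Finset Pool.Agent.H691R3 Pool.Agent.W223.AK

theorem size (K : Type) [Field K] [NumberField K] : S_SIZE K := by
  classical
  intro S A B hA hB
  set N : ℝ := ((Spl S).card : ℝ) with hN
  have hN0 : 0 ≤ N := Nat.cast_nonneg _
  have hl2 : 0 ≤ Real.log 2 := Real.log_nonneg (by norm_num)
  refine ⟨N * (A + (2 * Real.log 2 + B)), by positivity, ?_⟩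
  intro y f b V σ hy hy1 hV hf hb hB' hcl
  have hz : y - 1 ≠ 0 := sub_ne_zero.2 hy1
  -- the set of places
  set s : Finset (Pr K) := (((fv_support_finite hz).toFinset ∪ b.support) ∪ f.support) \ S with hs
  have hdis : Disjoint S s := by
    rw [hs]
    exact Finset.disjoint_sdiff
  have hone : ∀ v, v ∉ S → v ∉ s → fv v (y - 1) = 1 := by
    intro v hvS hvs
    by_contra hne
    apply hvs
    rw [hs, Finset.mem_sdiff]
    refine ⟨Finset.mem_union_left _ (Finset.mem_union_left _ ?_), hvS⟩
    rw [Set.Finite.mem_toFinset]
    exact hne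
  have hpf := product_formula S hz s hone hdis
  -- the places outside `S`
  have hfin : ∑ v ∈ s, Real.log (fv v (y - 1)) ≤
      ∑ v ∈ s, ((b v : ℝ) * Real.log (Nv v) - (f v : ℝ) * Real.log (Nv v)) := by
    refine Finset.sum_le_sum fun v hv => ?_
    have hvS : v ∉ S := by
      rw [hs, Finset.mem_sdiff] at hv
      exact hv.2
    have hpos : 0 < fv v (y - 1) := (fv v).pos hz
    have hlog := log_Nv_pos v
    by_cases hfv : f v = 0
    · have h1 : fv v (y - 1) ≤ (Nv v) ^ (b v) := by
        have h2 := fv_na v y (-1)
        rw [← sub_eq_add_neg, AbsoluteValue.map_neg, map_one] at h2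
        refine h2.trans (max_le (hb v hvS) ?_)
        exact one_le_pow₀ (Nv_one_lt v).le
      have h3 := Real.log_le_log hpos h1
      rw [Real.log_pow] at h3
      rw [hfv]
      push_cast
      linarith
    · have h1 := hcl.1 v hfv
      have h3 := Real.log_le_log hpos h1
      rw [Real.log_zpow] at h3
      push_cast at h3
      have h4 : 0 ≤ (b v : ℝ) * Real.log (Nv v) := mul_nonneg (Nat.cast_nonneg _) hlog.le
      linarith
  have hfsum : ∑ v ∈ s, (f v : ℝ) * Real.log (Nv v) = len f := by
    symm
    apply len_eq_sum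
    intro v hv
    rw [hs, Finset.mem_sdiff]
    refine ⟨Finset.mem_union_right _ hv, fun h => ?_⟩
    exact (Finsupp.mem_support_iff.mp hv) (hf v h)
  have hbsum : ∑ v ∈ s, (b v : ℝ) * Real.log (Nv v) ≤ len b := by
    rw [len_eq_sum (a := b) (s := s ∪ b.support) Finset.subset_union_right]
    refine Finset.sum_le_sum_of_subset_of_nonneg Finset.subset_union_left fun v _ _ => ?_
    exact mul_nonneg (Nat.cast_nonneg _) (log_Nv_pos v).le
  -- the special places
  have hsp : ∑ v ∈ Spl S, mt v * Real.log (av v (y - 1)) ≤
      ∑ v ∈ Spl S, ((A + (2 * Real.log 2 + B)) - if v ∈ V then σ v else 0) := by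
    refine Finset.sum_le_sum fun v hv => ?_
    have hpos : 0 < av v (y - 1) := (av v).pos hz
    have hmt := mt_pos v
    split_ifs with hvV
    · have h1 := hcl.2 v hvV
      have h2 := Real.log_le_log (Real.rpow_pos_of_pos hpos _) h1
      rw [Real.log_rpow hpos, Real.log_exp] at h2
      linarith
    · have h1 : av v (y - 1) ≤ 2 * max (av v y) 1 := by
        have h2 := (av v).add_le y (-1)
        rw [← sub_eq_add_neg, AbsoluteValue.map_neg, map_one] at h2
        have h3 := le_max_left (av v y) 1
        have h4 := le_max_right (av v y) 1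
        linarith
      have h5 := Real.log_le_log hpos h1
      have hmx : 0 < max (av v y) 1 := lt_max_of_lt_right one_pos
      rw [Real.log_mul (by norm_num) hmx.ne'] at h5
      have h6 : mt v * Real.log (max (av v y) 1) ≤ B := by
        rcases le_total (av v y) 1 with h | h
        · rw [max_eq_right h, Real.log_one, mul_zero]
          exact hB
        · rw [max_eq_left h]
          exact hB' v hv
      have h7 : mt v * Real.log 2 ≤ 2 * Real.log 2 :=
        mul_le_mul_of_nonneg_right (mt_le_two v) hl2
      have h8 : mt v * Real.log (av v (y - 1)) ≤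
          mt v * (Real.log 2 + Real.log (max (av v y) 1)) :=
        mul_le_mul_of_nonneg_left h5 hmt.le
      rw [mul_add] at h8
      linarith
  rw [Finset.sum_sub_distrib, Finset.sum_const, nsmul_eq_mul, ← hN] at hsp
  have hVs : ∑ v ∈ Spl S, (if v ∈ V then σ v else 0) = ∑ v ∈ V, σ v := by
    rw [← Finset.sum_filter]
    refine Finset.sum_congr ?_ fun _ _ => rfl
    ext v
    rw [Finset.mem_filter]
    exact ⟨fun h => h.2, fun h => ⟨hV h, h⟩⟩
  rw [hVs] at hsp
  rw [Finset.sum_sub_distrib, hfsum] at hfin
  unfold lenM
  linarith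

end Pool.Agent.Helper45.AB
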