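import Pool.Graph.R_seed8.W223.AK.Main
import Pool.Agent.Helper45.AB.Off
import Pool.Agent.Helper45.AB.Cso
import Pool.Agent.Helper45.AB.Size
import Pool.Agent.Helper45.AB.Ofq
import Pool.Agent.Helper45.AB.Sao
import Pool.Agent.Helper45.AB.Est2
import Pool.Agent.Helper45.AB.Fin2
import Pool.Agent.Helper45.AB.Chk
import Pool.Agent.Helper45.AB.Finq
import Pool.Agent.Helper45.AB.DTop

/-!
# Assembly: the count for the exponent `8 / 15`
-/

set_option autoImplicit false

namespace Pool.Agent.Helper45.AB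

open NumberField IsDedekindDomain Finset Pool.Agent.H691R3 Pool.Agent.W223.AK Pool.Agent

theorem est2_all (K : Type) [Field K] [NumberField K] (S : Finset (Pr K)) (ϖ : Pr K → K) (C : ℝ)
    (hU : Unif S ϖ C) : S_EST2 S :=
  est2 hU
    (sao hU (ofq hU (off (Pool.Agent.W440.AK.p1 hU Pool.Agent.W52.AK.omg)
      Pool.Agent.W52.AK.cnt Pool.Agent.W52.AK.gcdsum hU.ne) (size K) Pool.Agent.W52.AK.cnt))
    (W54.AK.jk hU
      (Pool.Agent.W249.AK.tw (Pool.Agent.W440.AK.p1 hU Pool.Agent.W52.AK.omg)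
        Pool.Agent.W52.AK.cnt Pool.Agent.W52.AK.gcdsum hU.ne)
      Pool.Agent.W681.AK.absj Pool.Agent.W613.AK.grp Pool.Agent.W214.AK.rnd
      Pool.Agent.W52.AK.cnt Pool.Agent.W52.AK.fac)
    Pool.Agent.W52.AK.cnt Pool.Agent.W822.AK.su (cso Pool.Agent.W375.AK.cs)

theorem cert2 : S_CERT2 (8 / 15) := by
  have h := chk 8 15 1000 (by norm_num) Data.tree Data.chk_tree
  have e : (((8 : ℕ) : ℝ) / ((15 : ℕ) : ℝ)) = 8 / 15 := by norm_num
  rwa [e] at h

/-- the count for exponent `8 / 15` -/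
theorem main2 (K : Type) [Field K] [NumberField K] : StmtFIN K (8 / 15) :=
  fin2 (8 / 15) (by norm_num) Pool.Agent.W45.AK.uni (est_all K) (est2_all K) (db_all K)
    (fun S => Pool.Agent.W108.AK.mb S) cert2

end Pool.Agent.Helper45.AB
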